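import Pool.Agent.P.MP_e0c037_lc.R3.Stm

namespace Pool.Agent.P.MP_e0c037_lc.R3

open Pool.Agent.Lib.helper21 Pool.Agent.Lib.helper77 Enc Function Turing Turing.TM2

namespace CLP

theorem code {D : Type} (vals : List D) (d0 : D) (rel : ℕ → D → D → Prop) (r : ℕ) :
    ∃ tab : List (ℕ × ℕ × ℕ), (∀ t ∈ tab, t.2.1 < vals.length ∧ t.2.2 < vals.length) ∧
      ∀ cons : List (ℕ × ℕ × ℕ), (∀ e ∈ cons, e.1 < r) → ∀ a : ℕ → ℕ,
        (∀ e ∈ cons, a e.2.1 < vals.length ∧ a e.2.2 < vals.length) →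
        ((∀ f ∈ forb tab cons, ¬ (a f.1 = f.2.1 ∧ a f.2.2.1 = f.2.2.2)) ↔
          ∀ e ∈ cons, rel e.1 (vals.getD (a e.2.1) d0) (vals.getD (a e.2.2) d0)) := by
  have hfin : {t : ℕ × ℕ × ℕ | t.1 < r ∧ t.2.1 < vals.length ∧ t.2.2 < vals.length ∧
      ¬ rel t.1 (vals.getD t.2.1 d0) (vals.getD t.2.2 d0)}.Finite :=
    ((Set.finite_Iio r).prod ((Set.finite_Iio vals.length).prod
      (Set.finite_Iio vals.length))).subset fun t ⟨h1, h2, h3, _⟩ => ⟨h1, h2, h3⟩
  have hm : ∀ t, t ∈ hfin.toFinset.toList ↔ t.1 < r ∧ t.2.1 < vals.length ∧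
      t.2.2 < vals.length ∧ ¬ rel t.1 (vals.getD t.2.1 d0) (vals.getD t.2.2 d0) := fun t => by
    rw [Finset.mem_toList, Set.Finite.mem_toFinset]; rfl
  refine ⟨hfin.toFinset.toList, fun t ht => ?_, fun cons hc a ha => ⟨?_, ?_⟩⟩
  · obtain ⟨_, h1, h2, _⟩ := (hm t).1 ht
    exact ⟨h1, h2⟩
  · intro h e he
    by_contra h0
    refine h (e.2.1, a e.2.1, e.2.2, a e.2.2) ?_ ⟨rfl, rfl⟩
    simp only [forb, List.mem_flatMap, List.mem_map, List.mem_filter, decide_eq_true_eq]
    exact ⟨e, he, (e.1, a e.2.1, a e.2.2),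
      ⟨(hm _).2 ⟨hc e he, (ha e he).1, (ha e he).2, h0⟩, rfl⟩, rfl⟩
  · intro h f hf
    simp only [forb, List.mem_flatMap, List.mem_map, List.mem_filter, decide_eq_true_eq] at hf
    obtain ⟨c, hc', t, ⟨ht, ht'⟩, rfl⟩ := hf
    rintro ⟨h1, h2⟩
    obtain ⟨_, h3, h4, h5⟩ := (hm t).1 ht
    have := h c hc'
    dsimp only at h1 h2
    rw [h1, h2, ← ht'] at this
    exact h5 this

theorem cell_lt (y : List Bool) (p N H : ℕ) (hH : y.length + 3 * p + N ≤ H) :
    ∀ e ∈ tcons y p N H, e.2.1 < (N + 1) * (H + 1) ∧ e.2.2 < (N + 1) * (H + 1) := by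
  have d1 : ∀ i j, i < N + 1 → j < H + 1 → i * (H + 1) + j < (N + 1) * (H + 1) :=
    fun i j hi hj => by
      have := Nat.mul_le_mul_right (H + 1) (Nat.succ_le_of_lt hi)
      rw [Nat.succ_mul] at this
      omega
  have d2 : ∀ j, j < H + 1 → j < (N + 1) * (H + 1) := fun j hj => by
    simpa using d1 0 j (by omega) hj
  simp only [tcons, List.forall_mem_append, List.forall_mem_flatMap, List.forall_mem_map,
    List.forall_mem_cons, List.mem_range]
  refine ⟨fun i hi j hj => ?_, fun i hi => ?_, fun i hi j hj => ?_, fun i hi j hj => ?_,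
    fun i hi j hj => ?_, fun i hi => ?_, fun i hi => ?_, fun j hj => ?_, fun j hj => ?_,
    fun m hm => ?_, fun m hm => ?_, fun j hj => ?_, ?_, ?_, by simp⟩
  all_goals first
    | exact ⟨d1 _ _ (by omega) (by omega), d1 _ _ (by omega) (by omega)⟩
    | exact ⟨d2 _ (by omega), d2 _ (by omega)⟩

section
variable {K : Type} [DecidableEq K] {Γ : K → Type} {Λ σ : Type} (M : Λ → Stmt Γ Λ σ)
  (k0 k1 : K) (q0 : Ctl Γ Λ σ) (inp : Bool ≃ Γ k0) (out : Γ k1)

theorem sound (y : List Bool) (p N H : ℕ) (hH : y.length + 3 * p + N ≤ H)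
    (c : List Bool → MC Γ Λ σ) (hc1 : ∀ w, (c w).1 = q0) (hc2 : ∀ w k, k ≠ k0 → (c w).2 k = [])
    (hc3 : ∀ w, (c w).2 k0 = (y ++ w.flatMap fun b => [true, b, false]).map inp)
    (A : ℕ → Dm Γ Λ σ)
    (h : ∀ e ∈ tcons y p N H, rel M k0 k1 q0 inp out e.1 (A e.2.1) (A e.2.2)) :
    ∃ w : List Bool, w.length ≤ p ∧ (((mstep M)^[N] (c w)).2 k1)[0]? = some out ∧
      ∀ i < N + 1, ∀ j < H + 1, A (i * (H + 1) + j) = cellOf ((mstep M)^[i] (c w)) j := by
  simp only [tcons, List.forall_mem_append, List.forall_mem_flatMap, List.forall_mem_map,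
    List.forall_mem_cons, List.mem_range] at h
  obtain ⟨r0, r1, r2, r3, r4, r5, r6, r7, r8, r10, r11, r12, r13, r14, _⟩ := h
  have hT : Tab M (fun i j => A (i * (H + 1) + j)) N H := ⟨r0, r1, r2, r3, r4, r5, r6⟩
  obtain ⟨w, hw, e⟩ := blocks inp p (fun j => (A (y.length + j)).2.2 k0) (H - y.length) (by omega)
    r10 r11 (fun j hj => r12 (y.length + j) (by omega)) r13
  have key := tab_sound M hT (c w) (fun k => ?_) (fun j hj => ?_)
  · refine ⟨w, hw, ?_, fun i hi j hj => ?_⟩
    · rw [← (key N (by omega) 0 (by omega)).2]; exact r14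
    · refine Prod.ext (key i hi j hj).1 (Prod.ext ?_ (funext (key i hi j hj).2))
      induction j with
      | zero =>
        funext k
        rw [hT.r1 i hi, (key i hi 0 hj).2]
        simp [cellOf, List.head?_eq_getElem?]
      | succ j ihj => rw [← (hT.r0 i hi j (by omega)).2, ihj (by omega)]; rfl
  · by_cases hk : k = k0
    · subst hk
      rw [hc3, List.length_map, List.length_append, length_enc]; omega
    · rw [hc2 w k hk]; simp; omega
  · simp only [Nat.zero_mul, Nat.zero_add]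
    refine ⟨(r7 j hj).1.trans (hc1 w).symm, fun k => ?_⟩
    by_cases hk : k = k0
    · subst hk
      rw [hc3, List.map_append]
      rcases Nat.lt_or_ge j y.length with h1 | h1
      · have := r8 j h1
        rw [List.getElem?_append_left (by simpa using h1), List.getElem?_map,
          List.getElem?_eq_getElem h1]
        rw [List.getD_eq_getElem _ _ h1] at this
        revert this
        cases y[j] <;> exact id
      · obtain ⟨j, rfl⟩ := Nat.exists_eq_add_of_le h1
        rw [List.getElem?_append_right (by simp), e j (by omega)]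
        simp
    · rw [hc2 w k hk, (r7 j hj).2 k hk]; rfl

end

theorem enc_inj : ∀ w w' : List Bool, (w.flatMap fun b => [true, b, false]) =
    (w'.flatMap fun b => [true, b, false]) → w = w'
  | [], [], _ => rfl
  | [], _ :: _, h => by simp at h
  | _ :: _, [], h => by simp at h
  | b :: w, b' :: w', h => by
    simp only [List.flatMap_cons, List.cons_append, List.nil_append, List.cons.injEq,
      true_and] at h
    rw [h.1, enc_inj w w' h.2]

end CLP

open CLP in
theorem cl : S_CL := by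
  classical
  rintro p R ⟨⟨⟨tm, ein, eout⟩, time, hT⟩⟩
  have := tm.kFin
  have := tm.ΛFin
  have := tm.σFin
  have := tm.Γk₀Fin
  let G : Set (Σ k, tm.Γ k) := (⋃ l, pushes (tm.m l)) ∪ Set.range (Sigma.mk tm.k₀)
  have hG : G.Finite := (Set.finite_iUnion fun l => pushes_finite _).union (Set.finite_range _)
  have hfin := good_finite tm.m hG
  let q0 : Ctl tm.Γ tm.Λ tm.σ := (some (tm.m tm.main), tm.initialState)
  let vals := hfin.toFinset.toList
  have hnd : vals.Nodup := Finset.nodup_toList _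
  let d0 : Dm tm.Γ tm.Λ tm.σ := (q0, fun _ => none, fun _ => none)
  obtain ⟨tab, ht1, ht2⟩ := code vals d0
    (rel tm.m tm.k₀ tm.k₁ q0 ein.symm (eout.symm true)) 15
  let D := Finset.univ.sup fun l => depth (tm.m l)
  let y : List Bool → List Bool := fun x =>
    ((x.flatMap fun b => [true, b, false]).flatMap fun b => [true, b]) ++ [false]
  let P : List Bool → ℕ := fun x => p.eval (x.length)
  let N : List Bool → ℕ := fun x => D * time.eval ((y x).length + 3 * P x)
  have hy : PT y := by fun_prop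
  have hP : PT P := PT.poly (by fun_prop) p
  have hN : PT N := (PT.const D).mul (PT.poly (by fun_prop) time)
  let c : List Bool → List Bool → MC tm.Γ tm.Λ tm.σ := fun x w =>
    conv tm.m (initList tm ((y x ++ w.flatMap fun b => [true, b, false]).map ein.symm))
  have hc2 : ∀ x w k, k ≠ tm.k₀ → (c x w).2 k = [] := fun x w k hk => dif_neg hk
  have hc3 : ∀ x w, (c x w).2 tm.k₀ =
      (y x ++ w.flatMap fun b => [true, b, false]).map ein.symm := fun x w => dif_pos rfl
  have hrun : ∀ x (w : List Bool), w.length ≤ P x →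
      (((mstep tm.m)^[N x] (c x w)).2 tm.k₁)[0]? = some (eout.symm (R (x, w))) := by
    intro x w hw
    obtain ⟨⟨n, hn⟩, hn'⟩ := hT (x, w)
    have e : (N487b59b3.toEncoding (α := List Bool × List Bool)).encode (x, w) =
        y x ++ w.flatMap fun b => [true, b, false] := by
      show N487b59b3.delimit (N487b59b3.bitEncode x) ++ N487b59b3.bitEncode w = _
      rw [delimit_eq, bitEncode_list, bitEncode_list]
    dsimp only at hn'
    rw [e] at hn hn'
    obtain ⟨d, hd, e1⟩ := sim_run tm.m D (fun l => Finset.le_sup (f := fun l => depth (tm.m l))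
      (Finset.mem_univ l)) n _ _ hn
    have e2 := run_halt tm.m e1 rfl (N := N x) (hd.trans (Nat.mul_le_mul_left _ (hn'.trans
      (eval_mono _ (by rw [List.length_append, length_enc]; omega)))))
    have e3 : (mstep tm.m)^[N x] (c x w) = _ := e2
    rw [e3]
    exact congrArg (·[0]?) (dif_pos rfl : (haltList tm _).stk tm.k₁ = _)
  refine ⟨vals.length, fun x => (N x + 1) * ((y x).length + 3 * P x + N x + 1),
    fun x => forb tab (tcons (y x) (P x) (N x) ((y x).length + 3 * P x + N x)), by fun_prop, ?_,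
    fun x f hf => ?_, fun x => ?_⟩
  · unfold forb tcons
    fun_prop
  · simp only [forb, List.mem_flatMap, List.mem_map, List.mem_filter] at hf
    obtain ⟨e, he, t, ⟨ht, _⟩, rfl⟩ := hf
    have h1 := CLP.cell_lt _ _ _ _ le_rfl e he
    exact ⟨h1.1, (ht1 t ht).1, h1.2, (ht1 t ht).2⟩
  beta_reduce
  generalize hH : (y x).length + 3 * P x + N x = H
  have hlt := CLP.cell_lt (y x) (P x) (N x) H hH.le
  set n := (N x + 1) * (H + 1) with hn
  let cell : List Bool → ℕ → Dm tm.Γ tm.Λ tm.σ := fun w e =>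
    cellOf ((mstep tm.m)^[e / (H + 1)] (c x w)) (e % (H + 1))
  have hmem : ∀ w e, cell w e ∈ vals := fun w e => by
    obtain ⟨g1, g2⟩ := good_run tm.m G
      (fun l => (Set.subset_iUnion (fun l => pushes (tm.m l)) l).trans Set.subset_union_left)
      (c x w) (by
        rintro _ ⟨⟩
        exact ⟨⟨_, stmts₁_self⟩,
          (Set.subset_iUnion (fun l => pushes (tm.m l)) _).trans Set.subset_union_left⟩)
      (fun k z hz => by
        by_cases hk : k = tm.k₀
        · subst hk; exact Or.inr ⟨z, rfl⟩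
        · rw [hc2 x w k hk] at hz; simp at hz)
      (e / (H + 1))
    rw [Finset.mem_toList, Set.Finite.mem_toFinset]
    exact ⟨g1, fun k z hz => g2 k z (List.mem_of_mem_head? hz),
      fun k z hz => g2 k z (List.mem_of_getElem? hz)⟩
  let Φ : List Bool → List ℕ := fun w => (List.range n).map fun e => vals.idxOf (cell w e)
  have hΦ : ∀ w e, e < n → (Φ w).getD e 0 = vals.idxOf (cell w e) := fun w e he => by
    simp [Φ, List.getD_eq_getElem?_getD, he]
  have hidx : ∀ w e, vals.idxOf (cell w e) < vals.length := fun w e =>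
    List.idxOf_lt_length_iff.2 (hmem w e)
  have hval : ∀ w e, vals.getD (vals.idxOf (cell w e)) d0 = cell w e := fun w e => by
    rw [List.getD_eq_getElem _ _ (hidx w e), List.getElem_idxOf]
  refine Nat.card_eq_of_bijective (fun w => ⟨Φ w.1, by simp [Φ], ?_, ?_⟩) ⟨?_, ?_⟩
  · intro a ha
    obtain ⟨e, -, rfl⟩ := List.mem_map.1 ha
    exact hidx _ _
  · refine (ht2 _ (tcons_lt _ _ _ _) (fun e => (Φ w.1).getD e 0) fun e he => ?_).2 fun e he => ?_
    · rw [hΦ _ _ (hlt e he).1, hΦ _ _ (hlt e he).2]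
      exact ⟨hidx _ _, hidx _ _⟩
    · rw [hΦ _ _ (hlt e he).1, hΦ _ _ (hlt e he).2, hval, hval]
      exact tcons_complete tm.m tm.k₀ tm.k₁ q0 ein.symm _ _ _ _ _ hH.le (c x w.1) w.1 w.2.1 rfl
        (hc2 x w.1) (hc3 x w.1) (by rw [hrun x w.1 w.2.1, w.2.2]) e he
  · intro w w' h
    have h1 : Φ w.1 = Φ w'.1 := congrArg Subtype.val h
    have h2 : (c x w.1).2 tm.k₀ = (c x w'.1).2 tm.k₀ := by
      apply List.ext_getElem?
      intro j
      rcases Nat.lt_or_ge j (H + 1) with hj | hj
      · have hj' : j < n := lt_of_lt_of_le hj (Nat.le_mul_of_pos_left _ (by omega))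
        have h3 := hΦ w.1 j hj'
        rw [h1, hΦ w'.1 j hj'] at h3
        have h4 := hval w.1 j
        rw [← h3, hval] at h4
        have h5 := congrArg (fun z : Dm tm.Γ tm.Λ tm.σ => z.2.2 tm.k₀) h4
        simpa [cell, cellOf, Nat.div_eq_of_lt hj, Nat.mod_eq_of_lt hj] using h5.symm
      · have l1 : w.1.length ≤ P x := w.2.1
        have l2 : w'.1.length ≤ P x := w'.2.1
        rw [List.getElem?_eq_none, List.getElem?_eq_none] <;>
          rw [hc3, List.length_map, List.length_append, length_enc] <;> omega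
    rw [hc3, hc3] at h2
    exact Subtype.ext (enc_inj _ _ (List.append_cancel_left
      (List.map_injective_iff.2 ein.symm.injective h2)))
  · rintro ⟨l, hl, hd, hs⟩
    have h1 : ∀ e, e < n → l.getD e 0 < vals.length := fun e he => by
      rw [List.getD_eq_getElem _ _ (hl ▸ he)]
      exact hd _ (List.getElem_mem _)
    obtain ⟨w, hw, e1, e2⟩ := sound tm.m tm.k₀ tm.k₁ q0 ein.symm _ _ _ _ _ hH.le (c x)
      (fun _ => rfl) (hc2 x) (hc3 x) (fun e => vals.getD (l.getD e 0) d0)
      ((ht2 _ (tcons_lt _ _ _ _) (fun e => l.getD e 0)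
        fun e he => ⟨h1 _ (hlt e he).1, h1 _ (hlt e he).2⟩).1 hs)
    rw [hrun x w hw] at e1
    refine ⟨⟨w, hw, by simpa using e1⟩, Subtype.ext ?_⟩
    change Φ w = l
    apply List.ext_getElem (by simp [Φ, hl])
    intro e he he'
    have he'' : e < n := hl ▸ he'
    have h2 := e2 (e / (H + 1)) (Nat.div_lt_of_lt_mul (by rw [mul_comm]; exact he'')) (e % (H + 1))
      (Nat.mod_lt _ (by omega))
    rw [Nat.div_add_mod'] at h2
    rw [← List.getD_eq_getElem _ 0 he, hΦ w e he'', ← List.getD_eq_getElem _ 0 he']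
    have h3 : cell w e = vals[l.getD e 0]'(h1 e he'') := by
      rw [← List.getD_eq_getElem _ d0]; exact h2.symm
    rw [h3, hnd.idxOf_getElem]

end Pool.Agent.P.MP_e0c037_lc.R3
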