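import Pool.Agent.P.MP_e0c037_lc.Defs
import Pool.Prelude.Def_H_3587d628

/-! Definitions used in the statement: the class `#P` and polynomial-time Turing reductions to the
sign problem. -/

namespace Pool.Agent.P.MP_e0c037_lc.R3

/-- `f` is in `#P`: `f x` counts the witnesses of polynomial length accepted by a polynomial-time
verifier. -/
def SharpP (f : List Bool → ℕ) : Prop :=
  ∃ (p : Polynomial ℕ) (R : List Bool × List Bool → Bool), N68a2faeb.IsPolyTime R ∧
    ∀ x, f x = Nat.card {w : List Bool // w.length ≤ p.eval x.length ∧ R (x, w) = true}

/-- Code of a list. -/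
def encList {α : Type} (e : α → List Bool) (l : List α) : List Bool :=
  l.foldr (fun a w => true :: encPair (e a) w) [false]

/-- Code of the input together with the oracle answers received so far. -/
def encState (s : List Bool × List ℤ) : List Bool :=
  encPair (encList (fun b => [b]) s.1) (encList encInt s.2)

/-- The sign problem at `(q, v)`. -/
noncomputable def signZ (q v : ℝ) (G : ℕ × List (ℕ × ℕ)) : ℤ :=
  SignType.sign (dichromatic G.1 G.2 q v)

/-- The answers (latest first) to the first `i` queries on input `x`; each query is computed by
`Q` from the input and the earlier answers. -/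
def answers (Q : List Bool × List ℤ → ℕ × List (ℕ × ℕ)) (O : ℕ × List (ℕ × ℕ) → ℤ)
    (x : List Bool) : ℕ → List ℤ
  | 0 => []
  | i + 1 => O (Q (x, answers Q O x i)) :: answers Q O x i

/-- `f` reduces to the sign problem at `(q, v)` by a polynomial-time Turing reduction: polynomially
many adaptive queries, each a multigraph computed in polynomial time, then a polynomial-time
computation of `f x` from the answers. -/
def Reduces (f : List Bool → ℕ) (q v : ℝ) : Prop :=
  ∃ (r : Polynomial ℕ) (Q : List Bool × List ℤ → ℕ × List (ℕ × ℕ)) (A : List Bool × List ℤ → ℤ),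
    Nonempty (Turing.TM2ComputableInPolyTime encState encGraph Q) ∧
    Nonempty (Turing.TM2ComputableInPolyTime encState encInt A) ∧
    (∀ s, ∀ e ∈ (Q s).2, e.1 < (Q s).1 ∧ e.2 < (Q s).1) ∧
    ∀ x, A (x, answers Q (signZ q v) x (r.eval x.length)) = f x

end Pool.Agent.P.MP_e0c037_lc.R3
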