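import Pool.Agent.P.MP_e0c037_lc.R3.Master
import Pool.Agent.P.MP_e0c037_lc.R3.Defs

/-! Binary search with the sign oracle. -/

namespace Pool.Agent.P.MP_e0c037_lc.R3

open Finset Pool.Agent.Lib.helper21 Pool.Agent.Lib.helper77

theorem SL_prod (D n : ℕ) (g : ℕ → ℕ → ℝ) :
    SL D n (fun l => ∏ i ∈ range n, g i (l.getD i 0)) = ∏ i ∈ range n, ∑ c ∈ range D, g i c := by
  induction n generalizing g with
  | zero => simp [SL]
  | succ n ih =>
    simp only [SL, prod_range_succ', List.getD_cons_succ, List.getD_cons_zero,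
      mul_comm _ (g 0 _), SL_mul, ih fun i => g (i + 1)]
    rw [← sum_mul, mul_comm]

/-- Number of free bits. -/
def fr (M L σ : ℕ) : ℕ := cond (decide (σ = 0)) L (cond (decide (σ = 1)) 2 (M - 1 - (σ - 2)))

/-- Allowed values of the cells, given the value of the selector. -/
def alw (M L d σ i a : ℕ) : Bool :=
  cond (decide (i < M)) (decide (a < cond (decide (i < fr M L σ)) 2 1))
    (cond (decide (σ = 1)) (decide (a < d)) (decide (a = d)))

/-- Allowed values of the selector. -/
def ok (M : ℕ) (h : Bool) (bits : List Bool) (σ : ℕ) : Bool :=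
  decide (σ = 0) || (decide (σ = 1) && h) ||
    (decide (2 ≤ σ) && decide (σ < M + 2) && bits.getD (σ - 2) false)

/-- The constraints of a query. -/
def F2 (M L n d : ℕ) (F : List (ℕ × ℕ × ℕ × ℕ)) (h : Bool) (bits : List Bool) :
    List (ℕ × ℕ × ℕ × ℕ) :=
  ((List.range (M + d + 3)).flatMap fun σ => cond (ok M h bits σ) [] [(0, σ, 0, σ)]) ++
  (((List.range (M + d + 3)).flatMap fun σ => (List.range (M + n)).flatMap fun i =>
    (List.range (M + d + 3)).flatMap fun a => cond (alw M L d σ i a) [] [(0, σ, i + 1, a)]) ++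
  F.map fun f => (f.1 + M + 1, f.2.1, f.2.2.1 + M + 1, f.2.2.2))

variable {M L n d : ℕ} {F : List (ℕ × ℕ × ℕ × ℕ)} {h : Bool} {bits : List Bool}

theorem forall_cond {α : Type} (b : Bool) (x : α) (P : α → Prop) :
    (∀ y ∈ cond b [] [x], P y) ↔ (b = false → P x) := by
  cases b <;> simp

theorem F2_val (hF : ValF n d F) : ValF (M + n + 1) (M + d + 3) (F2 M L n d F h bits) := by
  simp only [ValF, F2, List.forall_mem_append, List.forall_mem_flatMap, List.forall_mem_map,
    forall_cond, List.mem_range]
  refine ⟨fun σ hσ _ => by omega, fun σ hσ i hi a ha _ => by omega, fun f hf => ?_⟩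
  have := hF f hf
  omega

theorem F2_sat {σ : ℕ} {l l' : List ℕ} (hσ : σ < M + d + 3) (h1 : l.length = M) (h2 : l'.length = n)
    (h3 : ∀ c ∈ l, c < M + d + 3) (h4 : ∀ c ∈ l', c < M + d + 3) :
    Sat (F2 M L n d F h bits) (σ :: (l ++ l')) ↔ ok M h bits σ = true ∧
      (∀ i < M, l.getD i 0 < if i < fr M L σ then 2 else 1) ∧
      (∀ i < n, if σ = 1 then l'.getD i 0 < d else l'.getD i 0 = d) ∧ Sat F l' := by
  have e : ∀ i, (l ++ l').getD (i + M) 0 = l'.getD i 0 := fun i => by
    rw [List.getD_append_right _ _ _ _ (by omega), h1, Nat.add_sub_cancel]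
  simp only [Sat, F2, List.forall_mem_append, List.forall_mem_flatMap, List.forall_mem_map,
    forall_cond, List.mem_range, List.getD_cons_zero, List.getD_cons_succ, e, and_self]
  refine and_congr ⟨fun H => ?_, fun H τ _ h5 h6 => by simp [← h6, H] at h5⟩ ?_
  · by_contra h5
    exact H σ hσ (by simpa using h5) rfl
  rw [← and_assoc]
  refine and_congr_left' ⟨fun H => ?_, fun H τ _ i hi a _ h5 h6 => ?_⟩
  · have H' : ∀ i < M + n, alw M L d σ i ((l ++ l').getD i 0) = true := fun i hi => by
      by_contra h5
      exact H σ hσ i hi _ (getD_lt (n := M + n) (by simp [h1, h2])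
        (List.forall_mem_append.2 ⟨h3, h4⟩) hi) (by simpa using h5) ⟨rfl, rfl⟩
    refine ⟨fun i hi => ?_, fun i hi => ?_⟩
    · have := H' i (by omega)
      rw [List.getD_append _ _ _ _ (by omega)] at this
      simpa [alw, hi, Bool.cond_decide] using this
    · have := H' (i + M) (by omega)
      rw [e] at this
      split_ifs with h5 <;> simpa [alw, h5] using this
  · obtain ⟨rfl, rfl⟩ := h6
    rcases lt_or_ge i M with h7 | h7
    · rw [List.getD_append _ _ _ _ (by omega)] at h5
      have := H.1 i h7
      simp [alw, h7, Bool.cond_decide] at h5 this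
      omega
    · obtain ⟨i, rfl⟩ := Nat.exists_eq_add_of_le' h7
      rw [e] at h5
      have := H.2 i (by omega)
      split_ifs at this with h8 <;> simp [alw, h8] at h5 this <;> omega

/-- Value of a bit string, most significant bit first. -/
def val (M : ℕ) (bits : List Bool) : ℤ :=
  ((List.range M).map fun r => cond (bits.getD r false) ((2 : ℤ) ^ (M - 1 - r)) 0).sum

theorem val_eq : (val M bits : ℝ) =
    ∑ r ∈ range M, if bits.getD r false = true then (2 : ℝ) ^ (M - 1 - r) else 0 := by
  have : val M bits = ∑ r ∈ range M, cond (bits.getD r false) ((2 : ℤ) ^ (M - 1 - r)) 0 := rfl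
  rw [this, Int.cast_sum]
  refine sum_congr rfl fun r _ => ?_
  cases bits.getD r false <;> simp

theorem val_snoc (hb : bits.length < M) (b : Bool) : (val M (bits ++ [b]) : ℝ) =
    val M bits + if b = true then (2 : ℝ) ^ (M - 1 - bits.length) else 0 := by
  have e := sum_ite_eq (range M) bits.length fun r => if b = true then (2 : ℝ) ^ (M - 1 - r) else 0
  rw [if_pos (mem_range.2 hb)] at e
  rw [val_eq, val_eq, ← e, ← sum_add_distrib]
  refine sum_congr rfl fun r _ => ?_
  rcases lt_trichotomy r bits.length with h | rfl | h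
  · rw [List.getD_append _ _ _ _ h, if_neg h.ne', add_zero]
  · simp
  · rw [List.getD_eq_default _ _ (by simp; omega), List.getD_eq_default _ _ h.le, if_neg h.ne]
    simp

/-- Number of solutions. -/
noncomputable def nsol (n d : ℕ) (F : List (ℕ × ℕ × ℕ × ℕ)) : ℕ :=
  Nat.card {l : List ℕ // l.length = n ∧ (∀ c ∈ l, c < d) ∧ Sat F l}

theorem nsol_le : (nsol n d F : ℝ) ≤ 2 ^ (d * n) := by
  classical
  rw [nsol, ← SL_card, pow_mul]
  refine (SL_mono (w' := fun _ => 1) fun l _ _ => by split_ifs <;> simp).trans ?_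
  rw [SL_const, mul_one]
  gcongr
  exact_mod_cast Nat.lt_two_pow_self.le

theorem F2_count (y : ℝ) (hF : ValF n d F) (hL : L ≤ M) (hM : 2 ≤ M) :
    Tw y (M + n + 1) (M + d + 3) (F2 M L n d F h bits) =
      y * 2 ^ L + (if h = true then 4 * nsol n d F else 0) + val M bits := by
  classical
  have key : ∀ σ ∈ range (M + d + 3), (SL (M + d + 3) (M + n) fun l =>
      if Sat (F2 M L n d F h bits) (σ :: l) then (if σ = 0 then y else 1) else 0) =
      if ok M h bits σ = true then (if σ = 0 then y else 1) * 2 ^ fr M L σ *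
        (if σ = 1 then nsol n d F else 1) else 0 := by
    intro σ hσ
    have f1 : fr M L σ ≤ M := by
      unfold fr
      by_cases h0 : σ = 0 <;> by_cases h1 : σ = 1 <;> simp [h0, h1] <;> omega
    have a1 : (SL (M + d + 3) M fun l => ∏ i ∈ range M,
        if l.getD i 0 < if i < fr M L σ then 2 else 1 then (1 : ℝ) else 0) = 2 ^ fr M L σ := by
      rw [SL_prod _ _ fun i c => if c < if i < fr M L σ then 2 else 1 then (1 : ℝ) else 0,
        prod_congr rfl (g := fun i => if i < fr M L σ then 2 else 1), prod_ite, prod_const,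
        prod_const_one, mul_one]
      · congr 1
        rw [show (range M).filter (· < fr M L σ) = range (fr M L σ) by ext; simp; omega, card_range]
      · intro i _
        rw [sum_boole]
        split_ifs
        · rw [show (range (M + d + 3)).filter (· < 2) = range 2 by ext; simp; omega]; simp
        · rw [show (range (M + d + 3)).filter (· < 1) = range 1 by ext; simp]; simp
    have a2 : (SL (M + d + 3) n fun l => if (∀ i < n, if σ = 1 then l.getD i 0 < d
        else l.getD i 0 = d) ∧ Sat F l then (1 : ℝ) else 0) = if σ = 1 then nsol n d F else 1 := by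
      split_ifs with h1
      · rw [SL_card, nsol]
        congr 1
        refine Nat.card_congr (Equiv.subtypeEquivRight fun l => and_congr_right fun e => ?_)
        rw [← and_assoc]
        refine and_congr_left' ⟨fun H c hc => ?_, fun H => ⟨fun c hc => by have := H c hc; omega,
          fun i hi => getD_lt e H hi⟩⟩
        obtain ⟨i, hi, rfl⟩ := List.getElem_of_mem hc
        simpa [hi] using H.2 i (e ▸ hi)
      · have := SL_prod (M + d + 3) n fun _ c => if c = d then (1 : ℝ) else 0
        simp only [sum_ite_eq', mem_range, show d < M + d + 3 by omega, if_true, prod_const_one,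
          prod_boole] at this
        refine Eq.trans (SL_congr fun l _ _ => if_congr (and_iff_left_of_imp fun H f hf h2 => ?_)
          rfl rfl) (this.trans Nat.cast_one.symm)
        have := H _ (hF f hf).1
        have := (hF f hf).2.1
        omega
    rw [SL_append, ← a1, ← a2]
    generalize (if σ = 0 then y else 1) = u
    by_cases h1 : ok M h bits σ = true
    · rw [if_pos h1, mul_right_comm, ← SL_mul]
      refine SL_congr fun l l1 l2 => ?_
      rw [mul_right_comm, ← SL_mul]
      refine SL_congr fun l' l3 l4 => ?_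
      simp only [F2_sat (mem_range.1 hσ) l1 l3 l2 l4, h1, prod_boole, mem_range, true_and, mul_ite,
        mul_one, mul_zero, ← ite_and, and_comm]
    · rw [if_neg h1]
      refine (SL_congr (w' := fun _ => 0) fun l l1 l2 => ?_).trans (by simp [SL_const])
      refine (SL_congr (w' := fun _ => 0) fun l' l3 l4 => ?_).trans (by simp [SL_const])
      rw [if_neg fun H => h1 ((F2_sat (mem_range.1 hσ) l1 l3 l2 l4).1 H).1]
  rw [Tw, SL]
  simp only [List.getD_cons_zero]
  rw [sum_congr rfl key, show M + d + 3 = M + (d + 1) + 1 + 1 by ring, sum_range_succ',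
    sum_range_succ', sum_range_add, val_eq, sum_eq_zero (s := range (d + 1)) fun i _ => by
      simp [ok]]
  rw [sum_congr rfl (g := fun r => if bits.getD r false = true then (2 : ℝ) ^ (M - 1 - r) else 0)
    fun r hr => by simp [ok, fr, mem_range.1 hr]]
  simp [ok, fr]
  split_ifs <;> ring

/-- Flags of the negative answers from round `o` on, in chronological order. -/
def flags (o : ℕ) (a : List ℤ) : List Bool := (a.reverse.drop o).map isNeg

theorem flags_cons {o : ℕ} {a : List ℤ} (ho : o ≤ a.length) (b : ℤ) :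
    flags o (b :: a) = flags o a ++ [isNeg b] := by
  rw [flags, List.reverse_cons, List.drop_append_of_le_length (by simpa using ho), List.map_append]
  rfl

theorem answers_length (Q O x) (i : ℕ) : (answers Q O x i).length = i := by
  induction i with
  | zero => rfl
  | succ i ih => simp [answers, ih]

theorem search {Q O x} {o M : ℕ} {T : ℝ} (h0 : 0 ≤ T) (h1 : T ≤ 2 ^ M)
    (H : ∀ a : List ℤ, o ≤ a.length → a.length < o + M →
      (1 / 2 ≤ val M (flags o a ++ [true]) - T → 0 < O (Q (x, a))) ∧
      (val M (flags o a ++ [true]) - T ≤ -1 / 2 → O (Q (x, a)) < 0)) :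
    (val M (flags o (answers Q O x (o + M))) : ℝ) < T + 1 / 2 ∧
      T - 1 / 2 < val M (flags o (answers Q O x (o + M))) + 1 := by
  have key : ∀ r ≤ M, (val M (flags o (answers Q O x (o + r))) : ℝ) < T + 1 / 2 ∧
      T - 1 / 2 < val M (flags o (answers Q O x (o + r))) + 2 ^ (M - r) := by
    intro r
    induction r with
    | zero =>
      intro _
      have : flags o (answers Q O x (o + 0)) = [] := by simp [flags, answers_length]
      rw [this, val_eq]
      simp
      constructor <;> linarith
    | succ r ih =>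
      intro hr
      obtain ⟨i1, i2⟩ := ih (by omega)
      have l1 := answers_length Q O x (o + r)
      have l2 : (flags o (answers Q O x (o + r))).length = r := by simp [flags, l1]
      obtain ⟨a1, a2⟩ := H (answers Q O x (o + r)) (by omega) (by omega)
      rw [← add_assoc, answers, flags_cons (by omega), val_snoc (by omega), l2]
      rw [val_snoc (by omega), l2, if_pos rfl] at a1 a2
      rw [show M - r = M - 1 - r + 1 by omega, pow_succ] at i2
      rw [show M - (r + 1) = M - 1 - r by omega]
      simp only [isNeg, decide_eq_true_eq]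
      split_ifs with h
      · exact ⟨by by_contra h'; exact absurd (a1 (by linarith)) h.not_gt, by linarith⟩
      · exact ⟨by linarith, by by_contra h'; exact h (a2 (by linarith))⟩
  simpa using key M le_rfl

theorem val_flags (Q O x) (M j : ℕ) :
    val M (flags 0 (answers Q O x (M + j))) = val M (flags 0 (answers Q O x M)) := by
  induction j with
  | zero => rfl
  | succ j ih =>
    rw [← add_assoc, answers, flags_cons (Nat.zero_le _), ← ih, val, val]
    congr 1
    refine List.map_congr_left fun r hr => ?_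
    rw [List.getD_append _ _ _ _ (by simp [flags, answers_length]; have := List.mem_range.1 hr; omega)]

theorem encGraph_eq : encGraph = Enc.enc := by
  funext G
  have : ∀ l : List (ℕ × ℕ), l.foldr (fun e w => true :: encPair (encPair (List.replicate e.1 true)
      (List.replicate e.2 true)) w) [false] = listW Enc.enc l := fun l => by
    induction l with
    | nil => rfl
    | cons e l ih => rw [List.foldr_cons, ih]; rfl
  rw [encGraph, this]; rfl

theorem encState_eq : encState = Enc.enc := by
  funext s
  have : ∀ {α : Type} (e : α → List Bool) (l : List α), encList e l = listW e l := fun e l => by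
    induction l with
    | nil => rfl
    | cons a l ih => rw [encList, List.foldr_cons, ← encList, ih]; rfl
  rw [encState, this, this]; rfl

theorem reduces (hcl : S_CL) {q v : ℝ} {N : ℕ} {E : List (ℕ × ℕ)} (hq : 3 ≤ q) (hv : v ≤ -q)
    (hE : ValU N E) (hneg : Zw q N (U (-1) q E) < 0) (f : List Bool → ℕ) (hf : SharpP f) :
    Reduces f q v := by
  obtain ⟨p, R, hR, hf⟩ := hf
  obtain ⟨d, n, F, pn, pF, hF, hc⟩ := hcl p R hR
  have hy : 1 + v ≤ -2 := by linarith
  have hY : 4 ≤ (1 + v) ^ 2 := by nlinarith
  obtain ⟨a0, c0, ⟨nG, G, hG⟩, ha, hc0, h1⟩ :=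
    exists_af hq hv hE hneg (ε := 1 / (1 + v) ^ 2) (by positivity)
  obtain ⟨K1, hK1⟩ := pow_unbounded_of_one_lt (a0 / c0) (by linarith : 1 < (1 + v) ^ 2)
  obtain ⟨K2, hK2⟩ := exists_nat_ge (q + |1 + v|)
  have hz : 0 < c0 / a0 := by positivity
  have g1 : c0 / a0 * (1 + v) ^ 2 ≤ 1 := by
    rw [div_mul_eq_mul_div, div_le_one ha, ← le_div_iff₀ (by positivity)]
    rwa [one_div_mul_eq_div] at h1
  have g2 : 1 ≤ ((1 + v) ^ 2) ^ (K1 + K2) * (c0 / a0) := by
    rw [← div_le_iff₀ hz, one_div_div]
    exact hK1.le.trans (pow_le_pow_right₀ (by linarith) (by omega))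
  have g3 : q ≤ (K1 + K2 : ℕ) := by push_cast; linarith [abs_nonneg (1 + v), K1.cast_nonneg (α := ℝ)]
  have g4 : |1 + v| ≤ (K1 + K2 : ℕ) := by push_cast; linarith [K1.cast_nonneg (α := ℝ)]
  rw [show c0 - a0 = a0 * (c0 / a0) - a0 by field_simp] at hG
  generalize K1 + K2 = K at *
  obtain ⟨B, hB⟩ := pn.bdNat
  have hs : ∀ x : List Bool, sz x = 4 * x.length + 1 := fun x => by
    induction x with
    | nil => rfl
    | cons b x ih => simp [ih]; omega
  let L : List Bool → ℕ := fun x => d * B.eval (4 * x.length + 1) + 2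
  let M : List Bool → ℕ := fun x => L x + K
  have pL : PT L := ((PT.const d).mul (PT.poly (by fun_prop) B)).add (PT.const 2)
  have pM : PT M := pL.add (PT.const K)
  let Q : List Bool × List ℤ → ℕ × List (ℕ × ℕ) := fun s =>
    query G nG K (M s.1 + n s.1 + 1) (M s.1 + d + 3) (F2 (M s.1) (L s.1) (n s.1) d (F s.1)
      (decide (M s.1 ≤ s.2.length))
      (flags (cond (decide (M s.1 ≤ s.2.length)) (M s.1) 0) s.2 ++ [true]))
  have hQ := fun s : List Bool × List ℤ => query_sign (n := M s.1 + n s.1 + 1) (d := M s.1 + d + 3)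
    (by omega) (by omega) (F2_val (L := L s.1) (h := decide (M s.1 ≤ s.2.length))
      (bits := flags (cond (decide (M s.1 ≤ s.2.length)) (M s.1) 0) s.2 ++ [true]) (hF s.1))
    hq hy hz g1 g2 ha hG g3 g4
  let A0 : List Bool × List ℤ → ℤ := fun s =>
    val (M s.1) (flags 0 s.2) - val (M s.1) (flags (M s.1) s.2) + 2
  have pA : PT A0 := by unfold A0 val flags; fun_prop
  refine ⟨Polynomial.C 2 * (Polynomial.C d * B.comp (4 * Polynomial.X + 1) + 2 + Polynomial.C K), Q,
    fun s => (((A0 s).natAbs / 4 : ℕ) : ℤ), ?_, ?_, fun s => (hQ s).1, fun x => ?_⟩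
  · rw [encState_eq, encGraph_eq]
    refine PT.toTM2 ?_
    have p1 : PT fun s : List Bool × List ℤ => F2 (M s.1) (L s.1) (n s.1) d (F s.1)
        (decide (M s.1 ≤ s.2.length))
        (flags (cond (decide (M s.1 ≤ s.2.length)) (M s.1) 0) s.2 ++ [true]) := by
      unfold F2 ok alw fr flags; fun_prop
    have p2 : PT fun s : ℕ × ℕ × List (ℕ × ℕ × ℕ × ℕ) => confl s.1 s.2.1 s.2.2 := by
      unfold confl; fun_prop
    have p3 : PT fun s : ℕ × ℕ × List (ℕ × ℕ × ℕ × ℕ) => qA K s.1 s.2.1 s.2.2 := by
      unfold qA eA rep tri Sq Pq Rq gq; fun_prop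
    have p4 : PT fun s : ℕ × ℕ × List (ℕ × ℕ × ℕ × ℕ) => query G nG K s.1 s.2.1 s.2.2 := by
      unfold query build glue rl eB rep star Pq Rq gq; fun_prop
    exact p4.comp (g := fun s : List Bool × List ℤ => (M s.1 + n s.1 + 1, M s.1 + d + 3, _))
      (PT.pair (by fun_prop) (PT.pair (by fun_prop) p1))
  · rw [encState_eq]
    exact (PT.divMod (f := fun s => (A0 s).natAbs) (g := fun _ => 4) pA.absB.toZ (PT.const _)
      fun _ => by omega).fst.toTM2
  have e : Polynomial.eval x.length (Polynomial.C 2 * (Polynomial.C d *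
      B.comp (4 * Polynomial.X + 1) + 2 + Polynomial.C K)) = M x + M x := by
    simp [M, L, Polynomial.eval_comp]; ring
  have hn : (nsol (n x) d (F x) : ℝ) * 4 ≤ 2 ^ L x := by
    have := hB x
    rw [hs] at this
    rw [pow_add]
    refine mul_le_mul (nsol_le.trans (pow_le_pow_right₀ one_le_two (Nat.mul_le_mul_left d this)))
      (by norm_num) (by norm_num) (by positivity)
  have hM : -(1 + v) * 2 ^ L x ≤ 2 ^ M x := by
    rw [show M x = L x + K from rfl, pow_add _ (L x), mul_comm]
    refine mul_le_mul_of_nonneg_left ((neg_le_abs _).trans (g4.trans ?_)) (by positivity)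
    exact_mod_cast Nat.lt_two_pow_self.le
  have hp : (0 : ℝ) < 2 ^ L x := by positivity
  have hn0 : (0 : ℝ) ≤ nsol (n x) d (F x) := Nat.cast_nonneg _
  have sg : ∀ G, (0 < dichromatic G.1 G.2 q v → 0 < signZ q v G) ∧
      (dichromatic G.1 G.2 q v < 0 → signZ q v G < 0) := fun G =>
    ⟨fun h => by simp [signZ, sign_pos h], fun h => by simp [signZ, sign_neg h]⟩
  have s0 := search (Q := Q) (O := signZ q v) (x := x) (o := 0) (M := M x)
    (T := -(1 + v) * 2 ^ L x) (by nlinarith) hM fun a _ h => by
      obtain ⟨-, b1, b2⟩ := hQ (x, a)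
      rw [F2_count _ (hF x) (Nat.le_add_right _ _) (by simp only [L]; omega)] at b1 b2
      simp only [show ¬ M x ≤ a.length by omega, decide_false, cond_false] at b1 b2
      exact ⟨fun h => (sg _).1 (by simpa [Q, show ¬ M x ≤ a.length by omega] using b1 (by simp; linarith)),
        fun h => (sg _).2 (by simpa [Q, show ¬ M x ≤ a.length by omega] using b2 (by simp; linarith))⟩
  have s1 := search (Q := Q) (O := signZ q v) (x := x) (o := M x) (M := M x)
    (T := -(1 + v) * 2 ^ L x - 4 * nsol (n x) d (F x)) (by nlinarith) (by linarith) fun a h _ => by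
      obtain ⟨-, b1, b2⟩ := hQ (x, a)
      rw [F2_count _ (hF x) (Nat.le_add_right _ _) (by simp only [L]; omega)] at b1 b2
      simp only [h, decide_true, cond_true] at b1 b2
      exact ⟨fun h' => (sg _).1 (by simpa [Q, h] using b1 (by simp; linarith)),
        fun h' => (sg _).2 (by simpa [Q, h] using b2 (by simp; linarith))⟩
  rw [zero_add, ← val_flags Q (signZ q v) x (M x) (M x)] at s0
  rw [e, hf, hc, ← nsol]
  simp only [A0]
  generalize val (M x) (flags 0 (answers Q (signZ q v) x (M x + M x))) = u at *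
  generalize val (M x) (flags (M x) (answers Q (signZ q v) x (M x + M x))) = u' at *
  have t1 : (u : ℝ) - u' < 4 * nsol (n x) d (F x) + 2 := by linarith [s0.1, s1.2]
  have t2 : 4 * (nsol (n x) d (F x) : ℝ) - 2 < u - u' := by linarith [s0.2, s1.1]
  have t3 : u - u' < 4 * nsol (n x) d (F x) + 2 := by exact_mod_cast t1
  have t4 : 4 * (nsol (n x) d (F x) : ℤ) - 2 < u - u' := by exact_mod_cast t2
  omega

end Pool.Agent.P.MP_e0c037_lc.R3
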