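import Pool.Agent.P.MP_e0c037_lc.R3.Int

/-! The radial integral does not vanish identically. -/

namespace Pool.Agent.P.MP_e0c037_lc.R3

open Complex MeasureTheory Set Filter Topology
open scoped Nat Real

theorem Ai_real {p c : ℝ} (hp : 0 < p) (hc : 0 < c) (x : ℝ) :
    ‖Ai p 0 x‖ ≤ Real.exp (p * c ^ 3 / 3 - c * x) * √(π / (p * c)) := by
  rw [(airy p hp).1 0 c _ hc, ← integral_gaussian, ← integral_const_mul]
  refine (norm_integral_le_integral_norm _).trans_eq (integral_congr_ae (ae_of_all _ fun y => ?_))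
  simp only [aG, pow_zero, one_mul, Complex.norm_exp, ← Real.exp_add]
  congr 1
  simp [pow_succ]
  ring

/-- The rescaled Airy integrand. -/
noncomputable def pG (q u r w : ℝ) : ℂ :=
  cexp (-(u ^ 2 + q * w ^ 2 : ℝ) - I * ((q * w ^ 3 / 3 + w * u ^ 2) * r ^ 3 : ℝ))

theorem norm_pG (q u r w : ℝ) : ‖pG q u r w‖ = Real.exp (-u ^ 2) * Real.exp (-q * w ^ 2) := by
  rw [pG, Complex.norm_exp, ← Real.exp_add, sub_re, neg_re, ofReal_re, I_mul_re, ofReal_im]
  congr 1
  ring

theorem cont_pG {q : ℝ} (hq : 0 < q) (u : ℝ) : Continuous fun r => ∫ w, pG q u r w :=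
  continuous_of_dominated (fun r => Continuous.aestronglyMeasurable (by unfold pG; fun_prop))
    (fun r => ae_of_all _ fun w => (norm_pG q u r w).le)
    ((integrable_exp_neg_mul_sq hq).const_mul _) (ae_of_all _ fun w => by unfold pG; fun_prop)

theorem pG_eq {q r c : ℝ} (hq : 0 < q) (hr : 0 < r) (hc : c * r ^ 2 = 1) (u : ℝ) :
    Ai q 0 (q * c ^ 2 + (r * u) ^ 2 : ℝ) =
      (r * Real.exp (-(2 / 3 * q * c ^ 3)) : ℝ) * ∫ w, pG q u r w := by
  have h0 : 0 < c := by
    by_contra h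
    nlinarith [sq_nonneg r]
  have h1 := Measure.integral_comp_mul_left (aG q 0 c (q * c ^ 2 + (r * u) ^ 2 : ℝ)) r
  have h2 : (c : ℂ) * r ^ 2 = 1 := by exact_mod_cast hc
  rw [← (airy q hq).1 0 c _ h0, abs_of_pos (inv_pos.2 hr), eq_comm,
    inv_smul_eq_iff₀ hr.ne'] at h1
  rw [h1, ofReal_mul, mul_assoc, ← integral_const_mul, real_smul]
  congr 2
  funext w
  rw [aG, pG, pow_zero, one_mul, ofReal_exp, ← Complex.exp_add]
  congr 1
  push_cast
  linear_combination (q * w ^ 2 * c * r ^ 2 + q * r ^ 3 * w ^ 3 * I / 3) * I_sq -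
    (q * w ^ 2 + u ^ 2) * h2

theorem pG_le {t τ r u : ℝ} (ht : 0 < t) (hτ : 0 ≤ τ) (h2 : τ * t < 2) (hr : 0 < r) (hu : 0 < u) :
    Real.exp (τ * ((r * u) ^ 3 / 3)) * ‖∫ w, pG (t ^ 2) u r w‖ ≤
      √(π / t ^ 2) * Real.exp (-((2 - τ * t) / 3) * u ^ 2) := by
  have hq : 0 < t ^ 2 := by positivity
  rcases le_total (r ^ 3 * u) t with h | h
  · refine (mul_le_mul_of_nonneg_left (norm_integral_le_integral_norm _) (by positivity)).trans ?_
    simp only [norm_pG]
    rw [integral_const_mul, integral_gaussian, ← mul_assoc, ← Real.exp_add, mul_comm]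
    refine mul_le_mul_of_nonneg_left (Real.exp_le_exp.2 ?_) (by positivity)
    nlinarith [mul_le_mul_of_nonneg_left h (by positivity : 0 ≤ τ * u ^ 2), sq_nonneg u]
  · obtain ⟨c, h0, hc⟩ : ∃ c, 0 < c ∧ c * r ^ 2 = 1 := ⟨1 / r ^ 2, by positivity, by field_simp⟩
    obtain ⟨d, hd, e⟩ : ∃ d, 0 < d ∧ r * u = t * d := ⟨r * u / t, by positivity, by field_simp⟩
    have h3 : c ≤ d := by
      have : t * c ≤ t * d := by
        calc _ ≤ r ^ 3 * u * c := by gcongr
          _ = c * r ^ 2 * (r * u) := by ring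
          _ = _ := by rw [hc, e, one_mul]
      exact le_of_mul_le_mul_left this ht
    have h4 := Ai_real hq hd (t ^ 2 * c ^ 2 + (r * u) ^ 2)
    rw [pG_eq hq hr hc, norm_mul, Complex.norm_real, Real.norm_of_nonneg (by positivity)] at h4
    have h5 : √(π / (t ^ 2 * d)) ≤ r * √(π / t ^ 2) := by
      rw [← Real.sqrt_sq hr.le, ← Real.sqrt_mul (by positivity)]
      refine Real.sqrt_le_sqrt ?_
      rw [← div_div, div_le_iff₀ hd, mul_right_comm]
      exact le_mul_of_one_le_left (by positivity) (by nlinarith [sq_nonneg r])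
    refine le_of_mul_le_mul_left ?_ (by positivity : 0 < r * Real.exp (-(2 / 3 * t ^ 2 * c ^ 3)))
    rw [mul_left_comm]
    refine (mul_le_mul_of_nonneg_left (h4.trans (mul_le_mul_of_nonneg_left h5 (by positivity)))
      (by positivity)).trans ?_
    rw [← mul_assoc, ← Real.exp_add, mul_mul_mul_comm, ← Real.exp_add, mul_comm]
    refine mul_le_mul_of_nonneg_left (Real.exp_le_exp.2 ?_) (by positivity)
    have h6 : u ^ 2 ≤ t ^ 2 * d ^ 3 := by
      have : t * u ^ 2 ≤ t * (t ^ 2 * d ^ 3) := by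
        calc _ ≤ r ^ 3 * u * u ^ 2 := by gcongr
          _ = (r * u) ^ 3 := by ring
          _ = _ := by rw [e]; ring
      exact le_of_mul_le_mul_left this ht
    rw [e]
    nlinarith [mul_le_mul_of_nonneg_left h6 (by linarith : 0 ≤ 2 - τ * t),
      mul_le_mul_of_nonneg_left h3 (by positivity : 0 ≤ t ^ 2 * c ^ 2), pow_pos h0 3]

theorem FI_ne {t C y τ s : ℝ} {e : ℕ → ℕ → ℂ} (ht : 0 < t) (h : Bdd e C y τ) (hy : 0 ≤ y)
    (hτ : 0 ≤ τ) (h2 : τ * t < 2) (hs : -1 < s) (h0 : e 0 0 ≠ 0) :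
    ∃ x, FI (t ^ 2) e 0 s x 0 ≠ 0 := by
  have hq : 0 < t ^ 2 := by positivity
  have hC := h.nonneg
  by_contra! H
  have hS : Continuous fun ρ : ℝ => Sr e (0 * ρ) (ρ ^ 3 / 3) :=
    continuous_iff_continuousAt.2 fun ρ => (h.radial hy hτ 0 ρ).continuousAt
  let G : ℝ → ℝ → ℂ := fun r u => ((u ^ s : ℝ) : ℂ) * Sr e (0 * (r * u : ℝ)) ((r * u : ℝ) ^ 3 / 3) *
    ∫ w, pG (t ^ 2) u r w
  have e1 : ∀ r, 0 < r → ∃ k : ℂ, ∀ u ∈ Ioi (0 : ℝ),
      G r u = k * fI (t ^ 2) e 0 s (t ^ 2 * (1 / r ^ 2) ^ 2 : ℝ) 0 (r * u) := by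
    intro r hr
    refine ⟨((r ^ s * (r * Real.exp (-(2 / 3 * t ^ 2 * (1 / r ^ 2) ^ 3))))⁻¹ : ℝ), fun u hu => ?_⟩
    rw [fI, ← ofReal_pow, ← ofReal_pow, ← ofReal_add, pG_eq hq hr (by field_simp),
      Real.mul_rpow hr.le (le_of_lt hu), ofReal_inv, eq_inv_mul_iff_mul_eq₀
        (ofReal_ne_zero.2 (by positivity))]
    simp only [G]
    push_cast
    ring
  have key := tendsto_integral_filter_of_dominated_convergence (μ := volume.restrict (Ioi 0))
    (l := 𝓝[>] (0 : ℝ)) (F := G) (f := G 0)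
    (fun u => C * √(π / t ^ 2) * (u ^ s * Real.exp (-((2 - τ * t) / 3) * u ^ 2))) ?_ ?_
    ((integrableOn_rpow_mul_exp_neg_mul_sq (by linarith) hs).const_mul _) ?_
  · have e2 : ∀ᶠ r in 𝓝[>] (0 : ℝ), ∫ u in Ioi 0, G r u = 0 := by
      filter_upwards [self_mem_nhdsWithin] with r hr
      obtain ⟨k, hk⟩ := e1 r hr
      rw [setIntegral_congr_fun measurableSet_Ioi hk, integral_const_mul,
        integral_comp_mul_left_Ioi _ _ hr, mul_zero]
      exact mul_eq_zero_of_right _ (smul_eq_zero_of_right _ (H _))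
    have e3 := tendsto_nhds_unique key (tendsto_const_nhds.congr' (EventuallyEq.symm e2))
    have e4 : ∀ u, G 0 u = e 0 0 * √(π / t ^ 2) * (u ^ s * Real.exp (-u ^ (2 : ℝ)) : ℝ) := by
      intro u
      have : ∀ w, pG (t ^ 2) u 0 w = (Real.exp (-u ^ 2) * Real.exp (-t ^ 2 * w ^ 2) : ℝ) := by
        intro w
        rw [pG, ← Real.exp_add, ofReal_exp]
        congr 1
        push_cast
        ring
      simp only [G, this, integral_complex_ofReal, integral_const_mul, integral_gaussian,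
        Real.rpow_two]
      simp [Sr_zero]
      ring
    simp only [e4, integral_const_mul, integral_complex_ofReal,
      integral_rpow_mul_exp_neg_rpow two_pos hs] at e3
    have := Real.Gamma_pos_of_pos (by linarith : 0 < (s + 1) / 2)
    exact mul_ne_zero (mul_ne_zero h0 (ofReal_ne_zero.2 (by positivity)))
      (ofReal_ne_zero.2 (by positivity)) e3
  · filter_upwards [self_mem_nhdsWithin] with r hr
    obtain ⟨k, hk⟩ := e1 r hr
    refine AEStronglyMeasurable.congr ?_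
      ((ae_restrict_iff' measurableSet_Ioi).2 (ae_of_all _ fun u hu => (hk u hu).symm))
    have := (integrableOn_Ioi_comp_mul_left_iff
      (fI (t ^ 2) e 0 s (t ^ 2 * (1 / r ^ 2) ^ 2 : ℝ) 0) 0 hr).2
      (by rw [mul_zero]; exact int_fI ht h hy hτ h2 hs)
    exact (Integrable.const_mul this _).aestronglyMeasurable
  · filter_upwards [self_mem_nhdsWithin] with r (hr : 0 < r)
    refine (ae_restrict_iff' measurableSet_Ioi).2 (ae_of_all _ fun u (hu : 0 < u) => ?_)
    have h1 := h.norm_le hy hτ (0 * (r * u : ℝ)) ((r * u : ℝ) ^ 3 / 3)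
    rw [zero_mul, norm_zero, mul_zero, zero_add, norm_div, norm_pow, Complex.norm_real,
      Real.norm_of_nonneg (by positivity), Complex.norm_ofNat] at h1
    simp only [G, norm_mul, Complex.norm_real, zero_mul]
    rw [Real.norm_of_nonneg (by positivity)]
    calc _ ≤ u ^ s * (C * Real.exp (τ * ((r * u) ^ 3 / 3))) * ‖∫ w, pG (t ^ 2) u r w‖ := by gcongr
      _ = u ^ s * C * (Real.exp (τ * ((r * u) ^ 3 / 3)) * ‖∫ w, pG (t ^ 2) u r w‖) := by ring
      _ ≤ u ^ s * C * (√(π / t ^ 2) * Real.exp (-((2 - τ * t) / 3) * u ^ 2)) :=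
        mul_le_mul_of_nonneg_left (pG_le ht hτ h2 hr hu) (by positivity)
      _ = _ := by ring
  · refine ae_of_all _ fun u => tendsto_nhdsWithin_of_tendsto_nhds (Continuous.tendsto ?_ 0)
    exact (continuous_const.mul (hS.comp (continuous_id.mul continuous_const))).mul (cont_pG hq u)

end Pool.Agent.P.MP_e0c037_lc.R3
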