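import Pool.Agent.P.MP_e0c037_lc.R3.Stm

/-! A supersolution bound for the two dimensional recursion. -/

namespace Pool.Agent.P.MP_e0c037_lc.R3

open Finset Filter Topology

namespace SupP

lemma sum_ext (F : ℕ → ℝ) (N R : ℕ) (h : ∀ n, N ≤ n → F n = 0) (hR : N ≤ R) :
    ∑ n ∈ range R, F n = ∑ n ∈ range N, F n := by
  symm
  apply Finset.sum_subset (Finset.range_mono hR)
  intro x _ hx
  apply h
  simpa using hx

/-- The diagonal slices with first index at least `j`. -/
noncomputable def G (g : ℕ → ℕ → ℝ) (j D n : ℕ) : ℝ :=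
  if 3 * n + j ≤ D then g (D - 3 * n) n else 0

lemma G_nonneg {g : ℕ → ℕ → ℝ} (hg : ∀ k n, 0 ≤ g k n) (j D n : ℕ) : 0 ≤ G g j D n := by
  unfold G; split_ifs
  · exact hg _ _
  · exact le_rfl

lemma G_zero (g : ℕ → ℕ → ℝ) {j D n : ℕ} (h : D < 3 * n + j) : G g j D n = 0 := by
  unfold G; rw [if_neg (by omega)]

lemma G_eq (g : ℕ → ℕ → ℝ) {j D n k : ℕ} (h : D = k + 3 * n) (hk : j ≤ k) :
    G g j D n = g k n := by
  unfold G; rw [if_pos (by omega)]; congr 1; omega

lemma bounded_of (a : ℕ → ℝ) (be K0 : ℝ) (D1 : ℕ) (hbe0 : 0 ≤ be) (hbe : be < 1)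
    (h : ∀ D, D1 ≤ D → a (D + 2) ≤ K0 + be * a D) : ∃ M, ∀ D, a D ≤ M := by
  obtain ⟨M0, hM0⟩ : ∃ M0, ∀ D, D < D1 + 2 → a D ≤ M0 := by
    obtain ⟨M0, hM0⟩ := ((Set.finite_lt_nat (D1 + 2)).image a).bddAbove
    exact ⟨M0, fun D hD => hM0 ⟨D, hD, rfl⟩⟩
  refine ⟨max M0 (K0 / (1 - be)), fun D => ?_⟩
  induction D using Nat.strong_induction_on with
  | _ D ih =>
    by_cases hD : D < D1 + 2
    · exact (hM0 D hD).trans (le_max_left _ _)
    · obtain ⟨E, rfl⟩ : ∃ E, D = E + 2 := ⟨D - 2, by omega⟩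
      have h1 := h E (by omega)
      have h2 := ih E (by omega)
      have h3 : K0 / (1 - be) ≤ max M0 (K0 / (1 - be)) := le_max_right _ _
      rw [div_le_iff₀ (by linarith)] at h3
      nlinarith [mul_le_mul_of_nonneg_left h2 hbe0]

lemma core (q al be ga : ℝ) (g : ℕ → ℕ → ℝ) (hq : 3 ≤ q) (hg : ∀ k n, 0 ≤ g k n)
    (hbe0 : 0 ≤ be) (hbe : be < 1) (hal : al < 1 + be) (hga : ga < 1) (N0 : ℕ)
    (h5 : ∀ k n : ℕ, ((k : ℝ) + 5 + 3 * n + q - 3) * g (k + 5) n =
      3 * n * al * g (k + 6) (n - 1) - 3 * n * be * g (k + 4) (n - 1) +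
        (k + 4) * ga * g (k + 3) n)
    (h4 : ∀ n : ℕ, N0 ≤ n → (4 + 3 * n + q - 3) * g 4 n ≤ 3 * n * al * g 5 (n - 1))
    (h3 : ∀ n : ℕ, (3 + 3 * n + q - 3) * g 3 n ≤ 3 * n * al * g 4 (n - 1)) :
    ∃ M, ∀ k n, g (k + 3) n ≤ M := by
  set a : ℕ → ℝ := fun D => ∑ n ∈ range D, ((D : ℝ) + q - 3) * G g 3 D n with ha
  set b : ℕ → ℝ := fun D => ∑ n ∈ range D, 3 * ((n : ℝ) + 1) * be * G g 4 D n with hb
  set c : ℕ → ℝ := fun D => ∑ n ∈ range D,
    (3 * ((n : ℝ) + 1) * al * G g 4 D n + ((D : ℝ) - 3 * n + 1) * ga * G g 3 D n) with hc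
  obtain ⟨D0, hD0⟩ : ∃ D0 : ℕ, 4 / min (1 + be - al) (1 - ga) ≤ D0 := exists_nat_ge _
  have hdel : 0 < min (1 + be - al) (1 - ga) := lt_min (by linarith) (by linarith)
  rw [div_le_iff₀ hdel] at hD0
  have pt : ∀ D n : ℕ, 3 * N0 ≤ D →
      (((D + 4 : ℕ) : ℝ) + q - 3) * G g 3 (D + 4) n ≤
        3 * n * al * G g 4 (D + 2) (n - 1) - 3 * n * be * G g 4 D (n - 1) +
          (((D + 2 : ℕ) : ℝ) - 3 * n + 1) * ga * G g 3 (D + 2) n := by
    intro D n hD
    rcases Nat.eq_zero_or_pos n with rfl | hn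
    · by_cases h0 : D = 0
      · subst h0
        have hN : N0 = 0 := by omega
        have := h4 0 (by omega)
        rw [G_eq g (k := 4) (by omega) (by omega), G_zero g (D := 0 + 2) (j := 3) (by omega)]
        push_cast at this ⊢
        linarith
      · obtain ⟨k, rfl⟩ : ∃ k, D = k + 1 := ⟨D - 1, by omega⟩
        have := h5 k 0
        rw [G_eq g (k := k + 5) (by omega) (by omega),
          G_eq g (j := 3) (D := k + 1 + 2) (k := k + 3) (by omega) (by omega)]
        push_cast at this ⊢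
        linarith
    · obtain ⟨m, rfl⟩ : ∃ m, n = m + 1 := ⟨n - 1, by omega⟩
      simp only [Nat.add_sub_cancel]
      rcases lt_trichotomy (D + 4) (3 * (m + 1) + 3) with hlt | heq | hgt
      · rw [G_zero g hlt, G_zero g (D := D + 2) (j := 4) (by omega),
          G_zero g (D := D) (j := 4) (by omega), G_zero g (D := D + 2) (j := 3) (by omega)]
        simp
      · have := h3 (m + 1)
        simp only [Nat.add_sub_cancel] at this
        rw [G_eq g (k := 3) (by omega) (by omega),
          G_eq g (D := D + 2) (j := 4) (k := 4) (by omega) (by omega),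
          G_zero g (D := D) (j := 4) (by omega), G_zero g (D := D + 2) (j := 3) (by omega)]
        have e : (D : ℝ) = 3 * m + 2 := by exact_mod_cast (show D = 3 * m + 2 by omega)
        push_cast at this ⊢
        rw [e]
        linarith
      · by_cases h7 : D + 4 = 3 * (m + 1) + 4
        · have := h4 (m + 1) (by omega)
          simp only [Nat.add_sub_cancel] at this
          rw [G_eq g (k := 4) (by omega) (by omega),
            G_eq g (D := D + 2) (j := 4) (k := 5) (by omega) (by omega),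
            G_zero g (D := D) (j := 4) (by omega), G_zero g (D := D + 2) (j := 3) (by omega)]
          have e : (D : ℝ) = 3 * m + 3 := by exact_mod_cast (show D = 3 * m + 3 by omega)
          push_cast at this ⊢
          rw [e]
          linarith
        · obtain ⟨k, rfl⟩ : ∃ k, D = k + 4 + 3 * m := ⟨D - 4 - 3 * m, by omega⟩
          have := h5 k (m + 1)
          simp only [Nat.add_sub_cancel] at this
          rw [G_eq g (k := k + 5) (by omega) (by omega),
            G_eq g (D := k + 4 + 3 * m + 2) (j := 4) (k := k + 6) (by omega) (by omega),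
            G_eq g (D := k + 4 + 3 * m) (j := 4) (k := k + 4) (by omega) (by omega),
            G_eq g (D := k + 4 + 3 * m + 2) (j := 3) (k := k + 3) (by omega) (by omega)]
          push_cast at this ⊢
          linarith
  have step1 : ∀ D, 3 * N0 ≤ D → a (D + 4) ≤ c (D + 2) - b D := by
    intro D hD
    have e1 : ∑ n ∈ range (D + 4), 3 * (n : ℝ) * al * G g 4 (D + 2) (n - 1) =
        ∑ n ∈ range (D + 2), 3 * ((n : ℝ) + 1) * al * G g 4 (D + 2) n := by
      rw [Finset.sum_range_succ' _ (D + 3)]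
      simp only [Nat.add_sub_cancel, Nat.cast_add, Nat.cast_one, Nat.cast_zero, mul_zero,
        zero_mul, add_zero]
      exact sum_ext _ _ _ (fun n hn => by rw [G_zero g (by omega), mul_zero]) (by omega)
    have e2 : ∑ n ∈ range (D + 4), 3 * (n : ℝ) * be * G g 4 D (n - 1) = b D := by
      rw [Finset.sum_range_succ' _ (D + 3)]
      simp only [Nat.add_sub_cancel, Nat.cast_add, Nat.cast_one, Nat.cast_zero, mul_zero,
        zero_mul, add_zero]
      exact sum_ext _ _ _ (fun n hn => by rw [G_zero g (by omega), mul_zero]) (by omega)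
    have e3 : ∑ n ∈ range (D + 4), (((D + 2 : ℕ) : ℝ) - 3 * n + 1) * ga * G g 3 (D + 2) n =
        ∑ n ∈ range (D + 2), (((D + 2 : ℕ) : ℝ) - 3 * n + 1) * ga * G g 3 (D + 2) n :=
      sum_ext _ _ _ (fun n hn => by rw [G_zero g (by omega), mul_zero]) (by omega)
    have := Finset.sum_le_sum (s := range (D + 4)) (fun n _ => pt D n hD)
    rw [Finset.sum_add_distrib, Finset.sum_sub_distrib, e1, e2, e3] at this
    simp only [ha, hc, Finset.sum_add_distrib]
    linarith
  have step2 : ∀ D, D0 + 4 ≤ D → c D ≤ a D + b D := by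
    intro D hD
    simp only [ha, hb, hc, ← Finset.sum_add_distrib]
    apply Finset.sum_le_sum
    intro n _
    have hDr : (D0 : ℝ) + 4 ≤ D := by exact_mod_cast hD
    have hD0r : (0 : ℝ) ≤ D0 := Nat.cast_nonneg _
    rcases lt_trichotomy D (3 * n + 3) with hlt | heq | hgt
    · rw [G_zero g hlt, G_zero g (j := 4) (by omega)]; simp
    · rw [G_zero g (j := 4) (by omega)]
      have e : (D : ℝ) = 3 * n + 3 := by exact_mod_cast heq
      have h0 := G_nonneg hg 3 D n
      have : ((D : ℝ) - 3 * n + 1) * ga ≤ D + q - 3 := by rw [e] at hDr ⊢; nlinarith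
      nlinarith [mul_le_mul_of_nonneg_right this h0]
    · obtain ⟨k, rfl⟩ : ∃ k, D = k + 4 + 3 * n := ⟨D - 4 - 3 * n, by omega⟩
      rw [G_eq g (j := 4) (k := k + 4) (by omega) (by omega),
        G_eq g (j := 3) (k := k + 4) (by omega) (by omega)]
      have h0 := hg (k + 4) n
      have m1 : min (1 + be - al) (1 - ga) ≤ 1 + be - al := min_le_left _ _
      have m2 : min (1 + be - al) (1 - ga) ≤ 1 - ga := min_le_right _ _
      set d := min (1 + be - al) (1 - ga)
      have hn : (0 : ℝ) ≤ n := Nat.cast_nonneg _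
      have hk : (0 : ℝ) ≤ k := Nat.cast_nonneg _
      push_cast at hDr ⊢
      have i1 : 3 * ((n : ℝ) + 1) * d ≤ 3 * (n + 1) * (1 + be - al) :=
        mul_le_mul_of_nonneg_left m1 (by positivity)
      have i2 : ((k : ℝ) + 5) * d ≤ (k + 5) * (1 - ga) :=
        mul_le_mul_of_nonneg_left m2 (by positivity)
      have i3 : (D0 : ℝ) * d ≤ (3 * (n + 1) + (k + 5)) * d :=
        mul_le_mul_of_nonneg_right (by linarith) hdel.le
      have : 3 * ((n : ℝ) + 1) * al + (k + 4 + 3 * n - 3 * n + 1) * ga ≤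
          (k + 4 + 3 * n + q - 3) + 3 * (n + 1) * be := by nlinarith
      nlinarith [mul_le_mul_of_nonneg_right this h0]
  have step3 : ∀ D, b D ≤ be * a D := by
    intro D
    simp only [ha, hb, Finset.mul_sum]
    apply Finset.sum_le_sum
    intro n _
    by_cases hlt : D < 3 * n + 4
    · rw [G_zero g hlt, mul_zero]
      by_cases h3' : D < 3 * n + 3
      · rw [G_zero g h3']; simp
      · have : (0 : ℝ) ≤ D := Nat.cast_nonneg _
        exact mul_nonneg hbe0 (mul_nonneg (by linarith) (G_nonneg hg _ _ _))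
    · obtain ⟨k, rfl⟩ : ∃ k, D = k + 4 + 3 * n := ⟨D - 4 - 3 * n, by omega⟩
      rw [G_eq g (j := 4) (k := k + 4) (by omega) (by omega),
        G_eq g (j := 3) (k := k + 4) (by omega) (by omega)]
      have h0 := mul_nonneg hbe0 (hg (k + 4) n)
      have hk : (0 : ℝ) ≤ k := Nat.cast_nonneg _
      push_cast
      have : 3 * ((n : ℝ) + 1) ≤ k + 4 + 3 * n + q - 3 := by linarith
      nlinarith [mul_le_mul_of_nonneg_right this h0]
  set D1 := 3 * N0 + D0 + 4 with hD1
  have mono : ∀ D, D1 ≤ D → a (D + 2) - b D ≤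
      max (a (D1 + 2) - b D1) (a (D1 + 1 + 2) - b (D1 + 1)) := by
    intro D
    induction D using Nat.strong_induction_on with
    | _ D ih =>
      intro hD
      by_cases e0 : D = D1
      · rw [e0]; exact le_max_left _ _
      by_cases e1 : D = D1 + 1
      · rw [e1]; exact le_max_right _ _
      obtain ⟨E, rfl⟩ : ∃ E, D = E + 2 := ⟨D - 2, by omega⟩
      have i1 := ih E (by omega) (by omega)
      have i2 := step1 E (by omega)
      have i3 := step2 (E + 2) (by omega)
      have : a (E + 2 + 2) = a (E + 4) := rfl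
      linarith
  obtain ⟨M, hM⟩ := bounded_of a be _ D1 hbe0 hbe (fun D hD => by
    have := mono D hD
    have := step3 D
    show a (D + 2) ≤ max (a (D1 + 2) - b D1) (a (D1 + 1 + 2) - b (D1 + 1)) + be * a D
    linarith)
  refine ⟨M, fun k n => ?_⟩
  refine le_trans ?_ (hM (k + 3 + 3 * n))
  have hpos : (1 : ℝ) ≤ ((k + 3 + 3 * n : ℕ) : ℝ) + q - 3 := by
    have hk : (0 : ℝ) ≤ k := Nat.cast_nonneg _
    have hn : (0 : ℝ) ≤ n := Nat.cast_nonneg _
    push_cast; linarith
  have s := Finset.single_le_sum (s := range (k + 3 + 3 * n))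
    (f := fun m => (((k + 3 + 3 * n : ℕ) : ℝ) + q - 3) * G g 3 (k + 3 + 3 * n) m)
    (fun m _ => mul_nonneg (by linarith) (G_nonneg hg _ _ _)) (a := n)
    (by simp only [Finset.mem_range]; omega)
  simp only [G_eq g (j := 3) (D := k + 3 + 3 * n) (n := n) (k := k + 3) rfl (by omega)] at s
  have h0 := hg (k + 3) n
  simp only [ha]
  nlinarith [mul_le_mul_of_nonneg_right hpos h0]

lemma params (q : ℝ) (hq : 3 ≤ q) (h : q ^ 2 - 8 * q + 8 < 0) :
    ∃ y τ : ℝ, 0 < y ∧ 0 < τ ∧ τ * √q < 2 ∧ 1 - 1 / q < y ^ 2 ∧ 1 < q * y * τ ∧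
      y < τ + 1 / (q * y) := by
  have hq0 : 0 < q := by linarith
  have hr : 0 < √q := Real.sqrt_pos.2 hq0
  have hr2 : √q ^ 2 = q := Real.sq_sqrt hq0.le
  have hs : 0 < 1 - 1 / q := by rw [sub_pos, div_lt_one hq0]; linarith
  set y0 := √(1 - 1 / q) with hy0
  have hy : 0 < y0 := Real.sqrt_pos.2 hs
  have hy2 : y0 ^ 2 = 1 - 1 / q := Real.sq_sqrt hs.le
  have hqy : q * y0 ^ 2 = q - 1 := by rw [hy2]; field_simp
  have k1 : q - 2 < 2 * √q * y0 := by
    apply lt_of_pow_lt_pow_left₀ 2 (by positivity)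
    have : (2 * √q * y0) ^ 2 = 4 * (q - 1) := by rw [mul_pow, mul_pow, hr2, ← hqy]; ring
    rw [this]; nlinarith
  have k2 : y0 - 1 / (q * y0) < 2 / √q := by
    rw [lt_div_iff₀ hr]
    have e : (y0 - 1 / (q * y0)) * √q = (q - 2) / (√q * y0) := by
      have : q - 2 = q * y0 ^ 2 - 1 := by linarith
      rw [this]
      field_simp
      rw [hr2]
      ring
    rw [e, div_lt_iff₀ (by positivity)]
    linarith
  have hc : ContinuousAt (fun y : ℝ => y - 1 / (q * y)) y0 := by
    apply continuousAt_id.sub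
    exact continuousAt_const.div (continuousAt_const.mul continuousAt_id) (by positivity)
  have ev := (hc.eventually_lt continuousAt_const k2).filter_mono
    (nhdsWithin_le_nhds (s := Set.Ioi y0))
  obtain ⟨y, hy3, hy4⟩ := (ev.and self_mem_nhdsWithin).exists
  have hy5 : y0 < y := hy4
  have hyp : 0 < y := hy.trans hy5
  obtain ⟨τ, ht1, ht2⟩ := exists_between hy3
  have hsq : y0 ^ 2 < y ^ 2 := by nlinarith
  have k3 : 1 < q * y * τ := by
    have e : q * y * (y - 1 / (q * y)) = q * y ^ 2 - 1 := by field_simp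
    have := mul_lt_mul_of_pos_left ht1 (show 0 < q * y by positivity)
    rw [e] at this
    nlinarith
  have htp : 0 < τ := by
    by_contra hc'
    have : q * y * τ ≤ 0 := mul_nonpos_of_nonneg_of_nonpos (by positivity) (not_lt.1 hc')
    linarith
  refine ⟨y, τ, hyp, htp, ?_, by linarith, k3, by linarith⟩
  rwa [lt_div_iff₀ hr] at ht2

end SupP

open SupP in
theorem sup : S_Sup := by
  intro q w hq hq2 hrec hw
  obtain ⟨h1, hR⟩ := hrec
  obtain ⟨y, τ, hy, ht, htq, hys, hqy, hyt⟩ := params q hq hq2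
  have hq0 : 0 < q := by linarith
  have w0 : ∀ n, w 0 n = q * w 2 n := by
    intro n
    have := hR 0 (n + 1)
    simp only [Nat.add_sub_cancel, zero_add, h1, mul_zero, Nat.cast_zero, zero_mul,
      add_zero] at this
    have hn : (3 * ((n + 1 : ℕ) : ℝ)) ≠ 0 := by positivity
    have := (mul_eq_zero.1 this.symm).resolve_left hn
    field_simp at this
    linarith
  have w2 : ∀ n, w 2 (n + 1) = w 3 n := by
    intro n
    have := hR 1 (n + 1)
    simp only [Nat.add_sub_cancel, h1, Nat.sub_self, w0, zero_div, sub_zero, Nat.cast_one,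
      one_mul] at this
    have hn : (3 * ((n + 1 : ℕ) : ℝ)) ≠ 0 := by positivity
    apply mul_left_cancel₀ hn
    have e : (1 - 1 / q) * (q * w 2 (n + 1)) = (q - 1) * w 2 (n + 1) := by field_simp
    rw [e] at this
    have this' : (1 + 3 * ((n + 1 : ℕ) : ℝ) + q - 2) * w 2 (n + 1) =
      3 * ((n + 1 : ℕ) : ℝ) * w 3 n + (q - 1) * w 2 (n + 1) := this
    linarith
  obtain ⟨N0, hN0⟩ := exists_nat_ge q
  have hpos : ∀ k n : ℕ, 0 < y ^ k * τ ^ n := fun k n => by positivity
  obtain ⟨M, hM⟩ := core q (y / τ) (1 / (q * y * τ)) ((1 - 1 / q) / y ^ 2)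
    (fun k n => w k n / (y ^ k * τ ^ n)) hq (fun k n => div_nonneg (hw k n) (hpos k n).le)
    (by positivity) (by rw [div_lt_one (by positivity)]; exact hqy)
    (by
      rw [div_lt_iff₀ ht]
      have e : (1 + 1 / (q * y * τ)) * τ = τ + 1 / (q * y) := by field_simp
      rw [e]; exact hyt)
    (by rw [div_lt_one (by positivity)]; exact hys) N0
    (by
      intro k n
      have := hR (k + 4) n
      have e1 : k + 4 - 1 = k + 3 := by omega
      rw [e1] at this
      push_cast at this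
      rcases n with _ | n
      · simp only [Nat.cast_zero, mul_zero, zero_mul, sub_zero, zero_add, add_zero] at this ⊢
        have e : w (k + 5) 0 = w (k + 4 + 1) 0 := rfl
        rw [← mul_div_assoc, e, show (k : ℝ) + 5 + q - 3 = k + 4 + q - 2 by ring, this]
        field_simp
        ring
      · simp only [Nat.add_sub_cancel] at this ⊢
        have e : w (k + 5) (n + 1) = w (k + 4 + 1) (n + 1) := rfl
        have e' : w (k + 6) n = w (k + 4 + 2) n := rfl
        rw [← mul_div_assoc, e, e', show (k : ℝ) + 5 + 3 * ((n + 1 : ℕ) : ℝ) + q - 3 =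
          k + 4 + 3 * ((n + 1 : ℕ) : ℝ) + q - 2 by ring, this]
        field_simp
        ring)
    (by
      intro n hn
      obtain ⟨n, rfl⟩ : ∃ m, n = m + 1 := by
        refine ⟨n - 1, ?_⟩
        have : (0 : ℝ) < N0 := by linarith
        have : 0 < N0 := by exact_mod_cast this
        omega
      have := hR 3 (n + 1)
      simp only [Nat.add_sub_cancel] at this ⊢
      have e2 : w (3 - 1) (n + 1) = w 3 n := w2 n
      rw [e2] at this
      have hn' : q ≤ ((n + 1 : ℕ) : ℝ) := hN0.trans (by exact_mod_cast hn)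
      have e : 3 * ((n + 1 : ℕ) : ℝ) * (y / τ) * (w 5 n / (y ^ 5 * τ ^ n)) =
          3 * ((n + 1 : ℕ) : ℝ) * w 5 n / (y ^ 4 * τ ^ (n + 1)) := by field_simp; ring
      rw [e, ← mul_div_assoc]
      apply div_le_div_of_nonneg_right _ (hpos _ _).le
      have i1 : w 3 n ≤ ((n + 1 : ℕ) : ℝ) * (w 3 n / q) := by
        rw [← mul_div_assoc, le_div_iff₀ hq0]
        nlinarith [hw 3 n]
      have i2 : 0 ≤ w 3 n / q := div_nonneg (hw 3 n) hq0.le
      have e3 : (1 - 1 / q) * w 3 n = w 3 n - w 3 n / q := by ring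
      have this' : (((3 : ℕ) : ℝ) + 3 * ((n + 1 : ℕ) : ℝ) + q - 2) * w 4 (n + 1) =
        3 * ((n + 1 : ℕ) : ℝ) * (w 5 n - w 3 n / q) + ((3 : ℕ) : ℝ) * (1 - 1 / q) * w 3 n := this
      rw [mul_assoc ((3 : ℕ) : ℝ), e3, Nat.cast_ofNat] at this'
      linarith)
    (by
      intro n
      have := hR 2 n
      have e2 : w (2 - 1) n = 0 := h1 n
      rw [e2] at this
      rcases n with _ | n
      · have h0 : q * w 3 0 = 0 := by
          norm_num at this
          rcases this with h | h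
          · exact absurd h hq0.ne'
          · rw [h, mul_zero]
        have h0' : w 3 0 = 0 := (mul_eq_zero.1 h0).resolve_left hq0.ne'
        simp [h0']
      · simp only [Nat.add_sub_cancel] at this ⊢
        have e : 3 * ((n + 1 : ℕ) : ℝ) * (y / τ) * (w 4 n / (y ^ 4 * τ ^ n)) =
            3 * ((n + 1 : ℕ) : ℝ) * w 4 n / (y ^ 3 * τ ^ (n + 1)) := by field_simp; ring
        rw [e, ← mul_div_assoc]
        apply div_le_div_of_nonneg_right _ (hpos _ _).le
        have i2 : 0 ≤ ((n + 1 : ℕ) : ℝ) * (w 2 n / q) :=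
          mul_nonneg (Nat.cast_nonneg _) (div_nonneg (hw 2 n) hq0.le)
        norm_num at this i2 ⊢
        nlinarith)
  have hM' : ∀ k n, w (k + 3) n ≤ M * (y ^ (k + 3) * τ ^ n) := fun k n => by
    have := hM k n
    rwa [div_le_iff₀ (hpos _ _)] at this
  set C2 := max (w 2 0 / y ^ 2) (M * y / τ) with hC2
  have hw2 : ∀ n, w 2 n ≤ C2 * (y ^ 2 * τ ^ n) := by
    intro n
    rcases n with _ | n
    · have : w 2 0 / y ^ 2 ≤ C2 := le_max_left _ _
      rw [div_le_iff₀ (by positivity)] at this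
      simpa using this
    · rw [w2]
      have e : M * (y ^ (0 + 3) * τ ^ n) = M * y / τ * (y ^ 2 * τ ^ (n + 1)) := by
        field_simp; ring
      refine (hM' 0 n).trans ?_
      rw [e]
      exact mul_le_mul_of_nonneg_right (le_max_right _ _) (hpos _ _).le
  refine ⟨max (max M C2) (max 0 (q * C2 * y ^ 2)), y, τ, hy, ht, htq, fun k n => ?_⟩
  rw [mul_assoc]
  rcases k with _ | _ | _ | k
  · rw [w0]
    have := mul_le_mul_of_nonneg_left (hw2 n) hq0.le
    refine this.trans ?_
    have e : q * (C2 * (y ^ 2 * τ ^ n)) = q * C2 * y ^ 2 * (y ^ 0 * τ ^ n) := by ring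
    rw [e]
    exact mul_le_mul_of_nonneg_right ((le_max_right _ _).trans (le_max_right _ _)) (hpos _ _).le
  · rw [zero_add, h1]
    exact mul_nonneg ((le_max_left _ _).trans (le_max_right _ _)) (hpos _ _).le
  · exact (hw2 n).trans (mul_le_mul_of_nonneg_right ((le_max_right _ _).trans (le_max_left _ _))
      (hpos _ _).le)
  · exact (hM' k n).trans (mul_le_mul_of_nonneg_right
      ((le_max_left _ _).trans (le_max_left _ _)) (hpos _ _).le)

end Pool.Agent.P.MP_e0c037_lc.R3
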