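import Pool.Agent.Lib.helper77.CookLevin

/-! Interface statements. -/

namespace Pool.Agent.P.MP_e0c037_lc.R3

open Complex MeasureTheory Pool.Agent.Lib.helper21
open scoped Nat Real

/-- The integrand of the Airy integrals on the line `re κ = c`. -/
noncomputable def aG (p : ℝ) (j : ℕ) (c : ℝ) (x : ℂ) (y : ℝ) : ℂ :=
  (-((c : ℂ) + y * I)) ^ j * cexp (p * ((c : ℂ) + y * I) ^ 3 / 3 - ((c : ℂ) + y * I) * x)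

/-- The `j`-th derivative of a rescaled Airy function. -/
noncomputable def Ai (p : ℝ) (j : ℕ) (x : ℂ) : ℂ := ∫ y : ℝ, aG p j 1 x y

def S_Airy : Prop :=
  ∀ p : ℝ, 0 < p →
    (∀ (j : ℕ) (c : ℝ) (x : ℂ), 0 < c → Ai p j x = ∫ y : ℝ, aG p j c x y) ∧
    (∀ (j : ℕ) (x : ℂ), HasDerivAt (Ai p j) (Ai p (j + 1) x) x) ∧
    (∀ x : ℂ, p * Ai p 2 x = x * Ai p 0 x) ∧
    ∀ (j : ℕ) (c : ℝ) (x : ℂ), 0 < c → ‖Ai p j x‖ ≤ 2 * j ! * √(π / (p * c)) *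
      Real.exp (p * c ^ 3 / 3 - c * x.re + c + (|x.im| + 1) ^ 2 / (4 * p * c))

def S_Zero : Prop := ∃ z : ℂ, Ai 1 0 z = 0 ∧ Ai 1 1 z ≠ 0

/-- The recursion satisfied by the spherical moments. -/
def Rec (q : ℝ) (w : ℕ → ℕ → ℝ) : Prop :=
  (∀ n, w 1 n = 0) ∧ ∀ k n : ℕ, (k + 3 * n + q - 2) * w (k + 1) n =
    3 * n * (w (k + 2) (n - 1) - w k (n - 1) / q) + k * (1 - 1 / q) * w (k - 1) n

def S_Sup : Prop :=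
  ∀ (q : ℝ) (w : ℕ → ℕ → ℝ), 3 ≤ q → q ^ 2 - 8 * q + 8 < 0 → Rec q w → (∀ k n, 0 ≤ w k n) →
    ∃ C y τ : ℝ, 0 < y ∧ 0 < τ ∧ τ * √q < 2 ∧ ∀ k n, w k n ≤ C * y ^ k * τ ^ n

/-- The assignment `l` avoids all forbidden pairs. -/
def Sat (F : List (ℕ × ℕ × ℕ × ℕ)) (l : List ℕ) : Prop :=
  ∀ f ∈ F, ¬ (l.getD f.1 0 = f.2.1 ∧ l.getD f.2.2.1 0 = f.2.2.2)

def S_CL : Prop :=
  ∀ (p : Polynomial ℕ) (R : List Bool × List Bool → Bool), N68a2faeb.IsPolyTime R →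
    ∃ (d : ℕ) (n : List Bool → ℕ) (F : List Bool → List (ℕ × ℕ × ℕ × ℕ)), PT n ∧ PT F ∧
      (∀ x, ∀ f ∈ F x, f.1 < n x ∧ f.2.1 < d ∧ f.2.2.1 < n x ∧ f.2.2.2 < d) ∧
      ∀ x, Nat.card {w : List Bool // w.length ≤ p.eval x.length ∧ R (x, w) = true} =
        Nat.card {l : List ℕ // l.length = n x ∧ (∀ c ∈ l, c < d) ∧ Sat (F x) l}

end Pool.Agent.P.MP_e0c037_lc.R3
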