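import Pool.Agent.P.MP_e0c037_lc.R3.Sub
import Pool.Agent.P.MP_e0c037_lc.R3.Stm

/-! Averages of flow polynomials over pairings of half-edges, computed by Wick's formula. -/

namespace Pool.Agent.P.MP_e0c037_lc.R3

open Finset MvPolynomial

namespace WickP

/-- Gaussian moments. -/
def mu : ℕ → ℝ
  | 0 => 1
  | 1 => 0
  | k + 2 => (k + 1) * mu k

theorem mu_succ (k : ℕ) : mu (k + 1) = k * mu (k - 1) := by
  cases k <;> simp [mu]

/-- Gaussian expectation of polynomials. -/
noncomputable def E0 : MvPolynomial ℕ ℝ →ₗ[ℝ] ℝ :=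
  (basisMonomials ℕ ℝ).constr ℝ fun s => s.prod fun _ k => mu k

theorem E0_monomial (s : ℕ →₀ ℕ) (a : ℝ) : E0 (monomial s a) = a * s.prod fun _ k => mu k := by
  have : monomial s a = a • basisMonomials ℕ ℝ s := by simp [smul_monomial]
  rw [this, map_smul, E0, Module.Basis.constr_basis, smul_eq_mul]

theorem E0_one : E0 1 = 1 := by simpa using E0_monomial 0 1

theorem E0_X (c : ℕ) (P : MvPolynomial ℕ ℝ) : E0 (X c * P) = E0 (pderiv c P) := by
  induction P using MvPolynomial.induction_on' with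
  | add P Q hP hQ => simp only [mul_add, map_add, hP, hQ]
  | monomial s a =>
    rw [X, monomial_mul, pderiv_monomial, E0_monomial, E0_monomial,
      ← Finsupp.mul_prod_erase' _ c _ fun _ => rfl,
      ← Finsupp.mul_prod_erase' (s - _) c _ fun _ => rfl]
    have e1 : Finsupp.erase c (Finsupp.single c 1 + s) = Finsupp.erase c s := by
      ext i; by_cases h : i = c <;> simp [h]
    have e2 : Finsupp.erase c (s - Finsupp.single c 1) = Finsupp.erase c s := by
      ext i; by_cases h : i = c <;> simp [h]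
    rw [e1, e2]
    simp [add_comm 1, mu_succ]
    ring

/-- Centred variables. -/
noncomputable def ps (x a : ℕ) : MvPolynomial ℕ ℝ := (x : ℝ) • X a - ∑ d ∈ range x, X d

/-- The dual derivations. -/
noncomputable def D (x a : ℕ) : Derivation ℝ (MvPolynomial ℕ ℝ) (MvPolynomial ℕ ℝ) :=
  (x : ℝ) • pderiv a - ∑ d ∈ range x, pderiv d

theorem D_apply (x a : ℕ) (P : MvPolynomial ℕ ℝ) :
    D x a P = (x : ℝ) • pderiv a P - ∑ d ∈ range x, pderiv d P := by
  rw [D, Derivation.sub_apply, Derivation.smul_apply]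
  congr 1
  induction x with
  | zero => simp
  | succ x ih => rw [sum_range_succ, sum_range_succ, Derivation.add_apply, ih]

theorem E0_ps (x a : ℕ) (P : MvPolynomial ℕ ℝ) : E0 (ps x a * P) = E0 (D x a P) := by
  simp only [ps, D_apply, sub_mul, sum_mul, smul_mul_assoc, map_sub, map_sum, map_smul, E0_X]

theorem D_ps {x a b : ℕ} (ha : a < x) (hb : b < x) :
    D x a (ps x b) = C (x * (-1 + x * if a = b then 1 else 0) : ℝ) := by
  have h : ∀ c < x, pderiv c (ps x b) = C (x * (if c = b then 1 else 0) - 1 : ℝ) := by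
    intro c hc
    simp only [ps, map_sub, map_sum, Derivation.map_smul, pderiv_X, Pi.single_apply, sum_ite_eq',
      mem_range, hc, if_true, eq_comm (a := b)]
    split_ifs <;> simp [smul_eq_C_mul]
  rw [D_apply, h a ha, sum_congr rfl fun d hd => h d (mem_range.1 hd), ← map_sum, smul_eq_C_mul,
    ← map_mul, ← map_sub]
  congr 1
  simp only [sum_sub_distrib, ← mul_sum, sum_ite_eq', mem_range, hb, if_true, sum_const, card_range,
    nsmul_eq_mul]
  ring

/-- Power sums. -/
noncomputable def pw (x k : ℕ) : MvPolynomial ℕ ℝ := ∑ c ∈ range x, ps x c ^ k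

theorem pw_one (x : ℕ) : pw x 1 = 0 := by
  simp [pw, ps, sum_sub_distrib, ← mul_sum, Nat.cast_smul_eq_nsmul]

theorem D_pw {x a : ℕ} (ha : a < x) (k : ℕ) : D x a (pw x (k + 1)) =
    C ((k + 1) * x : ℝ) * (C (x : ℝ) * ps x a ^ k - pw x k) := by
  have : ∀ c ∈ range x, D x a (ps x c ^ (k + 1)) = C ((k + 1) * x : ℝ) *
      ((if a = c then C (x : ℝ) * ps x c ^ k else 0) - ps x c ^ k) := by
    intro c hc
    rw [Derivation.leibniz_pow, D_ps ha (mem_range.1 hc)]
    split_ifs <;> simp <;> ring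
  rw [pw, map_sum, sum_congr rfl this, ← mul_sum, sum_sub_distrib, sum_ite_eq, if_pos (mem_range.2 ha),
    pw]

theorem euler_pw (x k : ℕ) : ∑ a ∈ range x, ps x a * D x a (pw x k) = C (k * x ^ 2 : ℝ) * pw x k := by
  cases k with
  | zero => simp [pw]
  | succ k =>
    have : ∀ a ∈ range x, ps x a * D x a (pw x (k + 1)) = C ((k + 1) * x : ℝ) *
        (C (x : ℝ) * ps x a ^ (k + 1) - pw x k * ps x a ^ 1) := fun a ha => by
      rw [D_pw (mem_range.1 ha)]; ring
    rw [sum_congr rfl this, ← mul_sum, sum_sub_distrib, ← mul_sum, ← mul_sum, ← pw, ← pw, pw_one]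
    simp
    ring

theorem E0_C (a : ℝ) (P : MvPolynomial ℕ ℝ) : E0 (C a * P) = a * E0 P := by
  rw [← smul_eq_C_mul, map_smul, smul_eq_mul]

theorem E0_two (x k m : ℕ) : E0 (pw x 2 * (pw x k * pw x 3 ^ m)) =
    x ^ 2 * (x - 1 + k + 3 * m) * E0 (pw x k * pw x 3 ^ m) := by
  have h1 : ∀ a ∈ range x, E0 (ps x a ^ 2 * (pw x k * pw x 3 ^ m)) =
      E0 (C (x * (x - 1) : ℝ) * (pw x k * pw x 3 ^ m) + (pw x 3 ^ m * (ps x a * D x a (pw x k)) +
        C (m : ℝ) * pw x k * pw x 3 ^ (m - 1) * (ps x a * D x a (pw x 3)))) := by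
    intro a ha
    rw [sq, mul_assoc, E0_ps, Derivation.leibniz, Derivation.leibniz, Derivation.leibniz_pow,
      D_ps (mem_range.1 ha) (mem_range.1 ha)]
    congr 1
    simp
    ring
  rw [pw, sum_mul, map_sum, sum_congr rfl h1, ← map_sum, sum_add_distrib, sum_add_distrib,
    sum_const, ← mul_sum, ← mul_sum, euler_pw, euler_pw, ← E0_C]
  congr 1
  cases m <;> simp [pow_succ] <;> ring

theorem E0_rec (x k n : ℕ) : E0 (pw x (k + 1) * pw x 3 ^ n) =
    k * x * (x - 1) * E0 (pw x (k - 1) * pw x 3 ^ n) + 3 * n * (x ^ 2 *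
      E0 (pw x (k + 2) * pw x 3 ^ (n - 1)) - x ^ 3 * (x + k + 3 * n - 4) *
        E0 (pw x k * pw x 3 ^ (n - 1))) := by
  have h1 : ∀ a ∈ range x, E0 (ps x a ^ (k + 1) * pw x 3 ^ n) =
      E0 (C (k * x * (x - 1) : ℝ) * (ps x a ^ (k - 1) * pw x 3 ^ n) + C (3 * n * x : ℝ) *
        (C (x : ℝ) * (ps x a ^ (k + 2) * pw x 3 ^ (n - 1)) -
          pw x 2 * (ps x a ^ k * pw x 3 ^ (n - 1)))) := by
    intro a ha
    rw [pow_succ', mul_assoc, E0_ps, Derivation.leibniz, Derivation.leibniz_pow,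
      Derivation.leibniz_pow, D_ps (mem_range.1 ha) (mem_range.1 ha), D_pw (mem_range.1 ha) 2]
    congr 1
    simp [map_ofNat]
    ring
  rw [pw, sum_mul, map_sum, sum_congr rfl h1, ← map_sum, sum_add_distrib, ← mul_sum, ← mul_sum,
    sum_sub_distrib, ← mul_sum, ← mul_sum, ← sum_mul, ← sum_mul, ← sum_mul, ← pw, ← pw, ← pw,
    map_add, E0_C, E0_C, map_sub, E0_C, E0_two]
  cases n with
  | zero => simp
  | succ n => simp; ring

/-- Sums over colourings which interpolate to a nonnegative value at `q`. -/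
def Cone (q : ℝ) (N : ℕ) (g : ℕ → List ℕ → ℝ) : Prop :=
  ∃ f, IsPoly f ∧ 0 ≤ f q ∧ ∀ x : ℕ, 2 ≤ x → f x = SL x N (g x)

theorem cone {q : ℝ} (hq : 0 ≤ q) (N : ℕ) (H : ∀ E, ValU N E → 0 ≤ Zw q N (U (-1) q E)) (m : ℕ) :
    ∀ (L : List ℕ) (E : List (ℕ × ℕ)), L.length ≤ m → (∀ u ∈ L, u < N) → ValU N E →
      Cone q N fun x l => Wt (U (-1) x E) l * E0 (L.map fun u => ps x (l.getD u 0)).prod := by
  have h0 : ∀ E, ValU N E → Cone q N fun x l => Wt (U (-1) x E) l *
      E0 (([] : List ℕ).map fun u => ps x (l.getD u 0)).prod := fun E hE =>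
    ⟨fun x => Zw x N (U (-1) x E), by simp only [U, Zw_map]; fun_prop, H E hE,
      fun x _ => by simp [Zw_nat _ _ _ hE.U, E0_one]⟩
  induction m with
  | zero =>
    intro L E h1 _ hE
    obtain rfl : L = [] := List.length_eq_zero_iff.1 (by omega)
    exact h0 E hE
  | succ m ih =>
    intro L E h1 h2 hE
    cases L with
    | nil => exact h0 E hE
    | cons a L =>
      obtain ⟨ha, hL⟩ := List.forall_mem_cons.1 h2
      have key : ∀ L2 L1 : List ℕ, (L1 ++ L2).length ≤ m → (∀ u ∈ L1 ++ L2, u < N) →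
          Cone q N fun x l => Wt (U (-1) x E) l * E0 ((L1.map fun u => ps x (l.getD u 0)).prod *
            D x (l.getD a 0) (L2.map fun u => ps x (l.getD u 0)).prod) := by
        intro L2
        induction L2 with
        | nil => exact fun L1 _ _ => ⟨fun _ => 0, by fun_prop, le_rfl, fun x _ => by simp [SL_const]⟩
        | cons b L2 ih2 =>
          intro L1 g1 g2
          have hb : b < N := g2 b (by simp)
          obtain ⟨f1, p1, p2, p3⟩ := ih2 (b :: L1) (by simp at g1 ⊢; omega)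
            fun u hu => g2 u (by simp at hu ⊢; tauto)
          obtain ⟨f2, r1, r2, r3⟩ := ih (L1 ++ L2) ((a, b) :: E) (by simp at g1 ⊢; omega)
            (fun u hu => g2 u (by simp at hu ⊢; tauto)) (List.forall_mem_cons.2 ⟨⟨ha, hb⟩, hE⟩)
          refine ⟨fun x => f1 x + x * f2 x, by fun_prop, by positivity, fun x hx => ?_⟩
          dsimp only
          rw [p3 x hx, r3 x hx, ← SL_mul, ← SL_add]
          refine SL_congr fun l l1 l2 => ?_
          subst l1
          have e : ∀ P Q R : MvPolynomial ℕ ℝ, ∀ c : ℝ, ∀ S, P * (R • S + Q • C c) =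
              R * P * S + C c * (P * Q) := by intros; simp; ring
          simp only [List.map_cons, List.prod_cons, Derivation.leibniz, U, Wt_cons,
            List.getD_eq_getElem _ _ ha, List.getD_eq_getElem _ _ hb,
            D_ps (l2 _ (List.getElem_mem ha)) (l2 _ (List.getElem_mem hb)), e, map_add, E0_C,
            List.map_append, List.prod_append, dl, List.getElem?_eq_getElem ha,
            List.getElem?_eq_getElem hb, Option.some_inj]
          ring
      simpa [E0_ps] using key L [] (by simpa using h1) (by simpa using hL)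

/-- Half-edges of `n` vertices of degree three. -/
def hl : ℕ → List ℕ
  | 0 => []
  | n + 1 => 0 :: 0 :: 0 :: (hl n).map (· + 1)

theorem hl_lt (n : ℕ) : ∀ u ∈ hl n, u < n := by
  induction n with
  | zero => simp [hl]
  | succ n ih => simpa [hl] using ih

theorem hl_prod (g : ℕ → MvPolynomial ℕ ℝ) (l : List ℕ) :
    ((hl l.length).map fun u => g (l.getD u 0)).prod = (l.map fun c => g c ^ 3).prod := by
  induction l with
  | nil => rfl
  | cons c l ih =>
    simp only [List.length_cons, hl, List.map_cons, List.prod_cons, List.map_map, Function.comp_def,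
      List.getD_cons_zero, List.getD_cons_succ, ih]
    ring

theorem SL_pw (x n : ℕ) (P : MvPolynomial ℕ ℝ) :
    SL x n (fun l => E0 (P * (l.map fun c => ps x c ^ 3).prod)) = E0 (P * pw x 3 ^ n) := by
  induction n generalizing P with
  | zero => simp [SL]
  | succ n ih =>
    simp only [SL, List.map_cons, List.prod_cons, ← mul_assoc, ih]
    rw [← map_sum, ← sum_mul, ← mul_sum, ← pw, pow_succ', mul_assoc]

/-- Normalising constants. -/
def cc (q : ℝ) : ℕ → ℝ
  | 0 => 1
  | 1 => 1
  | d + 2 => q ^ 2 * (q - 1 + d) * cc q d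

theorem cc_pos {q : ℝ} (hq : 1 < q) : ∀ d, 0 < cc q d
  | 0 => one_pos
  | 1 => one_pos
  | d + 2 => mul_pos (mul_pos (by positivity) (by linarith [d.cast_nonneg (α := ℝ)])) (cc_pos hq d)

end WickP

open WickP

theorem wick {q : ℝ} (hq : 1 < q) (H : ∀ N E, ValU N E → 0 ≤ Zw q N (U (-1) q E)) :
    ∃ w, Rec q w ∧ (∀ k n, 0 ≤ w k n) ∧ w 0 0 ≠ 0 := by
  have h1 : ∀ k n : ℕ, ∃ f, IsPoly f ∧ 0 ≤ f q ∧
      ∀ x : ℕ, 2 ≤ x → f x = E0 (pw x k * pw x 3 ^ n) := by
    intro k n
    obtain ⟨f, f1, f2, f3⟩ := cone (by linarith) (n + 1) (H _) _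
      (List.replicate k 0 ++ (hl n).map (· + 1)) [] le_rfl
      (by simpa [List.forall_mem_append, or_imp, forall_and] using hl_lt n) (by simp [ValU])
    refine ⟨f, f1, f2, fun x hx => ?_⟩
    rw [f3 x hx, SL, pw, sum_mul, map_sum]
    refine sum_congr rfl fun c _ => ?_
    rw [← SL_pw]
    refine SL_congr fun l l1 _ => ?_
    subst l1
    simp [U, Function.comp_def, ← hl_prod]
  choose u u1 u2 u3 using h1
  have h2 : ∀ n, u 1 n q = 0 := fun n =>
    poly_ext (u1 1 n) (IsPoly.const 0) (fun x hx => by simp [u3 1 n x hx, pw_one]) q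
  have h3 : u 0 0 q = q :=
    poly_ext (u1 0 0) IsPoly.id (fun x hx => by
      have := E0_C x 1
      simpa [u3 0 0 x hx, pw, E0_one] using this) q
  have h4 : ∀ k n : ℕ, u (k + 1) n q = k * q * (q - 1) * u (k - 1) n q + 3 * n * (q ^ 2 *
      u (k + 2) (n - 1) q - q ^ 3 * (q + k + 3 * n - 4) * u k (n - 1) q) := fun k n =>
    poly_ext (u1 _ _) (g := fun q => k * q * (q - 1) * u (k - 1) n q + 3 * n * (q ^ 2 *
      u (k + 2) (n - 1) q - q ^ 3 * (q + k + 3 * n - 4) * u k (n - 1) q)) (by fun_prop)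
      (fun x hx => by simp only [u3 _ _ x hx]; exact E0_rec x k n) q
  have hc := fun d => (cc_pos hq d).ne'
  have hq0 : q ≠ 0 := by linarith
  refine ⟨fun k n => u k n q / cc q (k + 3 * n), ⟨fun n => by simp [h2], fun k n => ?_⟩,
    fun k n => div_nonneg (u2 k n) (cc_pos hq _).le, by simpa [h3, cc] using hq0⟩
  have hp : ∀ d : ℕ, q - 1 + d ≠ 0 := fun d => by linarith [d.cast_nonneg (α := ℝ)]
  dsimp only
  rw [h4]
  cases n with
  | zero =>
    cases k with
    | zero => simp
    | succ k =>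
      have := hc k
      have := hp k
      simp only [mul_zero, add_zero, cc, Nat.add_sub_cancel]
      field_simp
      push_cast
      ring
  | succ n =>
    have a1 := hc (k + 3 * n)
    have a2 := hp (k + 3 * n)
    have a3 := hp (k + 3 * n + 2)
    have e : (k : ℝ) * (1 - 1 / q) * (u (k - 1) (n + 1) q / cc q (k - 1 + 3 * (n + 1))) =
        k * (1 - 1 / q) * (u (k - 1) (n + 1) q / cc q (k + 3 * n + 2)) := by
      cases k with
      | zero => simp
      | succ k => congr 3; omega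
    rw [e, show k + 1 + 3 * (n + 1) = k + 3 * n + 2 + 2 by ring, Nat.add_sub_cancel,
      show k + 2 + 3 * n = k + 3 * n + 2 by ring]
    simp only [cc]
    field_simp
    push_cast
    ring

end Pool.Agent.P.MP_e0c037_lc.R3
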