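import Pool.Agent.P.MP_e0c037_lc.R3.PL
import Pool.Agent.P.MP_e0c037_lc.R3.NZ
import Pool.Agent.P.MP_e0c037_lc.R3.Sup
import Pool.Agent.P.MP_e0c037_lc.R3.CL
import Pool.Agent.P.MP_e0c037_lc.R3.Wick
import Pool.Agent.P.MP_e0c037_lc.R3.Search

/-! Negative values of the flow polynomial and hardness. -/

namespace Pool.Agent.P.MP_e0c037_lc.R3

open Complex MeasureTheory Set Filter Topology

theorem order_eq {A A' h h' : ℂ → ℂ} {q z : ℂ} (hA : HasDerivAt A (A' z) z) (hA0 : A z = 0)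
    (hA1 : A' z ≠ 0) (hA' : ContinuousAt A' z) (hh : ∀ w, HasDerivAt h (h' w) w)
    (H : ∀ w, A w * h' w = q * A' w * h w) {x : ℂ} (hx : h x ≠ 0) : ∃ N : ℕ, q = N := by
  have an : AnalyticOnNhd ℂ h univ := fun w _ =>
    Differentiable.analyticAt (fun w => (hh w).differentiableAt) w
  obtain ⟨N, g, hg, g0, e⟩ := (an z trivial).exists_eventuallyEq_pow_smul_nonzero_iff.2 fun h0 =>
    hx (congrFun (an.eq_of_eventuallyEq analyticOnNhd_const h0) x)
  have e1 : (fun w => slope A z w * (N * g w + (w - z) * deriv g w)) =ᶠ[𝓝[≠] z]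
      fun w => q * A' w * g w := by
    filter_upwards [self_mem_nhdsWithin, nhdsWithin_le_nhds e.eventually_nhds,
      nhdsWithin_le_nhds hg.eventually_analyticAt] with w hw e2 e3
    have h1 : w - z ≠ 0 := sub_ne_zero.2 hw
    have h2 := (hh w).unique (((((hasDerivAt_id w).sub_const z).pow N).mul
      e3.differentiableAt.hasDerivAt).congr_of_eventuallyEq e2)
    have h3 := H w
    rw [h2, e2.self_of_nhds] at h3
    refine mul_left_cancel₀ (pow_ne_zero (N + 1) h1) ?_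
    have h4 : (N : ℂ) * (w - z) ^ (N - 1) * (w - z) = N * (w - z) ^ N := by
      cases N <;> simp [pow_succ, mul_assoc]
    have h5 : slope A z w * (w - z) = A w := by rw [slope_def_field, hA0, sub_zero]; field_simp
    simp only [id, Pi.pow_apply, smul_eq_mul] at h3
    linear_combination (w - z) * h3 - A w * g w * h4 +
      (w - z) ^ N * (N * g w + (w - z) * deriv g w) * h5
  have t1 := (hasDerivAt_iff_tendsto_slope.1 hA).mul (tendsto_nhdsWithin_of_tendsto_nhds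
    ((hg.continuousAt.const_mul (N : ℂ)).add ((continuousAt_id.sub (continuousAt_const (y := z))).mul
      hg.deriv.continuousAt)))
  have t2 := tendsto_nhds_unique (t1.congr' e1) (tendsto_nhdsWithin_of_tendsto_nhds
    ((hA'.const_mul q).mul hg.continuousAt))
  refine ⟨N, mul_right_cancel₀ (mul_ne_zero hA1 g0) ?_⟩
  simp only [Pi.add_apply, Pi.mul_apply, Pi.sub_apply, id] at t2
  linear_combination -t2

theorem no_bound {t C y τ : ℝ} {e : ℕ → ℕ → ℂ} (ht : 0 < t) (hq : 2 < t ^ 2) (h : Bdd e C y τ)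
    (hy : 0 < y) (hτ : 0 ≤ τ) (h2 : τ * t < 2) (hr : RecE (t ^ 2) e) (h1 : ∀ n, e 1 n = 0)
    (h0 : e 0 0 ≠ 0) : ∃ N : ℕ, t ^ 2 = N := by
  have hs : -1 < t ^ 2 - 2 := by linarith
  have hq0 : ((t ^ 2 : ℝ) : ℂ) ≠ 0 := ofReal_ne_zero.2 (by linarith)
  have d := fun j w => deriv_FI ht h hy.le hτ h2 hs j 0 (t ^ 2 : ℝ) 0 w
  simp only [zero_mul, zero_add] at d
  have a := (airy 1 one_pos).2.1
  have e1 : ∀ ζ, Wr (t ^ 2) e ζ 0 = Ai 1 0 ζ * FI (t ^ 2) e 1 (t ^ 2 - 2) ((t ^ 2 : ℝ) * ζ) 0 -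
      Ai 1 1 ζ * FI (t ^ 2) e 0 (t ^ 2 - 2) ((t ^ 2 : ℝ) * ζ) 0 := fun ζ => by
    have : ∀ s x, FI (t ^ 2) (s1 e) 0 s x 0 = 0 := fun s x => by
      simp [FI, fI, Sr_left (e := s1 e) h1]
    simp only [Wr, H0, H1, mul_zero, add_zero, this, zero_add]
  obtain ⟨K, c, u0, hc, hK⟩ := Wr_sec ht hq h hy hτ h2 hr
  have e2 := eq_zero_of_sector (b := fun ζ => Wr (t ^ 2) e ζ 0) (by
    rw [funext e1]
    exact fun ζ => (((a 0 ζ).mul (d 1 ζ)).sub ((a 1 ζ).mul (d 0 ζ))).differentiableAt) hc hK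
  obtain ⟨z, z0, z1⟩ := zero
  obtain ⟨x, hx⟩ := FI_ne ht h hy.le hτ h2 hs h0
  obtain ⟨N, hN⟩ := order_eq (q := (t ^ 2 : ℝ)) (x := x / (t ^ 2 : ℝ)) (a 0 z) z0 z1
    (a 1 z).continuousAt (d 0) (fun w => by linear_combination (t ^ 2 : ℝ) * ((e1 w).symm.trans (e2 w)))
    (by rwa [mul_div_cancel₀ _ hq0])
  exact ⟨N, by exact_mod_cast hN⟩

theorem exists_neg {q : ℝ} (h3 : 3 ≤ q) (h8 : q < 4 + 2 * √2) (hq : ∀ k : ℕ, q ≠ k) :
    ∃ N E, ValU N E ∧ Zw q N (U (-1) q E) < 0 := by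
  by_contra! H
  obtain ⟨w, hw, w0, w1⟩ := wick (by linarith) H
  have h2 := Real.sq_sqrt (by norm_num : (0 : ℝ) ≤ 2)
  have h4 : 1 ≤ √2 := Real.one_le_sqrt.2 (by norm_num)
  obtain ⟨C, y, τ, hy, hτ, h5, hb⟩ := sup q w h3 (by nlinarith) hw w0
  have e := Real.sq_sqrt (by linarith : 0 ≤ q)
  obtain ⟨N, hN⟩ := no_bound (t := √q) (e := fun k n => I ^ (k + n) * w k n) (C := C)
    (Real.sqrt_pos.2 (by linarith)) (by linarith) (fun k n => by simpa [abs_of_nonneg, w0] using hb k n)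
    hy hτ.le h5 (by rw [e]; exact recE_of_rec hw) (by simp [hw.1]) (by simpa using w1)
  exact hq N (e.symm.trans hN)

theorem flow_eq (q : ℝ) (N : ℕ) (E : List (ℕ × ℕ)) :
    (-1) ^ E.length * dichromatic N E q (-q) = Zw q N (U (-1) q E) := by
  rw [U, Zw_map, dichromatic, Finset.mul_sum]
  refine Finset.sum_congr rfl fun A hA => ?_
  obtain ⟨k, hk⟩ := Nat.exists_eq_add_of_le
    ((Finset.card_le_card (Finset.mem_powerset.1 hA)).trans_eq (Finset.card_range _))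
  rw [hk, Nat.add_sub_cancel_left, neg_pow q, pow_add]
  have : (-1 : ℝ) ^ A.card * (-1) ^ A.card = 1 := by rw [← mul_pow]; simp
  linear_combination q ^ comps N E A * q ^ A.card * (-1) ^ k * this

theorem hard {q : ℝ} (h3 : 3 ≤ q) (h8 : q < 4 + 2 * √2) (hq : ∀ k : ℕ, q ≠ k) :
    (∃ (n : ℕ) (L : List (ℕ × ℕ)), (∀ e ∈ L, e.1 < n ∧ e.2 < n) ∧
      (-1) ^ L.length * dichromatic n L q (-q) < 0) ∧
    ∀ v ≤ -q, ∀ f, SharpP f → Reduces f q v := by
  obtain ⟨N, E, hE, h⟩ := exists_neg h3 h8 hq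
  exact ⟨⟨N, E, hE, (flow_eq q N E).trans_lt h⟩, fun v hv f hf => reduces cl h3 hv hE h f hf⟩

end Pool.Agent.P.MP_e0c037_lc.R3
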