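import Pool.Agent.P.MP_e0c037_lc.R3.Stm

/-! Airy integrals: shift of the line, derivatives, bounds, and a simple real zero. -/

namespace Pool.Agent.P.MP_e0c037_lc.R3

open Complex MeasureTheory Set Filter Topology
open scoped Nat Real ComplexConjugate FourierTransform

namespace AiryP

/-- Two-sided Gaussian majorant. -/
noncomputable def gE (b L y : ℝ) : ℝ :=
  Real.exp (-b * y ^ 2 + L * y) + Real.exp (-b * y ^ 2 + -L * y)

theorem gauss_eq {b : ℝ} (hb : 0 < b) (L : ℝ) : (fun y : ℝ => Real.exp (-b * y ^ 2 + L * y)) =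
    fun y => Real.exp (L ^ 2 / (4 * b)) * Real.exp (-b * (y - L / (2 * b)) ^ 2) := by
  funext y
  rw [← Real.exp_add]
  congr 1
  field_simp
  ring

theorem gauss_int {b : ℝ} (hb : 0 < b) (L : ℝ) :
    Integrable fun y : ℝ => Real.exp (-b * y ^ 2 + L * y) := by
  rw [gauss_eq hb]
  exact ((integrable_exp_neg_mul_sq hb).comp_sub_right _).const_mul _

theorem gauss_val {b : ℝ} (hb : 0 < b) (L : ℝ) :
    ∫ y : ℝ, Real.exp (-b * y ^ 2 + L * y) = Real.exp (L ^ 2 / (4 * b)) * √(π / b) := by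
  rw [gauss_eq hb, integral_const_mul,
    integral_sub_right_eq_self (fun y : ℝ => Real.exp (-b * y ^ 2)), integral_gaussian]

theorem gE_int {b : ℝ} (hb : 0 < b) (L : ℝ) : Integrable (gE b L) :=
  (gauss_int hb L).add (gauss_int hb (-L))

theorem gE_val {b : ℝ} (hb : 0 < b) (L : ℝ) :
    ∫ y, gE b L y = 2 * (Real.exp (L ^ 2 / (4 * b)) * √(π / b)) := by
  unfold gE
  rw [integral_add (gauss_int hb L) (gauss_int hb (-L)), gauss_val hb, gauss_val hb, neg_sq]
  ring

theorem gE_pos (b L y : ℝ) : 0 < gE b L y := by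
  unfold gE
  positivity

theorem norm_aG {p c A b L : ℝ} (j : ℕ) {x : ℂ} (hc : 0 < c)
    (hA : p * c ^ 3 / 3 - c * x.re + c ≤ A) (hb : b ≤ p * c) (hL : |x.im| + 1 ≤ L) (y : ℝ) :
    ‖aG p j c x y‖ ≤ j ! * Real.exp A * gE b L y := by
  have h1 : ‖(c : ℂ) + y * I‖ ≤ c + |y| := by
    refine (norm_add_le _ _).trans (le_of_eq ?_)
    simp [abs_of_pos hc]
  have h2 : ‖(c : ℂ) + y * I‖ ^ j ≤ j ! * Real.exp (c + |y|) := by
    have := Real.pow_div_factorial_le_exp (c + |y|) (by positivity) j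
    rw [div_le_iff₀ (by positivity)] at this
    calc _ ≤ (c + |y|) ^ j := by gcongr
      _ ≤ _ := by linarith
  have h3 : (p * ((c : ℂ) + y * I) ^ 3 / 3 - ((c : ℂ) + y * I) * x).re =
      p * c ^ 3 / 3 - p * c * y ^ 2 - c * x.re + y * x.im := by
    simp [pow_succ]
    ring
  have h4 : y * x.im ≤ |y| * |x.im| := by rw [← abs_mul]; exact le_abs_self _
  have h5 : Real.exp (-b * y ^ 2 + L * |y|) ≤ gE b L y := by
    unfold gE
    rcases abs_cases y with h | h
    · rw [h.1]
      exact le_add_of_nonneg_right (Real.exp_pos _).le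
    · rw [h.1, mul_neg, ← neg_mul]
      exact le_add_of_nonneg_left (Real.exp_pos _).le
  unfold aG
  rw [norm_mul, norm_pow, norm_neg, Complex.norm_exp, h3]
  calc _ ≤ j ! * Real.exp (c + |y|) *
        Real.exp (p * c ^ 3 / 3 - p * c * y ^ 2 - c * x.re + y * x.im) := by gcongr
    _ ≤ j ! * Real.exp A * Real.exp (-b * y ^ 2 + L * |y|) := by
        rw [mul_assoc (j ! : ℝ), mul_assoc (j ! : ℝ), ← Real.exp_add, ← Real.exp_add]
        refine mul_le_mul_of_nonneg_left (Real.exp_le_exp.2 ?_) (Nat.cast_nonneg _)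
        have := mul_le_mul_of_nonneg_right hb (sq_nonneg y)
        have := mul_le_mul_of_nonneg_right hL (abs_nonneg y)
        nlinarith
    _ ≤ _ := by gcongr

theorem cont_aG (p : ℝ) (j : ℕ) (c : ℝ) (x : ℂ) : Continuous (aG p j c x) := by
  unfold aG
  fun_prop

theorem int_aG {p c : ℝ} (hp : 0 < p) (hc : 0 < c) (j : ℕ) (x : ℂ) : Integrable (aG p j c x) :=
  ((gE_int (mul_pos hp hc) (|x.im| + 1)).const_mul _).mono' (cont_aG p j c x).aestronglyMeasurable
    (ae_of_all _ (norm_aG j hc le_rfl le_rfl le_rfl))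

/-- Derivative of the integrand in the complex variable of integration. -/
noncomputable def aT (p : ℝ) (j : ℕ) (c : ℝ) (x : ℂ) (y : ℝ) : ℂ :=
  -(j * aG p (j - 1) c x y) + p * aG p (j + 2) c x y - x * aG p j c x y

theorem hasDerivAt_k (p : ℝ) (j : ℕ) (c : ℝ) (x : ℂ) (y : ℝ) :
    HasDerivAt (fun κ : ℂ => (-κ) ^ j * cexp (p * κ ^ 3 / 3 - κ * x)) (aT p j c x y)
      ((c : ℂ) + y * I) := by
  have h1 := ((hasDerivAt_id ((c : ℂ) + y * I)).neg.pow j).mul
    (((((hasDerivAt_id ((c : ℂ) + y * I)).pow 3).const_mul (p : ℂ)).div_const 3).sub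
      ((hasDerivAt_id ((c : ℂ) + y * I)).mul_const x)).cexp
  refine HasDerivAt.congr_deriv h1 ?_
  simp only [aT, aG, id, Pi.neg_apply, Pi.pow_apply, Pi.sub_apply]
  push_cast
  ring

theorem int_aT {p c : ℝ} (hp : 0 < p) (hc : 0 < c) (j : ℕ) (x : ℂ) : Integrable (aT p j c x) :=
  ((((int_aG hp hc (j - 1) x).const_mul _).neg).add ((int_aG hp hc (j + 2) x).const_mul _)).sub
    ((int_aG hp hc j x).const_mul _)

theorem integral_aT {p c : ℝ} (hp : 0 < p) (hc : 0 < c) (j : ℕ) (x : ℂ) :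
    ∫ y, aT p j c x y = 0 := by
  have h1 : ∀ y : ℝ, HasDerivAt (aG p j c x) (aT p j c x y * I) y := fun y => by
    have h2 : HasDerivAt (fun z : ℂ => (c : ℂ) + z * I) I (y : ℂ) := by
      simpa using ((hasDerivAt_id (y : ℂ)).mul_const I).const_add (c : ℂ)
    exact (HasDerivAt.comp (h₂ := fun κ : ℂ => (-κ) ^ j * cexp (p * κ ^ 3 / 3 - κ * x))
      (y : ℂ) (hasDerivAt_k p j c x y) h2).comp_ofReal
  have := integral_eq_zero_of_hasDerivAt_of_integrable h1 ((int_aT hp hc j x).mul_const I)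
    (int_aG hp hc j x)
  rw [integral_mul_const] at this
  simpa using this

theorem recur {p : ℝ} (hp : 0 < p) (j : ℕ) (x : ℂ) :
    p * Ai p (j + 2) x = x * Ai p j x + j * Ai p (j - 1) x := by
  have h := integral_aT hp one_pos j x
  unfold aT at h
  have a1 : Integrable fun y => -((j : ℂ) * aG p (j - 1) 1 x y) :=
    ((int_aG hp one_pos (j - 1) x).const_mul _).neg
  have a2 : Integrable fun y => (p : ℂ) * aG p (j + 2) 1 x y :=
    (int_aG hp one_pos (j + 2) x).const_mul _
  have a3 : Integrable fun y => -((j : ℂ) * aG p (j - 1) 1 x y) + (p : ℂ) * aG p (j + 2) 1 x y :=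
    a1.add a2
  rw [integral_sub a3 ((int_aG hp one_pos j x).const_mul _), integral_add a1 a2, integral_neg,
    integral_const_mul, integral_const_mul, integral_const_mul] at h
  unfold Ai
  linear_combination h

theorem shift_deriv {p c : ℝ} (hp : 0 < p) (hc : 0 < c) (j : ℕ) (x : ℂ) :
    HasDerivAt (fun t : ℝ => ∫ y, aG p j t x y) 0 c := by
  rw [← integral_aT hp hc j x]
  set A := p * (2 * c) ^ 3 / 3 + 2 * c * |x.re| + 2 * c with hA
  refine (hasDerivAt_integral_of_dominated_loc_of_deriv_le (s := Ioo (c / 2) (2 * c))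
    (F := fun t y => aG p j t x y) (F' := fun t y => aT p j t x y)
    (bound := fun y => (j * (j - 1)! + p * (j + 2)! + ‖x‖ * j !) * Real.exp A *
      gE (p * (c / 2)) (|x.im| + 1) y)
    (Ioo_mem_nhds (by linarith) (by linarith))
    (Eventually.of_forall fun t => (cont_aG p j t x).aestronglyMeasurable) (int_aG hp hc j x)
    (int_aT hp hc j x).aestronglyMeasurable (ae_of_all _ fun y t ht => ?_)
    ((gE_int (by positivity) _).const_mul _) (ae_of_all _ fun y t _ => ?_)).2
  · have ht0 : 0 < t := by linarith [ht.1]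
    have h1 : p * t ^ 3 / 3 - t * x.re + t ≤ A := by
      have a1 : t ^ 3 ≤ (2 * c) ^ 3 := pow_le_pow_left₀ ht0.le ht.2.le 3
      have a2 : p * t ^ 3 ≤ p * (2 * c) ^ 3 := mul_le_mul_of_nonneg_left a1 hp.le
      have a3 : -(t * x.re) ≤ t * |x.re| := by
        rw [← mul_neg]; exact mul_le_mul_of_nonneg_left (neg_le_abs _) ht0.le
      have a4 : t * |x.re| ≤ 2 * c * |x.re| := mul_le_mul_of_nonneg_right ht.2.le (abs_nonneg _)
      rw [hA]
      linarith [ht.2]
    have h2 : p * (c / 2) ≤ p * t := mul_le_mul_of_nonneg_left ht.1.le hp.le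
    have b := fun i => norm_aG (L := |x.im| + 1) i ht0 h1 h2 le_rfl y
    unfold aT
    refine (norm_sub_le _ _).trans ((add_le_add_left (norm_add_le _ _) _).trans ?_)
    rw [norm_neg, norm_mul, norm_mul, norm_mul, Complex.norm_natCast, Complex.norm_real,
      Real.norm_of_nonneg hp.le]
    calc _ ≤ j * ((j - 1)! * Real.exp A * gE (p * (c / 2)) (|x.im| + 1) y) +
          p * ((j + 2)! * Real.exp A * gE (p * (c / 2)) (|x.im| + 1) y) +
          ‖x‖ * (j ! * Real.exp A * gE (p * (c / 2)) (|x.im| + 1) y) := by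
          gcongr <;> exact b _
      _ = _ := by ring
  · have h2 : HasDerivAt (fun z : ℂ => z + y * I) 1 (t : ℂ) := (hasDerivAt_id _).add_const _
    have := (HasDerivAt.comp (h₂ := fun κ : ℂ => (-κ) ^ j * cexp (p * κ ^ 3 / 3 - κ * x))
      (t : ℂ) (hasDerivAt_k p j t x y) h2).comp_ofReal
    rw [mul_one] at this
    exact this

theorem shift {p c : ℝ} (hp : 0 < p) (hc : 0 < c) (j : ℕ) (x : ℂ) :
    Ai p j x = ∫ y : ℝ, aG p j c x y :=
  isOpen_Ioi.is_const_of_deriv_eq_zero (f := fun t : ℝ => ∫ y, aG p j t x y) isPreconnected_Ioi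
    (fun _ ht => (shift_deriv hp ht j x).differentiableAt.differentiableWithinAt)
    (fun _ ht => (shift_deriv hp ht j x).deriv) (mem_Ioi.2 one_pos) (mem_Ioi.2 hc)

theorem deriv_Ai {p : ℝ} (hp : 0 < p) (j : ℕ) (x : ℂ) :
    HasDerivAt (Ai p j) (Ai p (j + 1) x) x := by
  refine (hasDerivAt_integral_of_dominated_loc_of_deriv_le (s := Metric.ball x 1)
    (F := fun z y => aG p j 1 z y) (F' := fun z y => aG p (j + 1) 1 z y)
    (bound := fun y => (j + 1)! * Real.exp (p / 3 + ‖x‖ + 2) * gE p (‖x‖ + 2) y)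
    (Metric.ball_mem_nhds x one_pos)
    (Eventually.of_forall fun z => (cont_aG p j 1 z).aestronglyMeasurable) (int_aG hp one_pos j x)
    (cont_aG p (j + 1) 1 x).aestronglyMeasurable (ae_of_all _ fun y z hz => ?_)
    ((gE_int hp _).const_mul _) (ae_of_all _ fun y z _ => ?_)).2
  · have h1 : ‖z‖ ≤ ‖x‖ + 1 := by
      have := norm_le_norm_add_norm_sub' z x
      rw [Metric.mem_ball, dist_eq_norm] at hz
      linarith
    have h2 := Complex.abs_re_le_norm z
    have h3 := Complex.abs_im_le_norm z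
    refine norm_aG (j + 1) one_pos ?_ (by simp) (by linarith) y
    have := neg_le_abs z.re
    linarith
  · have h1 := (((hasDerivAt_id z).const_mul (((1 : ℝ) : ℂ) + y * I)).const_sub
      (p * (((1 : ℝ) : ℂ) + y * I) ^ 3 / 3)).cexp.const_mul ((-(((1 : ℝ) : ℂ) + y * I)) ^ j)
    refine HasDerivAt.congr_deriv h1 ?_
    simp only [aG, id]
    ring

theorem bound {p c : ℝ} (hp : 0 < p) (hc : 0 < c) (j : ℕ) (x : ℂ) :
    ‖Ai p j x‖ ≤ 2 * j ! * √(π / (p * c)) *
      Real.exp (p * c ^ 3 / 3 - c * x.re + c + (|x.im| + 1) ^ 2 / (4 * p * c)) := by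
  rw [shift hp hc]
  refine (norm_integral_le_of_norm_le ((gE_int (mul_pos hp hc) (|x.im| + 1)).const_mul _)
    (ae_of_all _ (norm_aG j hc le_rfl le_rfl le_rfl))).trans (le_of_eq ?_)
  rw [integral_const_mul, gE_val (mul_pos hp hc), Real.exp_add _ (_ / _), mul_assoc 4]
  ring

theorem ne_zero : Ai 1 0 ≠ 0 := by
  intro h
  have h1 : 𝓕 (aG 1 0 1 0) = 0 := by
    funext w
    have h2 : Ai 1 0 (2 * π * w : ℝ) = cexp (-(2 * π * w : ℝ)) * 𝓕 (aG 1 0 1 0) w := by
      rw [Real.fourier_real_eq_integral_exp_smul, ← integral_const_mul]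
      refine integral_congr_ae (ae_of_all _ fun y => ?_)
      simp only [aG, pow_zero, one_mul, smul_eq_mul, ← Complex.exp_add]
      congr 1
      push_cast
      ring
    rw [h] at h2
    simpa using h2
  have h3 := (cont_aG 1 0 1 0).fourierInv_fourier_eq (int_aG one_pos one_pos 0 0)
    (by rw [h1]; exact integrable_zero _ _ _)
  rw [h1] at h3
  have h4 := congrFun h3 0
  rw [Real.fourierInv_eq] at h4
  simp [aG] at h4
  exact Complex.exp_ne_zero _ h4.symm

theorem simple {z : ℂ} (h0 : Ai 1 0 z = 0) : Ai 1 1 z ≠ 0 := by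
  intro h1
  have ha : ∀ j, Ai 1 j z = 0 := by
    intro j
    induction j using Nat.strong_induction_on with
    | _ j ih =>
      match j with
      | 0 => exact h0
      | 1 => exact h1
      | j + 2 =>
        have := recur one_pos j z
        rw [ih j (by omega), ih (j - 1) (by omega)] at this
        simpa using this
  have hi : ∀ j, iteratedDeriv j (Ai 1 0) = Ai 1 j := by
    intro j
    induction j with
    | zero => simp
    | succ j ih =>
      rw [iteratedDeriv_succ, ih]
      exact funext fun x => (deriv_Ai one_pos j x).deriv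
  refine ne_zero (funext fun x => ?_)
  rw [← Complex.taylorSeries_eq_of_entire' z x
    (fun w => (deriv_Ai one_pos 0 w).differentiableAt)]
  simp [hi, ha]

theorem im_zero (x : ℝ) : (Ai 1 0 x).im = 0 := by
  rw [← Complex.conj_eq_iff_im]
  unfold Ai
  rw [← integral_conj, ← integral_neg_eq_self]
  refine integral_congr_ae (ae_of_all _ fun y => ?_)
  simp only [aG, pow_zero, one_mul, ← Complex.exp_conj]
  congr 1
  simp [Complex.conj_ofNat]

theorem anti {g g' : ℝ → ℝ} {a x : ℝ} (hd : ∀ x, HasDerivAt g (g' x) x)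
    (h : ∀ x ≤ a, g' x ≤ 0) (hx : x ≤ a) : g a ≤ g x :=
  antitoneOn_of_deriv_nonpos (convex_Iic a)
    (fun y _ => (hd y).continuousAt.continuousWithinAt)
    (fun y _ => (hd y).differentiableAt.differentiableWithinAt)
    (fun y hy => by rw [(hd y).deriv]; exact h y (mem_Iic.1 (interior_subset hy))) hx self_mem_Iic hx

theorem not_pos {f g : ℝ → ℝ} (hf : ∀ x, HasDerivAt f (g x) x)
    (hg : ∀ x, HasDerivAt g (x * f x) x) (hpos : ∀ x, 0 < f x) : False := by
  have h1 : ∀ a ≤ 0, g a ≤ 0 := by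
    intro a ha
    by_contra hm
    push Not at hm
    have h2 : ∀ x ≤ a, g a - g x ≤ 0 := fun x hx => sub_nonpos.2 (anti hg
      (fun y hy => mul_nonpos_of_nonpos_of_nonneg (hy.trans ha) (hpos y).le) hx)
    have h3 := anti (g := fun x => g a * x - f x) (g' := fun x => g a - g x)
      (fun x => (((hasDerivAt_id x).const_mul (g a)).sub (hf x)).congr_deriv (by simp)) h2
      (x := a - f a / g a) (sub_le_self _ (div_pos (hpos a) hm).le)
    have h4 := hpos (a - f a / g a)
    have h5 : g a * (a - f a / g a) = g a * a - f a := by field_simp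
    linarith
  have hm := hpos (-1)
  have h2 : ∀ x ≤ -1, x * f x + f (-1) ≤ 0 := fun x hx => by
    have := anti hf (fun y hy => h1 y (hy.trans (by norm_num))) hx
    nlinarith
  have h6 : 0 < (|g (-1)| + 1) / f (-1) := by positivity
  have h3 := anti (g := fun x => g x + f (-1) * x) (g' := fun x => x * f x + f (-1))
    (fun x => ((hg x).add ((hasDerivAt_id x).const_mul (f (-1)))).congr_deriv (by simp)) h2
    (x := -1 - (|g (-1)| + 1) / f (-1)) (sub_le_self _ h6.le)
  have h4 := h1 (-1 - (|g (-1)| + 1) / f (-1)) (by linarith)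
  have h5 : f (-1) * (-1 - (|g (-1)| + 1) / f (-1)) = -f (-1) - (|g (-1)| + 1) := by field_simp
  have := neg_abs_le (g (-1))
  linarith

theorem exists_zero {f g : ℝ → ℝ} (hf : ∀ x, HasDerivAt f (g x) x)
    (hg : ∀ x, HasDerivAt g (x * f x) x) : ∃ x, f x = 0 := by
  by_contra hne
  push Not at hne
  have hc : Continuous f := continuous_iff_continuousAt.2 fun x => (hf x).continuousAt
  by_cases hp : ∀ x, 0 < f x
  · exact not_pos hf hg hp
  push Not at hp
  obtain ⟨a, ha⟩ := hp
  refine not_pos (f := fun x => -f x) (g := fun x => -g x) (fun x => (hf x).neg)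
    (fun x => (hg x).neg.congr_deriv (by simp)) fun b => ?_
  by_contra hb
  push Not at hb
  obtain ⟨x, hx⟩ := intermediate_value_univ a b hc (show (0 : ℝ) ∈ Icc (f a) (f b) from ⟨ha, by linarith⟩)
  exact hne x hx

end AiryP

open AiryP

theorem airy : S_Airy := fun _ hp =>
  ⟨fun j _ x hc => shift hp hc j x, deriv_Ai hp, fun x => by simpa using recur hp 0 x,
    fun j _ x hc => bound hp hc j x⟩

theorem zero : S_Zero := by
  obtain ⟨x, hx⟩ := exists_zero (f := fun x : ℝ => (Ai 1 0 x).re) (g := fun x : ℝ => (Ai 1 1 x).re)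
    (fun x => (deriv_Ai one_pos 0 x).real_of_complex) fun x => by
      have h1 := (deriv_Ai one_pos 1 x).real_of_complex
      have h2 : Ai 1 (1 + 1) x = x * Ai 1 0 x := by simpa using recur one_pos 0 x
      rw [h2, Complex.re_ofReal_mul] at h1
      exact h1
  have h0 : Ai 1 0 x = 0 := Complex.ext hx (im_zero x)
  exact ⟨x, h0, simple h0⟩

end Pool.Agent.P.MP_e0c037_lc.R3
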