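import Pool.Agent.P.MP_e0c037_lc.R3.Ser
import Pool.Agent.P.MP_e0c037_lc.R3.Airy

/-! Radial integrals against the Airy function and the differential equation they satisfy. -/

namespace Pool.Agent.P.MP_e0c037_lc.R3

open Complex MeasureTheory Set Filter Topology
open scoped Nat Real

/-- The integrand. -/
noncomputable def fI (q : ℝ) (e : ℕ → ℕ → ℂ) (j : ℕ) (s : ℝ) (x σ : ℂ) (ρ : ℝ) : ℂ :=
  ((ρ ^ s : ℝ) : ℂ) * Sr e (σ * ρ) (ρ ^ 3 / 3) * Ai q j (x + ρ ^ 2)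

/-- The radial integral. -/
noncomputable def FI (q : ℝ) (e : ℕ → ℕ → ℂ) (j : ℕ) (s : ℝ) (x σ : ℂ) : ℂ :=
  ∫ ρ in Ioi (0 : ℝ), fI q e j s x σ ρ

/-- The majorant. -/
noncomputable def mj (s δ L ρ : ℝ) : ℝ := ρ ^ s * Real.exp (-δ * ρ ^ 3 + L * ρ)

theorem mj_int0 {s δ : ℝ} (hs : -1 < s) (hδ : 0 < δ) : IntegrableOn (mj s δ 0) (Ioi 0) := by
  have := integrableOn_rpow_mul_exp_neg_mul_rpow (p := 3) hs (by norm_num) hδ
  unfold mj
  simpa using this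

theorem mj_le {s δ L B ρ : ℝ} (hρ : 0 < ρ) (h : L * ρ ≤ δ / 2 * ρ ^ 3 + B) :
    mj s δ L ρ ≤ Real.exp B * mj s (δ / 2) 0 ρ := by
  rw [mj, mj, mul_left_comm, ← Real.exp_add]
  exact mul_le_mul_of_nonneg_left (Real.exp_le_exp.2 (by linarith)) (by positivity)

theorem mj_int {s δ : ℝ} (hs : -1 < s) (hδ : 0 < δ) (L : ℝ) : IntegrableOn (mj s δ L) (Ioi 0) := by
  refine ((mj_int0 hs (half_pos hδ)).const_mul (Real.exp (|L| * (2 * |L| / δ + 1)))).mono'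
    (Measurable.aestronglyMeasurable (by unfold mj; fun_prop))
    ((ae_restrict_iff' measurableSet_Ioi).2 (ae_of_all _ fun ρ (hρ : 0 < ρ) => ?_))
  rw [Real.norm_of_nonneg (by unfold mj; positivity)]
  refine mj_le hρ ((mul_le_mul_of_nonneg_right (le_abs_self L) hρ.le).trans ?_)
  have h0 : 0 ≤ 2 * |L| / δ := by positivity
  rcases le_total ρ (2 * |L| / δ + 1) with h | h
  · have := mul_le_mul_of_nonneg_left h (abs_nonneg L)
    have : 0 ≤ δ / 2 * ρ ^ 3 := by positivity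
    linarith
  · have h1 : 2 * |L| ≤ ρ * δ := (div_le_iff₀ hδ).1 (by linarith)
    have h2 : ρ ^ 2 ≤ ρ ^ 3 := pow_le_pow_right₀ (by linarith) (by norm_num)
    have : 0 ≤ |L| * (2 * |L| / δ + 1) := by positivity
    nlinarith [mul_le_mul_of_nonneg_right h1 hρ.le, mul_le_mul_of_nonneg_left h2 hδ.le]

theorem Ai_loc {t : ℝ} (ht : 0 < t) (j : ℕ) {M : ℝ} (hM : 0 ≤ M) : ∃ K L, 0 ≤ K ∧ ∀ (x : ℂ) (ρ : ℝ),
    ‖x‖ ≤ M → 0 < ρ → ‖Ai (t ^ 2) j (x + ρ ^ 2)‖ ≤ K * Real.exp (-(2 / (3 * t)) * ρ ^ 3 + L * ρ) := by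
  refine ⟨2 * j ! * √(π / t) * Real.exp ((M + 2) / t + (M + 1) ^ 2 / (4 * t)), (M + 2) / t,
    by positivity, fun x ρ hx hρ => ?_⟩
  refine ((airy _ (by positivity)).2.2.2 j ((ρ + 1) / t) _ (by positivity)).trans ?_
  have e1 : (x + (ρ : ℂ) ^ 2).re = x.re + ρ ^ 2 := by simp [sq]
  have e2 : (x + (ρ : ℂ) ^ 2).im = x.im := by simp [sq]
  have h1 : -M ≤ x.re := (abs_le.1 ((abs_re_le_norm x).trans hx)).1
  have h2 : |x.im| ≤ M := (abs_im_le_norm x).trans hx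
  have h3 : t ≤ t ^ 2 * ((ρ + 1) / t) := by
    rw [show t ^ 2 * ((ρ + 1) / t) = t * (ρ + 1) by field_simp]; nlinarith
  rw [e1, e2, mul_assoc _ (Real.exp _), ← Real.exp_add]
  refine mul_le_mul (by gcongr) (Real.exp_le_exp.2 ?_) (by positivity) (by positivity)
  have h4 : (|x.im| + 1) ^ 2 / (4 * t ^ 2 * ((ρ + 1) / t)) ≤ (M + 1) ^ 2 / (4 * t) := by
    rw [mul_assoc]; gcongr
  have h5 : t ^ 2 * ((ρ + 1) / t) ^ 3 / 3 - (ρ + 1) / t * (x.re + ρ ^ 2) + (ρ + 1) / t =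
      -(2 / (3 * t)) * ρ ^ 3 + ((ρ + 1) * (1 - x.re) + ρ + 1 / 3) / t := by field_simp; ring
  have h6 : ((ρ + 1) * (1 - x.re) + ρ + 1 / 3) / t ≤ ((M + 2) + (M + 2) * ρ) / t :=
    div_le_div_of_nonneg_right (by nlinarith) ht.le
  rw [add_div (M + 2), mul_div_right_comm] at h6
  linarith

variable {q t C y τ s : ℝ} {e : ℕ → ℕ → ℂ} {j : ℕ} {x σ : ℂ}

theorem norm_fI (h : Bdd e C y τ) (hy : 0 ≤ y) (hτ : 0 ≤ τ) {K L M β ρ : ℝ} (hρ : 0 < ρ)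
    (hσ : ‖σ‖ ≤ M) (hA : ‖Ai q j (x + ρ ^ 2)‖ ≤ K * Real.exp (-β * ρ ^ 3 + L * ρ)) :
    ‖fI q e j s x σ ρ‖ ≤ C * K * mj s (β - τ / 3) (y * M + L) ρ := by
  have h1 := h.norm_le hy hτ (σ * ρ) (ρ ^ 3 / 3)
  have := h.nonneg
  simp only [norm_mul, norm_div, norm_pow, Complex.norm_real, Real.norm_of_nonneg hρ.le,
    Complex.norm_ofNat] at h1
  rw [fI, norm_mul, norm_mul, Complex.norm_real, Real.norm_of_nonneg (by positivity)]
  calc _ ≤ ρ ^ s * (C * Real.exp (y * (M * ρ) + τ * (ρ ^ 3 / 3))) *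
        (K * Real.exp (-β * ρ ^ 3 + L * ρ)) := by
        gcongr
        exact h1.trans (by gcongr)
    _ = _ := by
        rw [mj, show -(β - τ / 3) * ρ ^ 3 + (y * M + L) * ρ =
          y * (M * ρ) + τ * (ρ ^ 3 / 3) + (-β * ρ ^ 3 + L * ρ) by ring, Real.exp_add _ (_ + _)]
        ring

theorem Bdd.radial (h : Bdd e C y τ) (hy : 0 ≤ y) (hτ : 0 ≤ τ) (σ : ℂ) (ρ : ℝ) :
    HasDerivAt (fun ρ : ℝ => Sr e (σ * ρ) (ρ ^ 3 / 3))
      (σ * Sr (R3.s1 e) (σ * ρ) (ρ ^ 3 / 3) + ρ ^ 2 * Sr (R3.s2 e) (σ * ρ) (ρ ^ 3 / 3)) ρ :=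
  (h.hasDerivAt hy hτ (f := fun w => σ * w) (g := fun w => w ^ 3 / 3) (by fun_prop) (by fun_prop)
    (by simpa using (hasDerivAt_id (ρ : ℂ)).const_mul σ)
    (by simpa using (hasDerivAt_pow 3 (ρ : ℂ)).div_const 3)).comp_ofReal

theorem Ai_radial (hq : 0 < q) (j : ℕ) (x : ℂ) (ρ : ℝ) :
    HasDerivAt (fun ρ : ℝ => Ai q j (x + ρ ^ 2)) (Ai q (j + 1) (x + ρ ^ 2) * (2 * ρ)) ρ :=
  (((airy q hq).2.1 j _).comp (h := fun w : ℂ => x + w ^ 2) (ρ : ℂ)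
    (by simpa using (hasDerivAt_pow 2 (ρ : ℂ)).const_add x)).comp_ofReal

theorem meas_fI (hq : 0 < q) (h : Bdd e C y τ) (hy : 0 ≤ y) (hτ : 0 ≤ τ) :
    AEStronglyMeasurable (fI q e j s x σ) (volume.restrict (Ioi 0)) :=
  ((Measurable.aestronglyMeasurable (by fun_prop)).mul
    (continuous_iff_continuousAt.2 fun ρ => (h.radial hy hτ σ ρ).continuousAt).aestronglyMeasurable).mul
    (continuous_iff_continuousAt.2 fun ρ => (Ai_radial hq j x ρ).continuousAt).aestronglyMeasurable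

theorem del_pos (ht : 0 < t) (h : τ * t < 2) : 0 < 2 / (3 * t) - τ / 3 := by
  rw [show 2 / (3 * t) - τ / 3 = (2 - τ * t) / (3 * t) by field_simp]
  exact div_pos (by linarith) (by positivity)

theorem int_fI (ht : 0 < t) (h : Bdd e C y τ) (hy : 0 ≤ y) (hτ : 0 ≤ τ) (h2 : τ * t < 2)
    (hs : -1 < s) : IntegrableOn (fI (t ^ 2) e j s x σ) (Ioi 0) := by
  obtain ⟨K, L, -, hK⟩ := Ai_loc ht j (norm_nonneg x)
  exact ((mj_int hs (del_pos ht h2) _).const_mul _).mono' (meas_fI (by positivity) h hy hτ)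
    ((ae_restrict_iff' measurableSet_Ioi).2 (ae_of_all _ fun ρ hρ =>
      norm_fI h hy hτ hρ le_rfl (hK x ρ le_rfl hρ)))

theorem deriv_FI (ht : 0 < t) (h : Bdd e C y τ) (hy : 0 ≤ y) (hτ : 0 ≤ τ) (h2 : τ * t < 2)
    (hs : -1 < s) (j : ℕ) (x l m w : ℂ) :
    HasDerivAt (fun w => FI (t ^ 2) e j s (x + l * w) (m * w))
      (m * FI (t ^ 2) (s1 e) j (s + 1) (x + l * w) (m * w) +
        l * FI (t ^ 2) e (j + 1) s (x + l * w) (m * w)) w := by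
  have hq : 0 < t ^ 2 := by positivity
  obtain ⟨K, L, -, hK⟩ := Ai_loc ht j (M := ‖x‖ + ‖l‖ * (‖w‖ + 1)) (by positivity)
  obtain ⟨K', L', -, hK'⟩ := Ai_loc ht (j + 1) (M := ‖x‖ + ‖l‖ * (‖w‖ + 1)) (by positivity)
  have i1 := int_fI (j := j) (x := x + l * w) (σ := m * w) ht h.s1 hy hτ h2 (by linarith : -1 < s + 1)
  have i2 := int_fI (j := j + 1) (x := x + l * w) (σ := m * w) ht h hy hτ h2 hs
  have := (hasDerivAt_integral_of_dominated_loc_of_deriv_le (μ := volume.restrict (Ioi 0))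
    (F := fun w => fI (t ^ 2) e j s (x + l * w) (m * w))
    (F' := fun w ρ => m * fI (t ^ 2) (s1 e) j (s + 1) (x + l * w) (m * w) ρ +
      l * fI (t ^ 2) e (j + 1) s (x + l * w) (m * w) ρ) (Metric.ball_mem_nhds w one_pos)
    (Eventually.of_forall fun _ => meas_fI hq h hy hτ) (int_fI ht h hy hτ h2 hs)
    ((i1.const_mul m).add (i2.const_mul l)).aestronglyMeasurable
    ((ae_restrict_iff' measurableSet_Ioi).2 (ae_of_all _ fun ρ hρ u hu => ?_))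
    ((((mj_int (by linarith : -1 < s + 1) (del_pos ht h2) (y * (‖m‖ * (‖w‖ + 1)) + L)).const_mul
      (C * y * K)).const_mul ‖m‖).add (((mj_int hs (del_pos ht h2)
        (y * (‖m‖ * (‖w‖ + 1)) + L')).const_mul (C * K')).const_mul ‖l‖))
    ((ae_restrict_iff' measurableSet_Ioi).2 (ae_of_all _ fun ρ hρ u _ => ?_))).2
  · rwa [integral_add (i1.const_mul m) (i2.const_mul l), integral_const_mul, integral_const_mul] at this
  · have h3 : ‖u‖ ≤ ‖w‖ + 1 := (norm_lt_of_mem_ball hu).le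
    have h4 : ‖x + l * u‖ ≤ ‖x‖ + ‖l‖ * (‖w‖ + 1) :=
      (norm_add_le _ _).trans (by rw [norm_mul]; gcongr)
    have h5 : ‖m * u‖ ≤ ‖m‖ * (‖w‖ + 1) := by rw [norm_mul]; gcongr
    refine (norm_add_le _ _).trans ?_
    rw [norm_mul, norm_mul]
    exact add_le_add
      (mul_le_mul_of_nonneg_left (norm_fI h.s1 hy hτ hρ h5 (hK _ ρ h4 hρ)) (norm_nonneg _))
      (mul_le_mul_of_nonneg_left (norm_fI h hy hτ hρ h5 (hK' _ ρ h4 hρ)) (norm_nonneg _))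
  · have d1 := h.hasDerivAt hy hτ (f := fun w => m * w * ρ) (g := fun _ => (ρ : ℂ) ^ 3 / 3)
      (by fun_prop) (by fun_prop) (((hasDerivAt_id u).const_mul m).mul_const _)
      (hasDerivAt_const u _)
    have d2 := ((airy _ hq).2.1 j (x + l * u + ρ ^ 2)).comp u
      ((((hasDerivAt_id u).const_mul l).const_add x).add_const ((ρ : ℂ) ^ 2))
    refine ((d1.const_mul ((ρ ^ s : ℝ) : ℂ)).mul d2).congr_deriv ?_
    simp only [fI, Real.rpow_add_one (ne_of_gt hρ), Function.comp, id]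
    push_cast
    ring

theorem ibp (ht : 0 < t) (hq : 2 < t ^ 2) (h : Bdd e C y τ) (hy : 0 ≤ y) (hτ : 0 ≤ τ)
    (h2 : τ * t < 2) (hr : RecE (t ^ 2) e) (x σ : ℂ) :
    FI (t ^ 2) (s1 (s1 e)) 0 (t ^ 2 - 2 + 1 + 1) x σ +
      2 * FI (t ^ 2) (s1 e) 1 (t ^ 2 - 2 + 1) x σ + FI (t ^ 2) e 2 (t ^ 2 - 2) x σ =
      ((1 - 1 / (t ^ 2 : ℝ)) * σ + x / (t ^ 2 : ℝ)) * FI (t ^ 2) e 0 (t ^ 2 - 2) x σ := by
  have i1 := int_fI (j := 0) (x := x) (σ := σ) ht h.s1.s1 hy hτ h2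
    (by linarith : -1 < t ^ 2 - 2 + 1 + 1)
  have i2 := (int_fI (j := 1) (x := x) (σ := σ) ht h.s1 hy hτ h2
    (by linarith : -1 < t ^ 2 - 2 + 1)).const_mul 2
  have i3 := int_fI (j := 2) (x := x) (σ := σ) ht h hy hτ h2 (by linarith : -1 < t ^ 2 - 2)
  have i4 := (int_fI (j := 0) (x := x) (σ := σ) ht h hy hτ h2
    (by linarith : -1 < t ^ 2 - 2)).const_mul ((1 - 1 / (t ^ 2 : ℝ)) * σ + x / (t ^ 2 : ℝ))
  have i5 := int_fI (j := 0) (x := x) (σ := σ) ht h.s1 hy hτ h2 (by linarith : -1 < t ^ 2 - 2)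
  generalize t ^ 2 = q at *
  have hq0 : (q : ℂ) ≠ 0 := by exact_mod_cast (by linarith : q ≠ 0)
  have hd : ∀ ρ ∈ Ioi (0 : ℝ), HasDerivAt (fI q (s1 e) 0 (q - 2) x σ)
      (fI q (s1 (s1 e)) 0 (q - 2 + 1 + 1) x σ ρ + 2 * fI q (s1 e) 1 (q - 2 + 1) x σ ρ +
        fI q e 2 (q - 2) x σ ρ - ((1 - 1 / q) * σ + x / q) * fI q e 0 (q - 2) x σ ρ) ρ := by
    intro ρ hρ
    have hρ0 : ρ ≠ 0 := ne_of_gt hρ
    refine ((((Real.hasDerivAt_rpow_const (p := q - 2) (Or.inl hρ0)).ofReal_comp).mul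
      (h.s1.radial hy hτ σ ρ)).mul (Ai_radial (by linarith) 0 x ρ)).congr_deriv ?_
    have e1 : ρ ^ (q - 2) = ρ ^ (q - 2 - 1) * ρ := by rw [← Real.rpow_add_one hρ0]; congr 1; ring
    have e2 := h.pde hy hτ hr (σ * ρ) (ρ ^ 3 / 3)
    have e3 : Ai q 2 (x + ρ ^ 2) = (x + ρ ^ 2) / q * Ai q 0 (x + ρ ^ 2) := by
      rw [div_mul_eq_mul_div, ← (airy q (by linarith)).2.2.1, mul_div_cancel_left₀ _ hq0]
    simp only [fI, Real.rpow_add_one hρ0, e1, e3, Pi.mul_apply, zero_add]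
    push_cast
    linear_combination ((ρ ^ (q - 2 - 1) : ℝ) : ℂ) * Ai q 0 (x + ρ ^ 2) * e2
  have hi := ((i1.add i2).add i3).sub i4
  have hc : Continuous (fI q (s1 e) 0 (q - 2) x σ) :=
    ((continuous_ofReal.comp (Real.continuous_rpow_const (by linarith))).mul
      (continuous_iff_continuousAt.2 fun ρ => (h.s1.radial hy hτ σ ρ).continuousAt)).mul
      (continuous_iff_continuousAt.2 fun ρ => (Ai_radial (by linarith) 0 x ρ).continuousAt)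
  have := integral_Ioi_of_hasDerivAt_of_tendsto hc.continuousWithinAt hd hi
    (tendsto_zero_of_hasDerivAt_of_integrableOn_Ioi hd hi i5)
  have j1 := integral_sub ((i1.add i2).add i3) i4
  have j2 := integral_add (i1.add i2) i3
  simp only [Pi.add_apply] at j1 j2
  rw [j1, j2, integral_add i1 i2,
    integral_const_mul, integral_const_mul, fI, Real.zero_rpow (by linarith)] at this
  simpa [FI, sub_eq_zero] using this

/-- The solution of the Airy equation in `σ`. -/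
noncomputable def H0 (q : ℝ) (e : ℕ → ℕ → ℂ) (ζ σ : ℂ) : ℂ :=
  FI q e 0 (q - 2) (q * ζ + 1 * σ) (1 * σ)

/-- Its derivative. -/
noncomputable def H1 (q : ℝ) (e : ℕ → ℕ → ℂ) (ζ σ : ℂ) : ℂ :=
  FI q (s1 e) 0 (q - 2 + 1) (q * ζ + 1 * σ) (1 * σ) + FI q e 1 (q - 2) (q * ζ + 1 * σ) (1 * σ)

/-- The Wronskian. -/
noncomputable def Wr (q : ℝ) (e : ℕ → ℕ → ℂ) (ζ σ : ℂ) : ℂ :=
  Ai 1 0 (ζ + σ) * H1 q e ζ σ - Ai 1 1 (ζ + σ) * H0 q e ζ σ

theorem Wr_const (ht : 0 < t) (hq : 2 < t ^ 2) (h : Bdd e C y τ) (hy : 0 ≤ y) (hτ : 0 ≤ τ)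
    (h2 : τ * t < 2) (hr : RecE (t ^ 2) e) (ζ σ : ℂ) : Wr (t ^ 2) e ζ σ = Wr (t ^ 2) e ζ 0 := by
  have hd : ∀ σ, HasDerivAt (Wr (t ^ 2) e ζ) 0 σ := by
    intro σ
    have d0 := deriv_FI ht h hy hτ h2 (by linarith : -1 < t ^ 2 - 2) 0 ((t ^ 2 : ℝ) * ζ) 1 1 σ
    have d1 := (deriv_FI ht h.s1 hy hτ h2 (by linarith : -1 < t ^ 2 - 2 + 1) 0 ((t ^ 2 : ℝ) * ζ) 1 1
      σ).add (deriv_FI ht h hy hτ h2 (by linarith : -1 < t ^ 2 - 2) 1 ((t ^ 2 : ℝ) * ζ) 1 1 σ)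
    have a0 := ((airy 1 one_pos).2.1 0 (ζ + σ)).comp σ ((hasDerivAt_id σ).const_add ζ)
    have a1 := ((airy 1 one_pos).2.1 1 (ζ + σ)).comp σ ((hasDerivAt_id σ).const_add ζ)
    have e1 := ibp ht hq h hy hτ h2 hr ((t ^ 2 : ℝ) * ζ + 1 * σ) (1 * σ)
    have e2 := (airy 1 one_pos).2.2.1 (ζ + σ)
    have hq0 : ((t ^ 2 : ℝ) : ℂ) ≠ 0 := by exact_mod_cast (by linarith : t ^ 2 ≠ 0)
    rw [show (1 - 1 / ((t ^ 2 : ℝ) : ℂ)) * (1 * σ) + ((t ^ 2 : ℝ) * ζ + 1 * σ) / (t ^ 2 : ℝ) = ζ + σ by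
      field_simp; ring] at e1
    refine ((a0.mul d1).sub (a1.mul d0)).congr_deriv ?_
    simp only [Function.comp, Pi.add_apply, zero_add, ofReal_one, one_add_one_eq_two] at e2 ⊢
    linear_combination Ai 1 0 (ζ + σ) * e1 -
      FI (t ^ 2) e 0 (t ^ 2 - 2) ((t ^ 2 : ℝ) * ζ + 1 * σ) (1 * σ) * e2
  exact is_const_of_deriv_eq_zero (fun σ => (hd σ).differentiableAt) (fun σ => (hd σ).deriv) _ _

end Pool.Agent.P.MP_e0c037_lc.R3
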