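import Pool.Agent.P.MP_e0c037_lc.R3.Sub
import Pool.Agent.P.MP_e0c037_lc.R3.Stm

/-! The graph attached to a constraint satisfaction problem; the sign of its dichromatic polynomial
is the sign of a weighted count of solutions. -/

namespace Pool.Agent.P.MP_e0c037_lc.R3

open Finset Polynomial

theorem SL_bij {D D' n n' : ℕ} {w : List ℕ → ℝ} (φ : List ℕ → List ℕ)
    (h1 : ∀ l : List ℕ, l.length = n → (∀ c ∈ l, c < D) → (φ l).length = n' ∧ ∀ c ∈ φ l, c < D')
    (h2 : ∀ l l' : List ℕ, l.length = n → (∀ c ∈ l, c < D) → l'.length = n → (∀ c ∈ l', c < D) →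
      φ l = φ l' → l = l')
    (h3 : ∀ r, w r ≠ 0 → ∃ l : List ℕ, l.length = n ∧ (∀ c ∈ l, c < D) ∧ r = φ l) :
    SL D' n' w = SL D n fun l => w (φ l) := by
  have key : ∀ D n : ℕ, ∃ S : Finset (List ℕ), (∀ l, l ∈ S ↔ l.length = n ∧ ∀ c ∈ l, c < D) ∧
      ∀ w, SL D n w = ∑ l ∈ S, w l := by
    intro D n
    refine ⟨univ.image fun σ : Fin n → Fin D => List.ofFn fun i => (σ i : ℕ), fun l => ?_,
      fun w => ?_⟩
    · simp only [mem_image, mem_univ, true_and]
      constructor
      · rintro ⟨σ, rfl⟩; simp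
      · rintro ⟨rfl, h⟩
        exact ⟨fun i => ⟨l[i], h _ (List.getElem_mem _)⟩, by simp⟩
    · rw [SL_ofFn, sum_image fun σ _ τ _ h =>
        funext fun i => Fin.ext (congrFun (List.ofFn_injective h) i)]
  obtain ⟨S, s1, s2⟩ := key D n
  obtain ⟨S', t1, t2⟩ := key D' n'
  rw [s2, t2]
  symm
  refine sum_of_injOn φ (fun l hl l' hl' => ?_) (fun l hl => ?_) (fun r _ hr => ?_) fun _ _ => rfl
  · exact h2 l l' ((s1 l).1 hl).1 ((s1 l).1 hl).2 ((s1 l').1 hl').1 ((s1 l').1 hl').2
  · exact (t1 _).2 (h1 l ((s1 l).1 hl).1 ((s1 l).1 hl).2)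
  · by_contra h
    obtain ⟨l, a, b, rfl⟩ := h3 r h
    exact hr ⟨l, (s1 l).2 ⟨a, b⟩, rfl⟩

/-- Number of monochromatic edges. -/
def mono (l : List ℕ) (E : List (ℕ × ℕ)) : ℕ :=
  (E.map fun e => if l[e.1]? = l[e.2]? then 1 else 0).sum

theorem Wt_U (a b : ℝ) (E : List (ℕ × ℕ)) (l : List ℕ) :
    Wt (U a (a * b - a) E) l = a ^ E.length * b ^ mono l E := by
  induction E with
  | nil => simp [U, mono]
  | cons e E ih =>
    simp only [U, mono, List.map_cons, Wt_cons, List.sum_cons, List.length_cons, dl] at ih ⊢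
    rw [ih]
    split_ifs <;> ring

theorem mono_append (l : List ℕ) (E E' : List (ℕ × ℕ)) : mono l (E ++ E') = mono l E + mono l E' := by
  simp [mono]

theorem mono_flatMap {α : Type} (l : List ℕ) (D : List α) (f : α → List (ℕ × ℕ)) :
    mono l (D.flatMap f) = (D.map fun e => mono l (f e)).sum := by
  induction D with
  | nil => rfl
  | cons e D ih => simp [mono_append, ih]

/-- Repetition. -/
def rep (k : ℕ) (E : List (ℕ × ℕ)) : List (ℕ × ℕ) := (List.range k).flatMap fun _ => E

theorem mono_rep (l : List ℕ) (k : ℕ) (E : List (ℕ × ℕ)) : mono l (rep k E) = k * mono l E := by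
  simp [rep, mono_flatMap]

theorem ValU.rep {N k : ℕ} {E : List (ℕ × ℕ)} (h : ValU N E) : ValU N (rep k E) :=
  List.forall_mem_flatMap.2 fun _ _ => h

/-- Edges from `s` to all variables. -/
def star (s N : ℕ) : List (ℕ × ℕ) := (List.range N).map fun i => (s, i + 2)

/-- A triangle through the vertex `0`. -/
def tri (e : ℕ × ℕ) : List (ℕ × ℕ) := [(e.1 + 2, e.2 + 2), (0, e.1 + 2), (0, e.2 + 2)]

/-- Pairs of variables in conflict. -/
def confl (n d : ℕ) (F : List (ℕ × ℕ × ℕ × ℕ)) : List (ℕ × ℕ) :=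
  (F.map fun f => (f.1 * d + f.2.1, f.2.2.1 * d + f.2.2.2)) ++
    (List.range n).flatMap fun c => (List.range d).flatMap fun a =>
      (List.range a).map fun b => (c * d + a, c * d + b)

/-- Plain edges. -/
def eB (N P g : ℕ) : List (ℕ × ℕ) :=
  (0, 2) :: (rep (2 * (P + g)) (star 0 N) ++ rep (2 * P) (star 1 N))

/-- Edges to be replaced by the antiferromagnetic gadget. -/
def eA (D : List (ℕ × ℕ)) (R P' : ℕ) : List (ℕ × ℕ) := rep P' [(0, 1)] ++ rep R (D.flatMap tri)

/-- One-hot colouring attached to an assignment. -/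
def hot (n d s t : ℕ) (a : List ℕ) : List ℕ :=
  (List.range (n * d)).map fun i => if a.getD (i / d) 0 = i % d then s else t

/-- Number of entries equal to `s`. -/
def cnt (r : List ℕ) (N s : ℕ) : ℕ := ∑ i ∈ range N, if r[i]? = some s then 1 else 0

theorem mono_star0 (s t N : ℕ) (r : List ℕ) : mono (s :: t :: r) (star 0 N) = cnt r N s := by
  simp only [mono, star, cnt, List.map_map, Function.comp_def, List.getElem?_cons_succ,
    List.getElem?_cons_zero, eq_comm (a := some s)]
  rfl

theorem mono_star1 (s t N : ℕ) (r : List ℕ) : mono (s :: t :: r) (star 1 N) = cnt r N t := by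
  simp only [mono, star, cnt, List.map_map, Function.comp_def, List.getElem?_cons_succ,
    List.getElem?_cons_zero, eq_comm (a := some t)]
  rfl

theorem cnt_le (r : List ℕ) (N s : ℕ) : cnt r N s ≤ N :=
  (sum_le_card_nsmul _ _ 1 fun i _ => by split_ifs <;> omega).trans (by simp)

theorem cnt_block (r : List ℕ) (n d s : ℕ) :
    cnt r (n * d) s = ∑ c ∈ range n, ((range d).filter fun j => r[c * d + j]? = some s).card := by
  induction n with
  | zero => simp [cnt]
  | succ n ih => rw [sum_range_succ, ← ih, Nat.succ_mul, cnt, sum_range_add, card_filter]; rfl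

variable {n d s t : ℕ} {F : List (ℕ × ℕ × ℕ × ℕ)} {r a : List ℕ}

theorem cell_lt {c j : ℕ} (hc : c < n) (hj : j < d) : c * d + j < n * d := by nlinarith

theorem hot_get {c j : ℕ} (hc : c < n) (hj : j < d) :
    (hot n d s t a)[c * d + j]? = some (if a.getD c 0 = j then s else t) := by
  obtain ⟨e1, e2⟩ := (Nat.div_mod_unique (a := c * d + j) (b := d) (c := j) (d := c)
    (by omega)).2 ⟨by ring, hj⟩
  rw [hot, List.getElem?_map, List.getElem?_range (cell_lt hc hj), Option.map_some, e1, e2]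

theorem hot_eq (hst : s ≠ t) {c j : ℕ} (hc : c < n) (hj : j < d) :
    (hot n d s t a)[c * d + j]? = some s ↔ a.getD c 0 = j := by
  rw [hot_get hc hj]
  generalize a.getD c 0 = u
  split_ifs with h <;> simp [h, hst.symm]

theorem getD_lt (h1 : a.length = n) (h2 : ∀ c ∈ a, c < d) {c : ℕ} (hc : c < n) : a.getD c 0 < d := by
  rw [List.getD_eq_getElem _ _ (h1 ▸ hc)]; exact h2 _ (List.getElem_mem _)

/-- Validity of a list of forbidden pairs. -/
def ValF (n d : ℕ) (F : List (ℕ × ℕ × ℕ × ℕ)) : Prop :=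
  ∀ f ∈ F, f.1 < n ∧ f.2.1 < d ∧ f.2.2.1 < n ∧ f.2.2.2 < d

theorem confl_val (hF : ValF n d F) : ValU (n * d) (confl n d F) := by
  simp only [ValU, confl, List.forall_mem_append, List.forall_mem_map, List.forall_mem_flatMap,
    List.mem_range]
  exact ⟨fun f hf => ⟨cell_lt (hF f hf).1 (hF f hf).2.1, cell_lt (hF f hf).2.2.1 (hF f hf).2.2.2⟩,
    fun c hc i hi j hj => ⟨cell_lt hc hi, cell_lt hc (hj.trans hi)⟩⟩

/-- No conflicting pair has both ends coloured `s`. -/
def Ind (D : List (ℕ × ℕ)) (r : List ℕ) (s : ℕ) : Prop :=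
  ∀ e ∈ D, ¬ (r[e.1]? = some s ∧ r[e.2]? = some s)

theorem hot_ind (hst : s ≠ t) (hF : ValF n d F) : Ind (confl n d F) (hot n d s t a) s ↔ Sat F a := by
  simp only [Ind, Sat, confl, List.forall_mem_append, List.forall_mem_map, List.forall_mem_flatMap,
    List.mem_range]
  refine ⟨fun h f hf => ?_, fun h => ⟨fun f hf => ?_, fun c hc i hi j hj => ?_⟩⟩
  · rw [← hot_eq hst (hF f hf).1 (hF f hf).2.1, ← hot_eq hst (hF f hf).2.2.1 (hF f hf).2.2.2]
    exact h.1 f hf
  · rw [hot_eq hst (hF f hf).1 (hF f hf).2.1, hot_eq hst (hF f hf).2.2.1 (hF f hf).2.2.2]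
    exact h f hf
  · rw [hot_eq hst hc hi, hot_eq hst hc (hj.trans hi)]
    omega

theorem hot_cnt (hst : s ≠ t) (h1 : a.length = n) (h2 : ∀ c ∈ a, c < d) :
    cnt (hot n d s t a) (n * d) s = n := by
  rw [cnt_block, sum_congr rfl (g := fun _ => 1) fun c hc => ?_]
  · simp
  · rw [card_eq_one]
    refine ⟨a.getD c 0, ?_⟩
    ext j
    have := getD_lt h1 h2 (mem_range.1 hc)
    simp only [mem_filter, mem_range, mem_singleton]
    exact ⟨fun h => ((hot_eq hst (mem_range.1 hc) h.1).1 h.2).symm,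
      fun h => ⟨h ▸ this, (hot_eq hst (mem_range.1 hc) (h ▸ this)).2 h.symm⟩⟩

theorem hot_two (i : ℕ) (hi : i < n * d) :
    (hot n d s t a)[i]? = some s ∨ (hot n d s t a)[i]? = some t := by
  rw [hot, List.getElem?_map, List.getElem?_range hi, Option.map_some]
  split_ifs <;> simp

theorem exists_hot (hr : r.length = n * d) (h2 : ∀ i < n * d, r[i]? = some s ∨ r[i]? = some t)
    (hi : Ind (confl n d F) r s) (hc : n ≤ cnt r (n * d) s) :
    ∃ a : List ℕ, a.length = n ∧ (∀ c ∈ a, c < d) ∧ r = hot n d s t a := by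
  have h3 : ∀ c < n, ∀ i < d, ∀ j < d, r[c * d + i]? = some s → r[c * d + j]? = some s → i = j := by
    simp only [Ind, confl, List.forall_mem_append, List.forall_mem_map, List.forall_mem_flatMap,
      List.mem_range] at hi
    intro c hc i h1 j h2 h3 h4
    rcases lt_trichotomy i j with h | h | h
    · exact absurd ⟨h4, h3⟩ (hi.2 c hc j h2 i h)
    · exact h
    · exact absurd ⟨h3, h4⟩ (hi.2 c hc i h1 j h)
  have h4 : ∀ c ∈ range n, ((range d).filter fun j => r[c * d + j]? = some s).card ≤ 1 :=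
    fun c hc => card_le_one.2 fun i h1 j h2 => h3 c (mem_range.1 hc) i
      (mem_range.1 (mem_filter.1 h1).1) j (mem_range.1 (mem_filter.1 h2).1) (mem_filter.1 h1).2
      (mem_filter.1 h2).2
  have h5 := (sum_eq_sum_iff_of_le h4).1 (le_antisymm (sum_le_sum h4)
    (by rw [← cnt_block]; simpa using hc))
  have h6 : ∀ c, ∃ j, c < n → j < d ∧ r[c * d + j]? = some s := fun c => by
    by_cases hc : c < n
    · obtain ⟨j, hj⟩ := card_pos.1 ((h5 c (mem_range.2 hc)).symm ▸ one_pos)
      exact ⟨j, fun _ => by simpa using hj⟩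
    · exact ⟨0, fun h => absurd h hc⟩
  choose f hf using h6
  refine ⟨(List.range n).map f, by simp, by simpa using fun c hc => (hf c hc).1, ?_⟩
  refine List.ext_getElem? fun i => ?_
  rcases lt_or_ge i (n * d) with h | h
  · have hd : 0 < d := Nat.pos_of_ne_zero (by rintro rfl; simp at h)
    have c1 : i / d < n := (Nat.div_lt_iff_lt_mul hd).2 h
    have c2 := Nat.mod_lt i hd
    have c3 := hf _ c1
    have c4 := h2 i h
    rw [← Nat.div_add_mod' i d] at c4 ⊢
    rw [hot_get c1 c2, List.getD_eq_getElem _ _ (by simpa using c1)]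
    simp only [List.getElem_map, List.getElem_range]
    split_ifs with h7
    · exact h7 ▸ c3.2
    · exact c4.resolve_left fun h8 => h7 (h3 _ c1 _ c3.1 _ c2 c3.2 h8)
  · rw [List.getElem?_eq_none (by omega), List.getElem?_eq_none (by simpa [hot] using h)]

theorem cnt_two (hst : s ≠ t) (N : ℕ) :
    cnt r N s + cnt r N t ≤ N ∧
      (cnt r N s + cnt r N t = N ↔ ∀ i < N, r[i]? = some s ∨ r[i]? = some t) := by
  have h : ∀ i ∈ range N, ((if r[i]? = some s then 1 else 0) + if r[i]? = some t then 1 else 0) ≤ 1 :=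
    fun i _ => by split_ifs <;> simp_all
  have h1 := sum_eq_sum_iff_of_le h
  have h2 := sum_le_sum h
  rw [sum_add_distrib, sum_const, card_range, smul_eq_mul, mul_one] at h1 h2
  refine ⟨h2, h1.trans ?_⟩
  simp only [mem_range]
  exact forall₂_congr fun i _ => by split_ifs <;> simp_all

theorem mono_tri (hst : s ≠ t) {N : ℕ} {D : List (ℕ × ℕ)} (hD : ValU N D)
    (h2 : ∀ i < N, r[i]? = some s ∨ r[i]? = some t) :
    D.length ≤ mono (s :: t :: r) (D.flatMap tri) ∧
    (Ind D r s → mono (s :: t :: r) (D.flatMap tri) = D.length) ∧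
    (¬ Ind D r s → D.length + 1 ≤ mono (s :: t :: r) (D.flatMap tri)) := by
  induction D with
  | nil => simp [mono, Ind]
  | cons e D ih =>
    obtain ⟨h3, h4⟩ := List.forall_mem_cons.1 hD
    obtain ⟨i1, i2, i3⟩ := ih h4
    rw [List.flatMap_cons, mono_append, Ind, List.forall_mem_cons, ← Ind, List.length_cons]
    have : mono (s :: t :: r) (tri e) = if r[e.1]? = some s ∧ r[e.2]? = some s then 3 else 1 := by
      rcases h2 _ h3.1 with h | h <;> rcases h2 _ h3.2 with h' | h' <;>
        simp [mono, tri, h, h', hst, hst.symm]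
    rw [this]
    by_cases h5 : Ind D r s <;> split_ifs with h6 <;> simp_all <;> omega

theorem bad_bound {Y z : ℝ} {K α β γ δ g i j : ℕ} (hY : 2 ≤ Y) (hz : 0 < z) (h1 : z * Y ≤ 1)
    (h2 : 1 ≤ Y ^ K * z) (h3 : α + g + K * j ≤ γ + i) (h4 : δ + i ≤ β + j) :
    Y ^ α * z ^ β ≤ Y ^ γ * z ^ δ / 2 ^ g := by
  have hY0 : 0 < Y := by linarith
  have hz1 : z ≤ 1 := by nlinarith
  rw [le_div_iff₀ (by positivity)]
  refine le_of_mul_le_mul_right ?_ (by positivity : 0 < Y ^ (K * j) * z ^ j * Y ^ i)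
  calc Y ^ α * z ^ β * 2 ^ g * (Y ^ (K * j) * z ^ j * Y ^ i)
      ≤ Y ^ α * z ^ β * Y ^ g * (Y ^ (K * j) * z ^ j * Y ^ i) := by gcongr
    _ = Y ^ (α + g + K * j) * z ^ (β + j) * Y ^ i := by ring
    _ ≤ Y ^ (γ + i) * z ^ (δ + i) * Y ^ i :=
      mul_le_mul_of_nonneg_right (mul_le_mul (pow_le_pow_right₀ (by linarith) h3)
        (pow_le_pow_of_le_one hz.le hz1 h4) (by positivity) (by positivity)) (by positivity)
    _ = Y ^ γ * z ^ δ * ((z * Y) ^ i * Y ^ i) := by ring
    _ ≤ Y ^ γ * z ^ δ * ((Y ^ K * z) ^ j * Y ^ i) := by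
      gcongr
      exact (pow_le_one₀ (by positivity) h1).trans (one_le_pow₀ h2)
    _ = _ := by ring

/-- The weighted count of solutions. -/
noncomputable def Tw (y : ℝ) (n d : ℕ) (F : List (ℕ × ℕ × ℕ × ℕ)) : ℝ :=
  open Classical in SL d n fun a => if Sat F a then (if a.getD 0 0 = 0 then y else 1) else 0

theorem master_nat {y z a0 : ℝ} {K g R P P' : ℕ} (x : ℕ) (hn : 0 < n) (hd : 0 < d) (hF : ValF n d F)
    (hy : y ≤ -2) (hz : 0 < z) (h1 : z * y ^ 2 ≤ 1) (h2 : 1 ≤ (y ^ 2) ^ K * z) (ha : 0 < a0)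
    (hR : R = g * (n * d) + g) (hP : P = g * (n * d) + K * (R * (confl n d F).length) + g)
    (hP' : P' = P * (n * d) + g * (n * d) + R * (confl n d F).length + g) :
    |SL x (n * d + 2) (Wt (U a0 (a0 * z - a0) (eA (confl n d F) R P') ++
        U 1 (1 * y - 1) (eB (n * d) P g))) -
      x * (x - 1) * (a0 ^ (eA (confl n d F) R P').length * ((y ^ 2) ^ (P * (n * d) + g * n) *
        z ^ (R * (confl n d F).length)) * Tw y n d F)| ≤
      x ^ (n * d + 2) * (a0 ^ (eA (confl n d F) R P').length * (|y| *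
        ((y ^ 2) ^ (P * (n * d) + g * n) * z ^ (R * (confl n d F).length) / 2 ^ g))) := by
  classical
  set D := confl n d F
  set c0 := a0 ^ (eA D R P').length
  set W0 := (y ^ 2) ^ (P * (n * d) + g * n) * z ^ (R * D.length)
  have hY : 2 ≤ y ^ 2 := by nlinarith
  have hW0 : 0 < W0 := by positivity
  let G : ℕ → ℕ → List ℕ → ℝ := fun s t r => if s ≠ t ∧ Ind D r s ∧
    ∃ a : List ℕ, a.length = n ∧ (∀ c ∈ a, c < d) ∧ r = hot n d s t a then
      c0 * W0 * (if r[0]? = some s then y else 1) else 0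
  have e1 : SL x (n * d + 2) (fun l => G (l.getD 0 0) (l.getD 1 0) (l.drop 2)) =
      x * (x - 1) * (c0 * W0 * Tw y n d F) := by
    rw [← zero_add (_ * _ * (_ * _ * Tw y n d F)), ← mul_zero (x : ℝ), ← sum_two]
    refine sum_congr rfl fun s hs => sum_congr rfl fun t ht => ?_
    show SL x (n * d) (G s t) = _
    split_ifs with hst
    · simp [G, hst, SL_const]
    rw [SL_bij (D := d) (n := n) (hot n d s t), Tw, ← SL_mul]
    · refine SL_congr fun a a1 a2 => ?_
      have := hot_eq (a := a) hst hn hd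
      simp only [zero_mul, add_zero] at this
      simp only [G, D, hot_ind hst hF, this, ne_eq, hst, not_false_eq_true, true_and]
      by_cases h : Sat F a
      · rw [if_pos ⟨h, a, a1, a2, rfl⟩, if_pos h]
      · simp [h]
    · intro a _ _
      refine ⟨by simp [hot], List.forall_mem_map.2 fun i _ => ?_⟩
      split_ifs
      exacts [mem_range.1 hs, mem_range.1 ht]
    · intro a b a1 a2 b1 b2 h
      refine List.ext_getElem (a1.trans b1.symm) fun c c1 c2 => ?_
      have := (hot_eq (a := a) hst (a1 ▸ c1) (getD_lt a1 a2 (a1 ▸ c1))).2 rfl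
      rw [h, hot_eq hst (a1 ▸ c1) (getD_lt a1 a2 (a1 ▸ c1)), List.getD_eq_getElem _ _ c1,
        List.getD_eq_getElem _ _ c2] at this
      exact this.symm
    · intro r hr
      simp only [G] at hr
      split_ifs at hr with h
      exacts [h.2.2, h.2.2, absurd rfl hr]
  rw [← e1, ← SL_sub]
  refine SL_abs fun l l1 _ => ?_
  obtain ⟨s, t, r, rfl⟩ : ∃ s t r, l = s :: t :: r := by
    match l, l1 with
    | s :: t :: r, _ => exact ⟨s, t, r, rfl⟩
  have hr : r.length = n * d := by simpa using l1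
  have e2 : Wt (U a0 (a0 * z - a0) (eA D R P') ++ U 1 (1 * y - 1) (eB (n * d) P g)) (s :: t :: r) =
      c0 * ((if r[0]? = some s then y else 1) *
        ((y ^ 2) ^ ((P + g) * cnt r (n * d) s + P * cnt r (n * d) t) *
        z ^ (P' * (if s = t then 1 else 0) + R * mono (s :: t :: r) (D.flatMap tri)))) := by
    have : mono (s :: t :: r) (eB (n * d) P g) = (if r[0]? = some s then 1 else 0) +
        2 * ((P + g) * cnt r (n * d) s + P * cnt r (n * d) t) := by
      rw [eB, ← List.singleton_append (x := (0, 2)), mono_append, mono_append, mono_rep, mono_rep, mono_star0,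
        mono_star1]
      simp [mono, eq_comm (a := some s)]
      ring
    rw [Wt_append, Wt_U, Wt_U, this, eA, mono_append, mono_rep, mono_rep, pow_add y, pow_mul y]
    simp only [c0, eA, mono, List.map_cons, List.map_nil, List.sum_cons, List.sum_nil,
      List.getElem?_cons_succ, List.getElem?_cons_zero, Option.some_inj, add_zero, one_pow]
    split_ifs <;> ring
  simp only [List.getD_cons_zero, List.getD_cons_succ, List.drop_succ_cons, List.drop_zero, e2, G]
  have hA := cnt_le r (n * d) s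
  have hB := cnt_le r (n * d) t
  by_cases hg : s ≠ t ∧ Ind D r s ∧
      ∃ a : List ℕ, a.length = n ∧ (∀ c ∈ a, c < d) ∧ r = hot n d s t a
  · rw [if_pos hg]
    obtain ⟨hst, hi, a, a1, a2, rfl⟩ := hg
    have b1 := hot_cnt hst a1 a2
    have b2 := (cnt_two hst (n * d)).2.2 (hot_two (a := a))
    rw [(mono_tri hst (confl_val hF) hot_two).2.1 hi, if_neg hst,
      show (P + g) * cnt (hot n d s t a) (n * d) s + P * cnt (hot n d s t a) (n * d) t =
        P * (n * d) + g * n by rw [add_mul, add_right_comm, ← mul_add, b2, b1], mul_zero, zero_add,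
      show ∀ u : ℝ, c0 * (u * W0) - c0 * W0 * u = 0 from fun u => by ring, abs_zero]
    positivity
  rw [if_neg hg, sub_zero, abs_mul, abs_mul, abs_of_pos (by positivity : 0 < c0),
    abs_of_pos (a := _ * _) (by positivity)]
  refine mul_le_mul_of_nonneg_left (mul_le_mul ?_ ?_ (by positivity) (abs_nonneg _)) (by positivity)
  · split_ifs
    · exact le_rfl
    · rw [abs_one, le_abs]; right; linarith
  generalize hm : mono (s :: t :: r) (D.flatMap tri) = m
  have hA' := Nat.mul_le_mul_left g hA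
  by_cases hst : s = t
  · refine bad_bound (i := P * (n * d) + g * (n * d) + g) (j := 0) hY hz h1 h2 ?_ ?_
    · have := Nat.mul_le_mul_left P hA
      have := Nat.mul_le_mul_left P hB
      rw [add_mul]; omega
    · rw [if_pos hst]; omega
  obtain ⟨c1, c2⟩ := cnt_two (r := r) hst (n * d)
  by_cases h3 : ∀ i < n * d, r[i]? = some s ∨ r[i]? = some t
  · obtain ⟨m1, m2, m3⟩ := mono_tri hst (confl_val hF) h3
    have c3 := congrArg (P * ·) (c2.2 h3)
    simp only [mul_add] at c3
    rw [hm] at m1 m2 m3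
    by_cases hi : Ind D r s
    · have : cnt r (n * d) s + 1 ≤ n := by
        by_contra h
        exact hg ⟨hst, hi, exists_hot hr h3 hi (by omega)⟩
      have := Nat.mul_le_mul_left g this
      have := Nat.mul_le_mul_left R m1
      refine bad_bound (i := 0) (j := 0) hY hz h1 h2 ?_ (by simp only [D]; omega)
      rw [mul_add] at *; rw [add_mul]; omega
    · have := Nat.mul_le_mul_left R (m3 hi)
      refine bad_bound (i := R) (j := 0) hY hz h1 h2 ?_ ?_
      · rw [add_mul]; omega
      · rw [mul_add] at this; simp only [D]; omega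
  · have : cnt r (n * d) s + cnt r (n * d) t + 1 ≤ n * d := by
      have := mt c2.1 h3; omega
    have := Nat.mul_le_mul_left P this
    refine bad_bound (i := 0) (j := R * D.length) hY hz h1 h2 ?_ (by omega)
    simp only [mul_add] at this
    rw [add_mul]; omega

/-- Parameters of the construction. -/
def gq (K N : ℕ) : ℕ := (N + 2) + (K + (N + 2)) * (N + 2) + (N + 2) * (N + 2) + K
/-- Multiplicity of the triangles. -/
def Rq (K N : ℕ) : ℕ := gq K N * N + gq K N
/-- Multiplicity of the ties. -/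
def Pq (K N m : ℕ) : ℕ := gq K N * N + K * (Rq K N * m) + gq K N
/-- Multiplicity of the edge between the two reference vertices. -/
def Sq (K N m : ℕ) : ℕ := Pq K N m * N + gq K N * N + Rq K N * m + gq K N

/-- The edges that are replaced by gadgets. -/
def qA (K n d : ℕ) (F : List (ℕ × ℕ × ℕ × ℕ)) : List (ℕ × ℕ) :=
  eA (confl n d F) (Rq K (n * d)) (Sq K (n * d) (confl n d F).length)

/-- The graph attached to a constraint satisfaction problem. -/
def query (G : List (ℕ × ℕ)) (nG K n d : ℕ) (F : List (ℕ × ℕ × ℕ × ℕ)) : ℕ × List (ℕ × ℕ) :=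
  (n * d + 2 + (qA K n d F).length * nG, build G nG (n * d + 2) (qA K n d F) ++
    eB (n * d) (Pq K (n * d) (confl n d F).length) (gq K (n * d)))

theorem query_sign {q v z a0 : ℝ} {K nG : ℕ} {G : List (ℕ × ℕ)} (hn : 0 < n) (hd : 0 < d)
    (hF : ValF n d F) (hq : 3 ≤ q) (hy : 1 + v ≤ -2) (hz : 0 < z) (h1 : z * (1 + v) ^ 2 ≤ 1)
    (h2 : 1 ≤ ((1 + v) ^ 2) ^ K * z) (ha : 0 < a0) (hG : Gad q v nG G a0 (a0 * z - a0))
    (hqK : q ≤ K) (hyK : |1 + v| ≤ K) :
    ValU (query G nG K n d F).1 (query G nG K n d F).2 ∧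
    (1 / 2 ≤ Tw (1 + v) n d F → 0 < dichromatic (query G nG K n d F).1 (query G nG K n d F).2 q v) ∧
    (Tw (1 + v) n d F ≤ -1 / 2 →
      dichromatic (query G nG K n d F).1 (query G nG K n d F).2 q v < 0) := by
  have hN : 0 < n * d := Nat.mul_pos hn hd
  have vA : ValU (n * d + 2) (qA K n d F) := by
    refine List.forall_mem_append.2 ⟨ValU.rep (by simp [ValU]), ValU.rep ?_⟩
    refine List.forall_mem_flatMap.2 fun e he => ?_
    have := confl_val hF e he
    simp [tri]; omega
  have vS : ∀ s < 2, ValU (n * d + 2) (star s (n * d)) := fun s hs =>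
    List.forall_mem_map.2 fun i hi => by have := List.mem_range.1 hi; dsimp only; omega
  have vB : ValU (n * d + 2) (eB (n * d) (Pq K (n * d) (confl n d F).length) (gq K (n * d))) :=
    List.forall_mem_cons.2 ⟨by dsimp only; omega, List.forall_mem_append.2
      ⟨(vS 0 (by omega)).rep, (vS 1 (by omega)).rep⟩⟩
  obtain ⟨b1, b2⟩ := hG.build (by linarith) vA
  refine ⟨List.forall_mem_append.2 ⟨b1, vB.mono (Nat.le_add_right _ _)⟩, ?_⟩
  have e : dichromatic (query G nG K n d F).1 (query G nG K n d F).2 q v =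
      Zw q (n * d + 2) (U a0 (a0 * z - a0) (qA K n d F) ++ U 1 (1 * (1 + v) - 1)
        (eB (n * d) (Pq K (n * d) (confl n d F).length) (gq K (n * d)))) := by
    rw [dichromatic_eq, ← b2 _ vB.U, show 1 * (1 + v) - 1 = v by ring, ← U_append]
    rfl
  have m := fun x => master_nat (g := gq K (n * d)) x hn hd hF hy hz h1 h2 ha rfl rfl rfl
  have hv := (vA.U (a := a0) (b := a0 * z - a0)).append (vB.U (a := 1) (b := 1 * (1 + v) - 1))
  obtain ⟨P0, p1, p2⟩ := Zw_deg (n * d + 2) (U a0 (a0 * z - a0) (qA K n d F) ++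
    U 1 (1 * (1 + v) - 1) (eB (n * d) (Pq K (n * d) (confl n d F).length) (gq K (n * d))))
  simp only [← Rq.eq_1, ← Pq.eq_1, ← Sq.eq_1, ← qA.eq_1, ← Zw_nat _ _ _ hv, p2] at m
  rw [e, p2]
  have hc : 0 < a0 ^ (qA K n d F).length := pow_pos ha _
  have hW : 0 < ((1 + v) ^ 2) ^ (Pq K (n * d) (confl n d F).length * (n * d) + gq K (n * d) * n) *
      z ^ (Rq K (n * d) * (confl n d F).length) :=
    mul_pos (pow_pos (by nlinarith only [hy]) _) (pow_pos hz _)
  clear e b1 b2 p2 hv vA vB vS hG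
  generalize a0 ^ (qA K n d F).length = c0 at *
  generalize ((1 + v) ^ 2) ^ (Pq K (n * d) (confl n d F).length * (n * d) + gq K (n * d) * n) *
    z ^ (Rq K (n * d) * (confl n d F).length) = W at *
  generalize Tw (1 + v) n d F = T at *
  have e2 : gq K (n * d) =
    (n * d + 2) + (K + (n * d + 2)) * (n * d + 2) + (n * d + 2) * (n * d + 2) + K := rfl
  generalize gq K (n * d) = g at *
  have hN2 : 2 ≤ n * d + 2 := by omega
  generalize n * d + 2 = N at *
  have i1 := interp (P0 - X * (X - 1) * C (c0 * W * T)) N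
    ((natDegree_sub_le _ _).trans (max_le p1 (le_trans (by compute_degree) hN2)))
    (x := q) (η := N ^ N * (c0 * (|1 + v| * (W / 2 ^ g)))) (by linarith) fun k hk => by
      simp only [eval_sub, eval_mul, eval_X, eval_C, eval_one]
      exact (m k).trans (by gcongr)
  simp only [eval_sub, eval_mul, eval_X, eval_C, eval_one] at i1
  have t1 : ∀ k : ℕ, (k : ℝ) + 1 ≤ 2 ^ k := fun k => by exact_mod_cast Nat.lt_two_pow_self
  have i2 : (N + 1 : ℝ) * ((q + N) ^ N * (N ^ N * (c0 * (|1 + v| * (W / 2 ^ g))))) ≤ c0 * W := by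
    calc _ ≤ (2 : ℝ) ^ N * ((2 ^ (K + N)) ^ N * ((2 ^ N) ^ N * (c0 * (2 ^ K * (W / 2 ^ g))))) := by
          have := t1 (K + N)
          push_cast at this
          gcongr
          · exact t1 N
          · linarith
          · linarith [t1 N]
          · linarith [t1 K]
      _ = c0 * W := by rw [e2]; field_simp; ring
  have i3 := abs_le.1 (i1.trans i2)
  have i4 : 6 ≤ q * (q - 1) := by nlinarith
  have i5 := mul_pos hc hW
  generalize c0 * W = V at *
  generalize q * (q - 1) = Q at *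
  constructor <;> intro h
  · nlinarith [mul_le_mul i4 (mul_le_mul_of_nonneg_left h i5.le) (by positivity) (by linarith)]
  · have : 1 / 2 ≤ -T := by linarith
    nlinarith [mul_le_mul i4 (mul_le_mul_of_nonneg_left this i5.le) (by positivity) (by linarith)]

end Pool.Agent.P.MP_e0c037_lc.R3
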