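import Pool.Agent.P.MP_e0c037_lc.R3.Int

/-! Decay of the Wronskian in a sector and its vanishing. -/

namespace Pool.Agent.P.MP_e0c037_lc.R3

open Complex MeasureTheory Set Filter Topology Asymptotics
open scoped Nat Real

theorem Ai_sec {p : ℝ} (hp : 0 < p) (j : ℕ) : ∃ K, 0 ≤ K ∧ ∀ (ζ : ℂ) (u c s : ℝ), 1 ≤ u →
    ζ.re = u ^ 2 / 2 → ‖ζ‖ ≤ u ^ 2 → u / 2 ≤ c → ‖Ai p j (p * ζ + s)‖ ≤
      K * Real.exp (p / (3 * c) * (c ^ 2 - 3 / 4 * u ^ 2) ^ 2 - c * s + c + u) := by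
  refine ⟨2 * j ! * √(π / (p / 2)) * Real.exp (1 / (2 * p)), by positivity,
    fun ζ u c s hu h1 h2 hc => ?_⟩
  have hc0 : 0 < c := by linarith
  refine ((airy _ hp).2.2.2 j c _ hc0).trans ?_
  have e1 : ((p : ℂ) * ζ + s).re = p * (u ^ 2 / 2) + s := by simp [h1]
  have e2 : |((p : ℂ) * ζ + s).im| = p * |ζ.im| := by simp [abs_mul, abs_of_pos hp]
  have h3 : |ζ.im| ≤ u ^ 2 := (abs_im_le_norm ζ).trans h2
  have h4 : |ζ.im| ^ 2 ≤ 3 / 4 * u ^ 4 := by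
    have := pow_le_pow_left₀ (norm_nonneg _) h2 2
    rw [Complex.sq_norm, normSq_apply, h1] at this
    rw [sq_abs]; nlinarith
  rw [e1, e2, mul_assoc _ (Real.exp _), ← Real.exp_add]
  refine mul_le_mul (by gcongr; nlinarith) (Real.exp_le_exp.2 ?_) (by positivity) (by positivity)
  have h5 : (p * |ζ.im| + 1) ^ 2 / (4 * p * c) ≤
      p ^ 2 * (3 / 4 * u ^ 4) / (4 * p * c) + (2 * p * u ^ 2 + u) / (4 * p * (u / 2)) := by
    rw [show (p * |ζ.im| + 1) ^ 2 = p ^ 2 * |ζ.im| ^ 2 + (2 * p * |ζ.im| + 1) by ring, add_div]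
    gcongr
  have h6 : p / (3 * c) * (c ^ 2 - 3 / 4 * u ^ 2) ^ 2 =
      p * c ^ 3 / 3 - c * (p * (u ^ 2 / 2)) + p ^ 2 * (3 / 4 * u ^ 4) / (4 * p * c) := by
    field_simp; ring
  have h7 : (2 * p * u ^ 2 + u) / (4 * p * (u / 2)) = u + 1 / (2 * p) := by field_simp; ring
  linarith

theorem exists_kap : ∃ κ : ℝ, κ ^ 2 = 3 / 4 ∧ 4 / 5 ≤ κ ∧ κ ≤ 1 :=
  ⟨√(3 / 4), Real.sq_sqrt (by norm_num), Real.le_sqrt_of_sq_le (by norm_num),
    Real.sqrt_le_one.2 (by norm_num)⟩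

theorem Ai_sec1 (j : ℕ) : ∃ K, 0 ≤ K ∧ ∀ (ζ : ℂ) (u s : ℝ), 1 ≤ u → 0 ≤ s →
    ζ.re = u ^ 2 / 2 → ‖ζ‖ ≤ u ^ 2 → ‖Ai 1 j (ζ + s)‖ ≤ K * Real.exp (-(4 / 5 * u * s) + 2 * u) := by
  obtain ⟨K, h0, hK⟩ := Ai_sec one_pos j
  obtain ⟨κ, k1, k2, k3⟩ := exists_kap
  refine ⟨K, h0, fun ζ u s hu hs h1 h2 => ?_⟩
  have := hK ζ u (κ * u) s hu h1 h2 (by nlinarith)
  rw [mul_pow, k1, sub_self, ofReal_one, one_mul] at this
  refine this.trans (mul_le_mul_of_nonneg_left (Real.exp_le_exp.2 ?_) h0)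
  have : 0 ≤ u * s := by positivity
  nlinarith

theorem Ai_sec2 {t : ℝ} (ht : 0 < t) (j : ℕ) : ∃ K, 0 ≤ K ∧ ∀ (ζ : ℂ) (u s ρ : ℝ), 1 ≤ u → 0 ≤ s →
    0 < ρ → ζ.re = u ^ 2 / 2 → ‖ζ‖ ≤ u ^ 2 → ‖Ai (t ^ 2) j ((t ^ 2 : ℝ) * ζ + 1 * s + ρ ^ 2)‖ ≤
      K * Real.exp (2 * u) * Real.exp (-(2 / (3 * t)) * ρ ^ 3 + 1 / t * ρ) := by
  obtain ⟨K, h0, hK⟩ := Ai_sec (p := t ^ 2) (by positivity) j
  obtain ⟨κ, k1, k2, k3⟩ := exists_kap
  refine ⟨K, h0, fun ζ u s ρ hu hs hρ h1 h2 => ?_⟩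
  rw [show ((t ^ 2 : ℝ) : ℂ) * ζ + 1 * s + ρ ^ 2 = (t ^ 2 : ℝ) * ζ + (s + ρ ^ 2 : ℝ) by
    push_cast; ring, mul_assoc, ← Real.exp_add]
  obtain ⟨c, rfl⟩ : ∃ c, ρ = t * c := ⟨ρ / t, by field_simp⟩
  have hc : 0 < c := (mul_pos_iff_of_pos_left ht).1 hρ
  rw [show -(2 / (3 * t)) * (t * c) ^ 3 + 1 / t * (t * c) = -(2 / 3 * t ^ 2 * c ^ 3) + c by
    field_simp]
  rcases le_total (3 / 8 * u ^ 2) (c ^ 2) with h | h
  · refine (hK ζ u c _ hu h1 h2 (by nlinarith)).trans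
      (mul_le_mul_of_nonneg_left (Real.exp_le_exp.2 ?_) h0)
    have h3 : t ^ 2 / (3 * c) * (c ^ 2 - 3 / 4 * u ^ 2) ^ 2 ≤ t ^ 2 / (3 * c) * (c ^ 2) ^ 2 :=
      mul_le_mul_of_nonneg_left (sq_le_sq' (by linarith) (by nlinarith)) (by positivity)
    rw [show t ^ 2 / (3 * c) * (c ^ 2) ^ 2 = t ^ 2 * c ^ 3 / 3 by field_simp] at h3
    nlinarith [mul_nonneg hc.le hs]
  · have := hK ζ u (κ * u) (s + (t * c) ^ 2) hu h1 h2 (by nlinarith)
    rw [mul_pow κ, k1, sub_self] at this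
    refine this.trans (mul_le_mul_of_nonneg_left (Real.exp_le_exp.2 ?_) h0)
    have h3 : c ≤ u := by nlinarith
    have h4 : 2 / 3 * c ≤ κ * u := by nlinarith
    have h5 := mul_le_mul_of_nonneg_right h4 (sq_nonneg (t * c))
    have h6 : 0 ≤ κ * u * s := by positivity
    nlinarith

variable {t C y τ s : ℝ} {e : ℕ → ℕ → ℂ}

theorem FI_sec (ht : 0 < t) (h : Bdd e C y τ) (hy : 0 ≤ y) (hτ : 0 ≤ τ) (h2 : τ * t < 2)
    (hs : -1 < s) (j : ℕ) : ∃ K, 0 ≤ K ∧ ∀ (ζ : ℂ) (u σ η : ℝ), 1 ≤ u → 0 ≤ σ → 0 ≤ η →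
      ζ.re = u ^ 2 / 2 → ‖ζ‖ ≤ u ^ 2 → y * σ + 1 / t ≤ (2 / (3 * t) - τ / 3) / 2 * (η * u) ^ 2 →
      ‖FI (t ^ 2) e j s ((t ^ 2 : ℝ) * ζ + 1 * σ) (1 * σ)‖ ≤
        K * Real.exp (2 * u + (2 / (3 * t) - τ / 3) / 2 * (η * u) ^ 3) := by
  obtain ⟨K, h0, hK⟩ := Ai_sec2 ht j
  have hδ := del_pos ht h2
  have hC := h.nonneg
  generalize hd : 2 / (3 * t) - τ / 3 = δ at *
  refine ⟨C * K * ∫ ρ in Ioi 0, mj s (δ / 2) 0 ρ, mul_nonneg (by positivity) (setIntegral_nonneg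
    measurableSet_Ioi fun ρ (hρ : 0 < ρ) => by unfold mj; positivity), ?_⟩
  intro ζ u σ η hu hσ hη h3 h4 h5
  refine (norm_integral_le_of_norm_le ((mj_int0 hs (half_pos hδ)).const_mul
    (C * K * Real.exp (2 * u + δ / 2 * (η * u) ^ 3)))
    ((ae_restrict_iff' measurableSet_Ioi).2 (ae_of_all _ fun ρ (hρ : 0 < ρ) => ?_))).trans_eq
    (by rw [integral_const_mul]; ring)
  refine (norm_fI h hy hτ hρ (M := σ) (by simp [abs_of_nonneg hσ])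
    (hK ζ u σ ρ hu hσ hρ h3 h4)).trans ?_
  rw [hd, Real.exp_add, ← mul_assoc, ← mul_assoc, mul_assoc _ (Real.exp (_ * _ ^ 3))]
  refine mul_le_mul_of_nonneg_left (mj_le hρ ((mul_le_mul_of_nonneg_right h5 hρ.le).trans ?_))
    (by positivity)
  have h6 : 0 ≤ η * u := by positivity
  generalize η * u = r at *
  rw [mul_assoc, ← mul_add]
  refine mul_le_mul_of_nonneg_left ?_ (by positivity)
  rcases le_total ρ r with h7 | h7
  · nlinarith [mul_le_mul_of_nonneg_left h7 (sq_nonneg r), pow_pos hρ 3]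
  · nlinarith [mul_le_mul_of_nonneg_right (pow_le_pow_left₀ h6 h7 2) hρ.le, pow_nonneg h6 3]

theorem Wr_sec (ht : 0 < t) (hq : 2 < t ^ 2) (h : Bdd e C y τ) (hy : 0 < y) (hτ : 0 ≤ τ)
    (h2 : τ * t < 2) (hr : RecE (t ^ 2) e) : ∃ K c u0 : ℝ, 0 < c ∧ ∀ (ζ : ℂ) (u : ℝ), u0 ≤ u →
      ζ.re = u ^ 2 / 2 → ‖ζ‖ ≤ u ^ 2 → ‖Wr (t ^ 2) e ζ 0‖ ≤ K * Real.exp (-c * u ^ 3) := by
  obtain ⟨A0, a0, hA0⟩ := Ai_sec1 0
  obtain ⟨A1, a1, hA1⟩ := Ai_sec1 1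
  obtain ⟨K0, k0, hK0⟩ := FI_sec ht h hy.le hτ h2 (by linarith : -1 < t ^ 2 - 2) 0
  obtain ⟨K1, k1, hK1⟩ := FI_sec ht h hy.le hτ h2 (by linarith : -1 < t ^ 2 - 2) 1
  obtain ⟨K2, k2, hK2⟩ := FI_sec ht h.s1 hy.le hτ h2 (by linarith : -1 < t ^ 2 - 2 + 1) 0
  have hδ := del_pos ht h2
  generalize 2 / (3 * t) - τ / 3 = δ at *
  obtain ⟨η, hη, e1⟩ : ∃ η : ℝ, 0 < η ∧ y * η = 1 / 5 := ⟨1 / (5 * y), by positivity, by field_simp⟩
  refine ⟨A0 * (K2 + K1) + A1 * K0, δ * η ^ 3 / 4, 1 + 4 / (t * (δ * η ^ 2)) + 16 / (δ * η ^ 3),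
    by positivity, fun ζ u hu h3 h4 => ?_⟩
  have p1 : 0 < 4 / (t * (δ * η ^ 2)) := by positivity
  have p2 : 0 < 16 / (δ * η ^ 3) := by positivity
  have u1 : 1 ≤ u := by linarith
  have u2 : u ≤ u ^ 2 := by nlinarith
  have u3 : 1 / t ≤ δ * η ^ 2 * u ^ 2 / 4 := by
    have := (div_le_iff₀ (by positivity)).1 (by linarith : 4 / (t * (δ * η ^ 2)) ≤ u ^ 2)
    rw [div_le_iff₀ ht]; linarith
  have u4 : 16 * u ≤ δ * η ^ 3 * u ^ 3 := by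
    have := (div_le_iff₀ (by positivity)).1 (by linarith : 16 / (δ * η ^ 3) ≤ u ^ 2)
    nlinarith
  have hσ : 0 ≤ 5 / 4 * δ * η ^ 3 * u ^ 2 := by positivity
  have u5 : y * (5 / 4 * δ * η ^ 3 * u ^ 2) + 1 / t ≤ δ / 2 * (η * u) ^ 2 := by
    rw [show y * (5 / 4 * δ * η ^ 3 * u ^ 2) = y * η * (5 / 4 * δ * η ^ 2 * u ^ 2) by ring, e1]
    nlinarith
  have b0 := hA0 ζ u _ u1 hσ h3 h4
  have b1 := hA1 ζ u _ u1 hσ h3 h4
  have c0 := hK0 ζ u _ η u1 hσ hη.le h3 h4 u5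
  have c1 := hK1 ζ u _ η u1 hσ hη.le h3 h4 u5
  have c2 := hK2 ζ u _ η u1 hσ hη.le h3 h4 u5
  rw [← Wr_const ht hq h hy.le hτ h2 hr ζ ((5 / 4 * δ * η ^ 3 * u ^ 2 : ℝ) : ℂ), Wr]
  refine (norm_sub_le _ _).trans ?_
  rw [norm_mul, norm_mul]
  refine (add_le_add (mul_le_mul b0 ((norm_add_le _ _).trans (add_le_add c2 c1)) (norm_nonneg _)
    (by positivity)) (mul_le_mul b1 c0 (norm_nonneg _) (by positivity))).trans ?_
  have : Real.exp (-(4 / 5 * u * (5 / 4 * δ * η ^ 3 * u ^ 2)) + 2 * u) *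
      Real.exp (2 * u + δ / 2 * (η * u) ^ 3) ≤ Real.exp (-(δ * η ^ 3 / 4) * u ^ 3) := by
    rw [← Real.exp_add]
    exact Real.exp_le_exp.2 (by nlinarith)
  nlinarith [mul_le_mul_of_nonneg_left this (by positivity : 0 ≤ A0 * (K2 + K1) + A1 * K0)]

theorem eq_zero_of_sector {b : ℂ → ℂ} (hb : Differentiable ℂ b) {K c u0 : ℝ} (hc : 0 < c)
    (H : ∀ (ζ : ℂ) (u : ℝ), u0 ≤ u → ζ.re = u ^ 2 / 2 → ‖ζ‖ ≤ u ^ 2 →
      ‖b ζ‖ ≤ K * Real.exp (-c * u ^ 3)) (z : ℂ) : b z = 0 := by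
  obtain ⟨K', hK'⟩ := (isCompact_closedBall (0 : ℂ) (u0 ^ 2)).exists_bound_of_continuousOn
    hb.continuous.continuousOn
  obtain ⟨K1, k0, hK1⟩ : ∃ K1, 0 ≤ K1 ∧ ∀ ξ : ℂ, 0 ≤ ξ.re →
      ‖b (ξ ^ ((2 / 3 : ℝ) : ℂ))‖ ≤ K1 * Real.exp (-c * ‖ξ‖) := by
    refine ⟨|K| + |K'| * Real.exp (c * |u0| ^ 3), by positivity, fun ξ hξ => ?_⟩
    have h1 : ‖ξ ^ ((2 / 3 : ℝ) : ℂ)‖ ≤ 2 * (ξ ^ ((2 / 3 : ℝ) : ℂ)).re := by
      have := abs_arg_le_pi_div_two_iff.2 hξ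
      have h2 : Real.cos (π / 3) ≤ Real.cos (|ξ.arg * (2 / 3)|) :=
        Real.cos_le_cos_of_nonneg_of_le_pi (abs_nonneg _) (by linarith [Real.pi_pos])
          (by rw [abs_mul, abs_of_pos (by norm_num : (0 : ℝ) < 2 / 3)]; linarith)
      rw [Real.cos_abs, Real.cos_pi_div_three] at h2
      rw [cpow_ofReal_re, norm_cpow_real]
      nlinarith [Real.rpow_nonneg (norm_nonneg ξ) (2 / 3)]
    have h2 := Real.sq_sqrt ((norm_nonneg _).trans h1)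
    have h3 := Real.sqrt_nonneg (2 * (ξ ^ ((2 / 3 : ℝ) : ℂ)).re)
    generalize √(2 * (ξ ^ ((2 / 3 : ℝ) : ℂ)).re) = u at *
    have h4 : ‖ξ‖ ≤ u ^ 3 := by
      have := pow_le_pow_left₀ (norm_nonneg _) (h1.trans h2.ge) 3
      rw [norm_cpow_real, ← Real.rpow_natCast, ← Real.rpow_mul (norm_nonneg _), ← pow_mul,
        show (2 / 3 : ℝ) * (3 : ℕ) = (2 : ℕ) by norm_num, Real.rpow_natCast, mul_comm, pow_mul] at this
      exact le_of_sq_le_sq this (by positivity) |> fun h => h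
    rw [add_mul]
    rcases le_total u0 u with h5 | h5
    · refine (H _ u h5 (by linarith) (h1.trans h2.ge)).trans (le_add_of_le_of_nonneg
        (mul_le_mul (le_abs_self _) (Real.exp_le_exp.2 (by nlinarith)) (by positivity)
          (abs_nonneg _)) (by positivity))
    · have h6 : u ^ 3 ≤ |u0| ^ 3 := pow_le_pow_left₀ h3 (h5.trans (le_abs_self _)) 3
      refine (hK' _ (mem_closedBall_zero_iff.2 ((h1.trans h2.ge).trans
        (pow_le_pow_left₀ h3 h5 2)))).trans (le_add_of_nonneg_of_le (by positivity) ?_)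
      rw [mul_assoc, ← Real.exp_add]
      exact (le_abs_self _).trans (le_mul_of_one_le_right (abs_nonneg _)
        (Real.one_le_exp (by nlinarith)))
  let f : ℂ → ℂ := fun ξ => b (ξ ^ ((2 / 3 : ℝ) : ℂ)) * cexp (-((c / 4 : ℝ) * (ξ * log (1 + ξ))))
  have n1 : ∀ ξ : ℂ, 0 ≤ ξ.re → ‖f ξ‖ ≤ K1 * Real.exp (-(c / 4 * (ξ.re * Real.log ‖1 + ξ‖))) := by
    intro ξ hξ
    rw [norm_mul, Complex.norm_exp]
    refine (mul_le_mul_of_nonneg_right (hK1 ξ hξ) (by positivity)).trans ?_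
    rw [mul_assoc, ← Real.exp_add]
    refine mul_le_mul_of_nonneg_left (Real.exp_le_exp.2 ?_) k0
    have h1 : ξ.im * (1 + ξ).arg ≤ ‖ξ‖ * 4 := (le_abs_self _).trans (by
      rw [abs_mul]
      exact mul_le_mul (abs_im_le_norm ξ) ((abs_arg_le_pi _).trans Real.pi_le_four) (abs_nonneg _)
        (norm_nonneg _))
    simp only [neg_re, re_ofReal_mul, mul_re ξ, log_re, log_im]
    nlinarith
  have n2 : ∀ ξ : ℂ, 0 ≤ ξ.re → ‖f ξ‖ ≤ K1 := fun ξ hξ => by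
    refine (n1 ξ hξ).trans (mul_le_of_le_one_right k0 (Real.exp_le_one_iff.2 ?_))
    have : 0 ≤ Real.log ‖1 + ξ‖ := Real.log_nonneg (le_trans (by simpa using hξ) (re_le_norm _))
    rw [neg_nonpos]
    positivity
  have sl : ∀ ξ : ℂ, 0 ≤ ξ.re → 1 + ξ ∈ slitPlane := fun ξ hξ => Or.inl (by simp; linarith)
  have key := PhragmenLindelof.eq_zero_on_right_half_plane_of_superexponential_decay (f := f)
    ⟨fun ξ hξ => DifferentiableAt.differentiableWithinAt ?_, ?_⟩ ⟨0, by norm_num, 0, ?_⟩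
    (fun n => ?_) ⟨K1, fun x => n2 _ (by simp)⟩
  · have h1 : ∀ r : ℝ, 0 ≤ r → b r = 0 := fun r hr => by
      have := key (x := ((r ^ (3 / 2 : ℝ) : ℝ) : ℂ)) (by simpa using Real.rpow_nonneg hr _)
      simp only [f, Pi.zero_apply, mul_eq_zero, Complex.exp_ne_zero, or_false] at this
      rwa [← ofReal_cpow (Real.rpow_nonneg hr _), ← Real.rpow_mul hr,
        show (3 / 2 : ℝ) * (2 / 3) = 1 by norm_num, Real.rpow_one] at this
    have h2 : Tendsto (fun n : ℕ => ((1 / ((n : ℝ) + 1) : ℝ) : ℂ)) atTop (𝓝[≠] 0) :=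
      tendsto_nhdsWithin_iff.2 ⟨
        (continuous_ofReal.tendsto' 0 0 rfl).comp tendsto_one_div_add_atTop_nhds_zero_nat,
        Eventually.of_forall fun n => ofReal_ne_zero.2 (by positivity)⟩
    exact congrFun (AnalyticOnNhd.eq_of_frequently_eq (fun z _ => hb.analyticAt z)
      analyticOnNhd_const (h2.frequently (Frequently.of_forall fun n => h1 _ (by positivity)))) z
  · exact ((hb _).comp ξ (differentiableAt_id.cpow_const (Or.inl hξ))).mul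
      ((differentiableAt_id.mul (((differentiableAt_const _).add differentiableAt_id).clog
        (sl ξ hξ.le))).const_mul _).neg.cexp
  · rw [closure_setOfPred_lt_re]
    refine fun ξ hξ => ContinuousAt.continuousWithinAt ?_
    exact (hb.continuous.continuousAt.comp (continuousAt_cpow_const_of_re_pos (Or.inl hξ)
      (by norm_num))).mul ((differentiableAt_id.mul (((differentiableAt_const _).add
        differentiableAt_id).clog (sl ξ hξ))).const_mul _).neg.cexp.continuousAt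
  · refine IsBigO.of_bound K1 (eventually_inf_principal.2 (Eventually.of_forall fun ξ hξ => ?_))
    simpa using n2 ξ (le_of_lt hξ)
  · have h1 : Tendsto (fun x : ℝ => K1 * Real.exp (-x)) atTop (𝓝 0) := by
      simpa using Real.tendsto_exp_neg_atTop_nhds_zero.const_mul K1
    refine squeeze_zero' (Eventually.of_forall fun x => by positivity) ?_ h1
    filter_upwards [eventually_ge_atTop 0, (Real.tendsto_log_atTop.comp
      (tendsto_atTop_add_const_left _ 1 tendsto_id)).eventually_ge_atTop ((n + 1) / (c / 4))]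
      with x hx hl
    refine (mul_le_mul_of_nonneg_left (n1 x (by simpa using hx)) (by positivity)).trans ?_
    rw [mul_left_comm, ← Real.exp_nat_mul, ← Real.exp_add]
    refine mul_le_mul_of_nonneg_left (Real.exp_le_exp.2 ?_) k0
    have e : ‖1 + (x : ℂ)‖ = 1 + x := by
      rw [← ofReal_one, ← ofReal_add, Complex.norm_real, Real.norm_of_nonneg (by linarith)]
    rw [div_le_iff₀ (by positivity)] at hl
    simp only [Function.comp, id] at hl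
    rw [e, ofReal_re]
    nlinarith [mul_le_mul_of_nonneg_left hl hx]

end Pool.Agent.P.MP_e0c037_lc.R3
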