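import Pool.Agent.P.MP_e0c037_lc.Defs

/-! Sums over colourings, polynomial functions, the weighted dichromatic polynomial and its Potts
representation. -/

namespace Pool.Agent.P.MP_e0c037_lc.R3

open Finset Polynomial

/-- Sum over all lists of length `n` with entries below `D`. -/
def SL (D : ℕ) : ℕ → (List ℕ → ℝ) → ℝ
  | 0, w => w []
  | n + 1, w => ∑ c ∈ range D, SL D n fun l => w (c :: l)

variable {D n m : ℕ} {w w' : List ℕ → ℝ}

theorem SL_mono (h : ∀ l : List ℕ, l.length = n → (∀ c ∈ l, c < D) → w l ≤ w' l) :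
    SL D n w ≤ SL D n w' := by
  induction n generalizing w w' with
  | zero => exact h [] rfl (by simp)
  | succ n ih =>
    exact sum_le_sum fun c hc => ih fun l h1 h2 => h _ (by simp [h1])
      (List.forall_mem_cons.2 ⟨mem_range.1 hc, h2⟩)

theorem SL_congr (h : ∀ l : List ℕ, l.length = n → (∀ c ∈ l, c < D) → w l = w' l) :
    SL D n w = SL D n w' :=
  le_antisymm (SL_mono fun l h1 h2 => (h l h1 h2).le) (SL_mono fun l h1 h2 => (h l h1 h2).ge)

theorem SL_add : SL D n (fun l => w l + w' l) = SL D n w + SL D n w' := by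
  induction n generalizing w w' with
  | zero => rfl
  | succ n ih => simp only [SL, ih, sum_add_distrib]

theorem SL_mul (a : ℝ) : SL D n (fun l => a * w l) = a * SL D n w := by
  induction n generalizing w with
  | zero => rfl
  | succ n ih => simp only [SL, ih, mul_sum]

theorem SL_const (a : ℝ) : SL D n (fun _ => a) = D ^ n * a := by
  induction n with
  | zero => simp [SL]
  | succ n ih => simp [SL, ih, pow_succ]; ring

theorem SL_sum {ι : Type} (s : Finset ι) (f : ι → List ℕ → ℝ) :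
    SL D n (fun l => ∑ i ∈ s, f i l) = ∑ i ∈ s, SL D n (f i) := by
  induction n generalizing f with
  | zero => rfl
  | succ n ih => simp only [SL, ih]; exact sum_comm

theorem SL_sub : SL D n (fun l => w l - w' l) = SL D n w - SL D n w' := by
  simp only [sub_eq_add_neg, SL_add, neg_eq_neg_one_mul (w' _), SL_mul]; ring

theorem SL_abs {η : ℝ} (h : ∀ l : List ℕ, l.length = n → (∀ c ∈ l, c < D) → |w l| ≤ η) :
    |SL D n w| ≤ D ^ n * η := by
  rw [abs_le, ← mul_neg, ← SL_const, ← SL_const]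
  exact ⟨SL_mono fun l h1 h2 => (abs_le.1 (h l h1 h2)).1,
    SL_mono fun l h1 h2 => (abs_le.1 (h l h1 h2)).2⟩

theorem SL_append : SL D (n + m) w = SL D n fun l => SL D m fun l' => w (l ++ l') := by
  induction n generalizing w with
  | zero => simp [SL]
  | succ n ih => rw [Nat.succ_add]; simp only [SL, ih, List.cons_append]

theorem SL_perm (π : Equiv.Perm ℕ) (hπ : ∀ c, π c < D ↔ c < D) :
    SL D n (fun l => w (l.map π)) = SL D n w := by
  induction n generalizing w with
  | zero => rfl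
  | succ n ih =>
    simp only [SL, List.map_cons]
    refine sum_equiv π (by simp [hπ]) fun c _ => ?_
    exact ih (w := fun l => w (π c :: l))

theorem SL_ofFn : SL D n w = ∑ σ : Fin n → Fin D, w (List.ofFn fun i => (σ i : ℕ)) := by
  induction n generalizing w with
  | zero => simp [SL]
  | succ n ih =>
    rw [SL, ← (Fin.consEquiv fun _ => Fin D).sum_comp, Fintype.sum_prod_type, sum_range]
    simp [ih, List.ofFn_succ, Fin.consEquiv]

theorem SL_card (P : List ℕ → Prop) [DecidablePred P] :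
    SL D n (fun l => if P l then 1 else 0) =
      Nat.card {l : List ℕ // l.length = n ∧ (∀ c ∈ l, c < D) ∧ P l} := by
  rw [SL_ofFn, sum_boole, ← Fintype.card_subtype, ← Nat.card_eq_fintype_card]
  congr 1
  refine Nat.card_eq_of_bijective (fun σ => ⟨List.ofFn fun i => (σ.1 i : ℕ), by simp,
    by simp, σ.2⟩) ⟨fun σ τ h => ?_, ?_⟩
  · have := List.ofFn_injective (congrArg Subtype.val h)
    exact Subtype.ext (funext fun i => Fin.ext (congrFun this i))
  · rintro ⟨l, rfl, h2, h3⟩
    exact ⟨⟨fun i => ⟨l[i], h2 _ (List.getElem_mem _)⟩, by simpa using h3⟩, by simp⟩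

/-- Polynomial functions. -/
@[fun_prop] def IsPoly (f : ℝ → ℝ) : Prop := ∃ P : ℝ[X], ∀ x, f x = P.eval x

variable {f g : ℝ → ℝ}

@[fun_prop] theorem IsPoly.const (a : ℝ) : IsPoly fun _ => a := ⟨C a, by simp⟩
@[fun_prop] theorem IsPoly.id : IsPoly fun x => x := ⟨X, by simp⟩
@[fun_prop] theorem IsPoly.comp (hf : IsPoly f) (hg : IsPoly g) : IsPoly fun x => f (g x) := by
  obtain ⟨P, hP⟩ := hf
  obtain ⟨Q, hQ⟩ := hg
  exact ⟨P.comp Q, by simp [hP, hQ]⟩
@[fun_prop] theorem IsPoly.add (hf : IsPoly f) (hg : IsPoly g) : IsPoly fun x => f x + g x := by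
  obtain ⟨P, hP⟩ := hf
  obtain ⟨Q, hQ⟩ := hg
  exact ⟨P + Q, by simp [hP, hQ]⟩
@[fun_prop] theorem IsPoly.sub (hf : IsPoly f) (hg : IsPoly g) : IsPoly fun x => f x - g x := by
  obtain ⟨P, hP⟩ := hf
  obtain ⟨Q, hQ⟩ := hg
  exact ⟨P - Q, by simp [hP, hQ]⟩
@[fun_prop] theorem IsPoly.mul (hf : IsPoly f) (hg : IsPoly g) : IsPoly fun x => f x * g x := by
  obtain ⟨P, hP⟩ := hf
  obtain ⟨Q, hQ⟩ := hg
  exact ⟨P * Q, by simp [hP, hQ]⟩
@[fun_prop] theorem IsPoly.pow (hf : IsPoly f) (k : ℕ) : IsPoly fun x => f x ^ k := by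
  obtain ⟨P, hP⟩ := hf
  exact ⟨P ^ k, by simp [hP]⟩
@[fun_prop] theorem IsPoly.sum {ι : Type} (s : Finset ι) {F : ι → ℝ → ℝ}
    (h : ∀ i ∈ s, IsPoly (F i)) : IsPoly fun x => ∑ i ∈ s, F i x := by
  choose! P hP using h
  exact ⟨∑ i ∈ s, P i, fun x => by
    rw [eval_finsetSum]; exact sum_congr rfl fun i hi => hP i hi x⟩

theorem poly_ext (hf : IsPoly f) (hg : IsPoly g) (h : ∀ k : ℕ, 2 ≤ k → f k = g k) (x : ℝ) :
    f x = g x := by
  obtain ⟨P, hP⟩ := hf
  obtain ⟨Q, hQ⟩ := hg
  rw [hP, hQ, eq_of_infinite_eval_eq P Q]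
  refine ((Set.Ici_infinite 2).image (Nat.cast_injective (R := ℝ)).injOn).mono ?_
  rintro _ ⟨k, hk, rfl⟩
  simpa [← hP, ← hQ] using h k hk

theorem interp (P : ℝ[X]) (N : ℕ) (hP : P.natDegree ≤ N) {η x : ℝ} (hx : 0 ≤ x)
    (h : ∀ k : ℕ, k ≤ N → |P.eval (k : ℝ)| ≤ η) : |P.eval x| ≤ (N + 1) * ((x + N) ^ N * η) := by
  have e := Lagrange.eq_interpolate (s := range (N + 1)) (v := fun k : ℕ => (k : ℝ)) (f := P)
    (Nat.cast_injective (R := ℝ)).injOn
    (degree_le_natDegree.trans_lt (by rw [card_range]; exact_mod_cast Nat.lt_succ_of_le hP))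
  rw [e, Lagrange.interpolate_apply, eval_finsetSum]
  refine (abs_sum_le_sum_abs _ _).trans ((sum_le_card_nsmul _ _ ((x + N) ^ N * η)
    fun i hi => ?_).trans (by simp))
  rw [eval_mul, eval_C, abs_mul, mul_comm]
  refine mul_le_mul ?_ (h i (Nat.lt_succ_iff.1 (mem_range.1 hi))) (abs_nonneg _) (by positivity)
  rw [Lagrange.basis, eval_prod, abs_prod]
  refine (prod_le_prod (g := fun _ => x + N) (fun _ _ => abs_nonneg _) fun j hj => ?_).trans
    (by rw [prod_const, card_erase_of_mem hi]; simp)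
  have hj1 : (j : ℝ) ≤ N := by
    exact_mod_cast Nat.lt_succ_iff.1 (mem_range.1 (mem_erase.1 hj).2)
  have hj2 : (1 : ℝ) ≤ |(i : ℝ) - j| := by
    have : (1 : ℤ) ≤ |(i : ℤ) - j| := Int.one_le_abs (by have := (mem_erase.1 hj).1; omega)
    exact_mod_cast this
  simp only [Lagrange.basisDivisor, eval_mul, eval_C, eval_sub, eval_X, abs_mul, abs_inv]
  refine (mul_le_of_le_one_left (abs_nonneg _) (inv_le_one_of_one_le₀ hj2)).trans ?_
  have : (0 : ℝ) ≤ j := j.cast_nonneg
  rw [abs_le]
  constructor <;> linarith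

/-- Weighted edges: two ends, the weight `a` and the extra weight `b` for equal colours. -/
abbrev WE := ℕ × ℕ × ℝ × ℝ

/-- All ends are below `N`. -/
def Val (N : ℕ) (L : List WE) : Prop := ∀ e ∈ L, e.1 < N ∧ e.2.1 < N

/-- Indicator of equal colours. -/
def dl (l : List ℕ) (u v : ℕ) : ℝ := if l[u]? = l[v]? then 1 else 0

/-- Weight of a colouring. -/
def Wt (L : List WE) (l : List ℕ) : ℝ := (L.map fun e => e.2.2.1 + e.2.2.2 * dl l e.1 e.2.1).prod

/-- The dichromatic polynomial with two weights on each edge. -/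
noncomputable def Zw (x : ℝ) (N : ℕ) (L : List WE) : ℝ :=
  ∑ A ∈ (range L.length).powerset, x ^ comps N (L.map fun e => (e.1, e.2.1)) A *
    ((∏ i ∈ A, (L.getD i 0).2.2.2) * ∏ i ∈ range L.length \ A, (L.getD i 0).2.2.1)

@[fun_prop] theorem Zw_poly (N : ℕ) (L : List WE) : IsPoly fun x => Zw x N L := by
  unfold Zw; fun_prop

theorem Zw_deg (N : ℕ) (L : List WE) :
    ∃ P : ℝ[X], P.natDegree ≤ N ∧ ∀ x, Zw x N L = P.eval x := by
  refine ⟨∑ A ∈ (range L.length).powerset, X ^ comps N (L.map fun e => (e.1, e.2.1)) A *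
    C ((∏ i ∈ A, (L.getD i 0).2.2.2) * ∏ i ∈ range L.length \ A, (L.getD i 0).2.2.1),
    natDegree_sum_le_of_forall_le _ _ fun A _ => (natDegree_mul_C_le _ _).trans ?_,
    fun x => by simp only [Zw, eval_finsetSum, eval_mul, eval_pow, eval_X, eval_C]⟩
  rw [natDegree_X_pow]
  exact (Nat.card_le_card_of_surjective _ Quot.mk_surjective).trans (by simp)

theorem count_comps (k N : ℕ) (E : List (ℕ × ℕ)) (hE : ∀ e ∈ E, e.1 < N ∧ e.2 < N)
    (A : Finset ℕ) (hA : A ⊆ range E.length) :
    SL k N (fun l => ∏ i ∈ A, dl l (E.getD i 0).1 (E.getD i 0).2) = k ^ comps N E A := by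
  classical
  have h1 : ∀ i ∈ A, ∃ a b : Fin N, E[i]? = some (a.1, b.1) ∧ E.getD i 0 = (a.1, b.1) := by
    intro i hi
    have hi' := mem_range.1 (hA hi)
    have := hE _ (List.getElem_mem hi')
    exact ⟨⟨_, this.1⟩, ⟨_, this.2⟩, List.getElem?_eq_getElem hi', List.getD_eq_getElem _ _ hi'⟩
  have h2 : ∀ σ : Fin N → Fin k, (∀ i ∈ A, (List.ofFn fun j => (σ j : ℕ))[(E.getD i 0).1]? =
      (List.ofFn fun j => (σ j : ℕ))[(E.getD i 0).2]?) ↔
      ∀ a b, (spanning N E A).Adj a b → σ a = σ b := by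
    intro σ
    constructor
    · intro h
      have : ∀ a b : Fin N, (∃ i ∈ A, E[i]? = some (a.1, b.1)) → σ a = σ b := by
        rintro a b ⟨i, hi, e⟩
        have h3 := h i hi
        rw [List.getD_eq_getElem?_getD, e] at h3
        simpa [List.getElem?_ofFn, Fin.ext_iff] using h3
      rintro a b ⟨_, h3 | h3⟩
      · exact this a b h3
      · exact (this b a h3).symm
    · intro h i hi
      obtain ⟨a, b, e1, e2⟩ := h1 i hi
      rw [e2]
      by_cases hab : a = b
      · rw [hab]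
      · simpa [List.getElem?_ofFn, Fin.ext_iff] using h a b ⟨hab, Or.inl ⟨i, hi, e1⟩⟩
  simp only [SL_ofFn, dl, prod_boole, h2]
  rw [sum_boole, ← Fintype.card_subtype, ← Nat.card_eq_fintype_card, comps]
  have e : {σ : Fin N → Fin k // ∀ a b, (spanning N E A).Adj a b → σ a = σ b} ≃
      ((spanning N E A).ConnectedComponent → Fin k) :=
    { toFun := fun σ => SimpleGraph.ConnectedComponent.lift σ.1 fun a b p _ => by
        induction p with
        | nil => rfl
        | cons h p ih => exact (σ.2 _ _ h).trans (ih (by simp_all))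
      invFun := fun f => ⟨fun a => f ((spanning N E A).connectedComponentMk a), fun a b h =>
        congrArg f (SimpleGraph.ConnectedComponent.connectedComponentMk_eq_of_adj h)⟩
      left_inv := fun σ => rfl
      right_inv := fun f => funext fun c => c.ind fun a => rfl }
  rw [Nat.card_congr e, Nat.card_fun]
  simp

theorem Zw_nat (k N : ℕ) (L : List WE) (hL : Val N L) : Zw k N L = SL k N (Wt L) := by
  have e : ∀ l, Wt L l = ∑ A ∈ (range L.length).powerset,
      ((∏ i ∈ A, (L.getD i 0).2.2.2) * ∏ i ∈ range L.length \ A, (L.getD i 0).2.2.1) *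
      ∏ i ∈ A, dl l ((L.map fun e => (e.1, e.2.1)).getD i 0).1
        ((L.map fun e => (e.1, e.2.1)).getD i 0).2 := by
    intro l
    have h0 : ∀ i, (L.map fun e : WE => (e.1, e.2.1)).getD i 0 =
        ((L.getD i 0).1, (L.getD i 0).2.1) := fun i =>
      List.getD_map (n := i) L 0 fun e : WE => (e.1, e.2.1)
    have : Wt L l = ∏ i ∈ range L.length, ((L.getD i 0).2.2.2 *
        dl l (L.getD i 0).1 (L.getD i 0).2.1 + (L.getD i 0).2.2.1) := by
      rw [Wt, prod_range, ← List.prod_ofFn]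
      congr 1
      refine List.ext_getElem (by simp) fun i h1 h2 => ?_
      have h3 : i < L.length := by simpa using h1
      rw [List.getElem_map, List.getElem_ofFn, List.getD_eq_getElem _ _ h3, add_comm]
    rw [this, prod_add]
    refine sum_congr rfl fun A _ => ?_
    simp only [h0, prod_mul_distrib]
    ring
  rw [funext e, SL_sum, Zw]
  refine sum_congr rfl fun A hA => ?_
  rw [SL_mul, count_comps k N _ (List.forall_mem_map.2 fun e he => hL e he) A (by simpa using hA), mul_comm]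

theorem Zw_map (x : ℝ) (N : ℕ) (E : List (ℕ × ℕ)) (a b : ℝ) :
    Zw x N (E.map fun e => (e.1, e.2, a, b)) = ∑ A ∈ (range E.length).powerset,
      x ^ comps N E A * (b ^ A.card * a ^ (E.length - A.card)) := by
  rw [Zw, List.length_map, List.map_map]
  refine sum_congr rfl fun A hA => ?_
  have hA' := mem_powerset.1 hA
  have h : ∀ i ∈ range E.length, ((E.map fun e => ((e.1, e.2, a, b) : WE)).getD i 0).2.2 = (a, b) :=
    fun i hi => by rw [List.getD_eq_getElem _ _ (by simpa using hi)]; simp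
  rw [prod_congr rfl fun i hi => congrArg Prod.snd (h i (hA' hi)),
    prod_congr rfl fun i hi => congrArg Prod.fst (h i (mem_sdiff.1 hi).1), prod_const, prod_const,
    card_sdiff_of_subset hA', card_range]
  congr 3
  exact List.map_id' E

theorem dichromatic_eq (N : ℕ) (E : List (ℕ × ℕ)) (x v : ℝ) :
    dichromatic N E x v = Zw x N (E.map fun e => (e.1, e.2, 1, v)) := by
  simp [Zw_map, dichromatic]

end Pool.Agent.P.MP_e0c037_lc.R3
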