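import Pool.Agent.P.MP_e0c037_lc.R3.Stm

/-! Double exponential generating series. -/

namespace Pool.Agent.P.MP_e0c037_lc.R3

open Complex
open scoped Nat

/-- A term of the double series. -/
noncomputable def tm (e : ℕ → ℕ → ℂ) (a b : ℂ) (p : ℕ × ℕ) : ℂ :=
  e p.1 p.2 * (a ^ p.1 / p.1 !) * (b ^ p.2 / p.2 !)

/-- The double series. -/
noncomputable def Sr (e : ℕ → ℕ → ℂ) (a b : ℂ) : ℂ := ∑' p, tm e a b p

/-- Geometric bound for the coefficients. -/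
def Bdd (e : ℕ → ℕ → ℂ) (C y τ : ℝ) : Prop := ∀ k n, ‖e k n‖ ≤ C * y ^ k * τ ^ n

/-- Shift of the first index. -/
def s1 (e : ℕ → ℕ → ℂ) : ℕ → ℕ → ℂ := fun k n => e (k + 1) n

/-- Shift of the second index. -/
def s2 (e : ℕ → ℕ → ℂ) : ℕ → ℕ → ℂ := fun k n => e k (n + 1)

variable {e : ℕ → ℕ → ℂ} {C y τ : ℝ} {a b : ℂ}

theorem Bdd.s1 (h : Bdd e C y τ) : Bdd (s1 e) (C * y) y τ := fun k n =>
  (h (k + 1) n).trans_eq (by ring)

theorem Bdd.s2 (h : Bdd e C y τ) : Bdd (s2 e) (C * τ) y τ := fun k n =>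
  (h k (n + 1)).trans_eq (by ring)

theorem Bdd.nonneg (h : Bdd e C y τ) : 0 ≤ C := by simpa using (norm_nonneg _).trans (h 0 0)

theorem hasSum_major {A B : ℝ} (hA : 0 ≤ A) (hB : 0 ≤ B) (C : ℝ) :
    HasSum (fun p : ℕ × ℕ => C * (A ^ p.1 / p.1 ! * (B ^ p.2 / p.2 !))) (C * Real.exp (A + B)) := by
  have h : ∀ x : ℝ, HasSum (fun k : ℕ => x ^ k / k !) (Real.exp x) := fun x => by
    rw [Real.exp_eq_exp_ℝ]; exact NormedSpace.expSeries_div_hasSum_exp x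
  rw [Real.exp_add]
  exact ((h A).mul (h B) ((h A).summable.mul_of_nonneg (h B).summable (fun k => by positivity)
    fun k => by positivity)).mul_left C

theorem norm_tm (h : Bdd e C y τ) (hy : 0 ≤ y) (hτ : 0 ≤ τ) {A B : ℝ} (hA : ‖a‖ ≤ A) (hB : ‖b‖ ≤ B)
    (p : ℕ × ℕ) : ‖tm e a b p‖ ≤ C * ((y * A) ^ p.1 / p.1 ! * ((τ * B) ^ p.2 / p.2 !)) := by
  have := h.nonneg
  simp only [tm, norm_mul, norm_div, norm_pow, Complex.norm_natCast]
  calc _ ≤ C * y ^ p.1 * τ ^ p.2 * (A ^ p.1 / p.1 !) * (B ^ p.2 / p.2 !) := by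
        have := (norm_nonneg a).trans hA
        gcongr
        exact h _ _
    _ = _ := by simp only [mul_pow]; ring

theorem Bdd.hasSum (h : Bdd e C y τ) (hy : 0 ≤ y) (hτ : 0 ≤ τ) (a b : ℂ) :
    HasSum (tm e a b) (Sr e a b) :=
  (Summable.of_norm_bounded (hasSum_major (by positivity) (by positivity) C).summable
    (norm_tm h hy hτ le_rfl le_rfl)).hasSum

theorem Bdd.norm_le (h : Bdd e C y τ) (hy : 0 ≤ y) (hτ : 0 ≤ τ) (a b : ℂ) :
    ‖Sr e a b‖ ≤ C * Real.exp (y * ‖a‖ + τ * ‖b‖) :=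
  tsum_of_norm_bounded (hasSum_major (by positivity) (by positivity) C)
    (norm_tm h hy hτ le_rfl le_rfl)

theorem Bdd.dsh1 (h : Bdd e C y τ) (hy : 0 ≤ y) (hτ : 0 ≤ τ) (a b : ℂ) :
    HasSum (fun p : ℕ × ℕ => e (p.1 - 1) p.2 * (p.1 * a ^ (p.1 - 1) / p.1 !) * (b ^ p.2 / p.2 !))
      (Sr e a b) := by
  refine (Function.Injective.hasSum_iff (g := fun p : ℕ × ℕ => (p.1 + 1, p.2))
    (fun p p' h => by simpa [Prod.ext_iff] using h) ?_).1 ?_
  · rintro ⟨_ | k, n⟩ hp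
    · simp
    · exact absurd ⟨(k, n), rfl⟩ hp
  · convert h.hasSum hy hτ a b using 1
    funext p
    have : ((p.1 + 1 : ℕ) : ℂ) ≠ 0 := Nat.cast_ne_zero.2 (by omega)
    simp only [tm, Function.comp, Nat.add_sub_cancel, Nat.factorial_succ, Nat.cast_mul,
      mul_div_mul_left _ _ this]

theorem Bdd.dsh2 (h : Bdd e C y τ) (hy : 0 ≤ y) (hτ : 0 ≤ τ) (a b : ℂ) :
    HasSum (fun p : ℕ × ℕ => e p.1 (p.2 - 1) * (a ^ p.1 / p.1 !) * (p.2 * b ^ (p.2 - 1) / p.2 !))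
      (Sr e a b) := by
  refine (Function.Injective.hasSum_iff (g := fun p : ℕ × ℕ => (p.1, p.2 + 1))
    (fun p p' h => by simpa [Prod.ext_iff] using h) ?_).1 ?_
  · rintro ⟨k, _ | n⟩ hp
    · simp
    · exact absurd ⟨(k, n), rfl⟩ hp
  · convert h.hasSum hy hτ a b using 1
    funext p
    have : ((p.2 + 1 : ℕ) : ℂ) ≠ 0 := Nat.cast_ne_zero.2 (by omega)
    simp only [tm, Function.comp, Nat.add_sub_cancel, Nat.factorial_succ, Nat.cast_mul,
      mul_div_mul_left _ _ this]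

theorem Bdd.hasDerivAt (h : Bdd e C y τ) (hy : 0 ≤ y) (hτ : 0 ≤ τ) {f g : ℂ → ℂ}
    (hf : Differentiable ℂ f) (hg : Differentiable ℂ g) {t f' g' : ℂ} (h1 : HasDerivAt f f' t)
    (h2 : HasDerivAt g g' t) : HasDerivAt (fun t => Sr e (f t) (g t))
      (f' * Sr (R3.s1 e) (f t) (g t) + g' * Sr (R3.s2 e) (f t) (g t)) t := by
  let U := {w | ‖f w‖ < ‖f t‖ + 1} ∩ {w | ‖g w‖ < ‖g t‖ + 1}
  have hU : IsOpen U := (isOpen_lt hf.continuous.norm continuous_const).inter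
    (isOpen_lt hg.continuous.norm continuous_const)
  have ht : t ∈ U := ⟨by simp, by simp⟩
  have hs := (hasSum_major (A := y * (‖f t‖ + 1)) (B := τ * (‖g t‖ + 1)) (by positivity)
    (by positivity) C).summable
  have hd : ∀ p, DifferentiableOn ℂ (fun w => tm e (f w) (g w) p) U := fun p => by
    unfold tm; fun_prop
  have hb : ∀ p w, w ∈ U → ‖tm e (f w) (g w) p‖ ≤ _ := fun p w hw =>
    norm_tm h hy hτ hw.1.le hw.2.le p
  have h3 := hasSum_deriv_of_summable_norm hs hd hU hb ht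
  have h4 := ((differentiableOn_tsum_of_summable_norm hs hd hU hb).differentiableAt
    (hU.mem_nhds ht)).hasDerivAt
  have h5 := ((h.s1.dsh1 hy hτ (f t) (g t)).mul_left f').add ((h.s2.dsh2 hy hτ (f t) (g t)).mul_left g')
  refine h4.congr_deriv (h3.tsum_eq.symm.trans ((tsum_congr fun p => ?_).trans h5.tsum_eq))
  have := ((((h1.pow p.1).div_const (p.1 ! : ℂ)).const_mul (e p.1 p.2)).mul
    ((h2.pow p.2).div_const (p.2 ! : ℂ))).deriv
  refine Eq.trans this ?_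
  obtain ⟨_ | k, _ | n⟩ := p <;> simp [R3.s1, R3.s2] <;> ring

theorem Sr_zero : Sr e 0 0 = e 0 0 := by
  rw [Sr, tsum_eq_single (0, 0)]
  · simp [tm]
  · rintro ⟨_ | k, _ | n⟩ h <;> simp_all [tm]

theorem Sr_left (h : ∀ n, e 0 n = 0) : Sr e 0 b = 0 := by
  rw [Sr, ← tsum_zero (β := ℕ × ℕ)]
  congr 1
  funext ⟨k, n⟩
  cases k <;> simp [tm, h]

/-- The recursion with the signs attached. -/
def RecE (q : ℝ) (e : ℕ → ℕ → ℂ) : Prop :=
  ∀ k n : ℕ, (k + 3 * n + q - 2) * e (k + 1) n =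
    3 * n * (e (k + 2) (n - 1) + e k (n - 1) / q) - k * (1 - 1 / q) * e (k - 1) n

theorem Bdd.pde {q : ℝ} (h : Bdd e C y τ) (hy : 0 ≤ y) (hτ : 0 ≤ τ) (hr : RecE q e) (a b : ℂ) :
    a * Sr (R3.s1 (R3.s1 e)) a b + 3 * b * Sr (R3.s2 (R3.s1 e)) a b + (q - 2) * Sr (R3.s1 e) a b =
      3 * b * (Sr (R3.s1 (R3.s1 e)) a b + Sr e a b / q) - (1 - 1 / q) * a * Sr e a b := by
  have l := (((h.s1.s1.dsh1 hy hτ a b).mul_left a).add
    ((h.s1.s2.dsh2 hy hτ a b).mul_left (3 * b))).add ((h.s1.hasSum hy hτ a b).mul_left ((q : ℂ) - 2))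
  have r := (((h.s1.s1.dsh2 hy hτ a b).add ((h.dsh2 hy hτ a b).div_const (q : ℂ))).mul_left (3 * b)).sub
    ((h.dsh1 hy hτ a b).mul_left ((1 - 1 / (q : ℂ)) * a))
  refine l.tsum_eq.symm.trans ((tsum_congr fun ⟨k, n⟩ => ?_).trans r.tsum_eq)
  have e1 : a * (k * a ^ (k - 1) / k !) = k * (a ^ k / k !) := by cases k <;> simp [pow_succ]; ring
  have e2 : b * (n * b ^ (n - 1) / n !) = n * (b ^ n / n !) := by cases n <;> simp [pow_succ]; ring
  have e3 : (k : ℂ) * e (k - 1 + 1 + 1) n = k * e (k + 1) n := by cases k <;> simp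
  have e4 : (n : ℂ) * e (k + 1) (n - 1 + 1) = n * e (k + 1) n := by cases n <;> simp
  simp only [tm, R3.s1, R3.s2]
  linear_combination (b ^ n / n !) * (e (k - 1 + 1 + 1) n + (1 - 1 / q) * e (k - 1) n) * e1 +
    3 * (a ^ k / k !) * (e (k + 1) (n - 1 + 1) - e (k + 2) (n - 1) - e k (n - 1) / q) * e2 +
    (a ^ k / k !) * (b ^ n / n !) * (e3 + 3 * e4 + hr k n)

theorem recE_of_rec {q : ℝ} {w : ℕ → ℕ → ℝ} (h : Rec q w) :
    RecE q fun k n => I ^ (k + n) * w k n := by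
  intro k n
  have := congrArg (fun x : ℝ => (x : ℂ)) (h.2 k n)
  push_cast at this
  have e1 : (n : ℂ) * I ^ (k + 2 + (n - 1)) = n * I ^ (k + 1 + n) := by
    cases n with
    | zero => simp
    | succ n => congr 2; omega
  have e2 : (n : ℂ) * I ^ (k + (n - 1)) = -(n * I ^ (k + 1 + n)) := by
    cases n with
    | zero => simp
    | succ n =>
      rw [show k + 1 + (n + 1) = k + (n + 1 - 1) + 2 by omega, pow_add _ _ 2, I_sq]; ring
  have e3 : (k : ℂ) * I ^ (k - 1 + n) = -(k * I ^ (k + 1 + n)) := by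
    cases k with
    | zero => simp
    | succ k =>
      rw [show k + 1 + 1 + n = k + 1 - 1 + n + 2 by omega, pow_add _ _ 2, I_sq]; ring
  linear_combination I ^ (k + 1 + n) * this - 3 * w (k + 2) (n - 1) * e1 -
    3 * w k (n - 1) / q * e2 + (1 - 1 / q) * w (k - 1) n * e3

end Pool.Agent.P.MP_e0c037_lc.R3
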