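import Pool.Agent.P.MP_e0c037_lc.R3.SL

/-! Two-terminal gadgets and their substitution for edges. -/

namespace Pool.Agent.P.MP_e0c037_lc.R3

open Finset

/-- Validity of an unweighted edge list. -/
def ValU (N : ℕ) (E : List (ℕ × ℕ)) : Prop := ∀ e ∈ E, e.1 < N ∧ e.2 < N

/-- The same weights on all edges. -/
def U (a b : ℝ) (E : List (ℕ × ℕ)) : List WE := E.map fun e => (e.1, e.2, a, b)

variable {N n : ℕ} {L L' F : List WE} {E : List (ℕ × ℕ)} {x q v a b a' b' : ℝ} {u w : ℕ}

theorem ValU.U (h : ValU N E) : Val N (U a b E) := List.forall_mem_map.2 fun e he => h e he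

theorem Val.mono (h : Val N L) {M : ℕ} (hM : N ≤ M) : Val M L :=
  fun e he => ⟨(h e he).1.trans_le hM, (h e he).2.trans_le hM⟩

theorem ValU.mono (h : ValU N E) {M : ℕ} (hM : N ≤ M) : ValU M E :=
  fun e he => ⟨(h e he).1.trans_le hM, (h e he).2.trans_le hM⟩

theorem Val.append (h : Val N L) (h' : Val N L') : Val N (L ++ L') :=
  List.forall_mem_append.2 ⟨h, h'⟩

theorem Val.cons (h : Val N L) (hu : u < N) (hw : w < N) : Val N ((u, w, a, b) :: L) :=
  List.forall_mem_cons.2 ⟨⟨hu, hw⟩, h⟩

theorem Val.nil : Val N [] := fun _ h => by simp at h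

@[simp] theorem Wt_nil (l : List ℕ) : Wt [] l = 1 := rfl
@[simp] theorem Wt_cons (l : List ℕ) : Wt ((u, w, a, b) :: L) l = (a + b * dl l u w) * Wt L l := by
  simp [Wt]
@[simp] theorem Wt_append (l : List ℕ) : Wt (L ++ L') l = Wt L l * Wt L' l := by simp [Wt]
@[simp] theorem U_append (E' : List (ℕ × ℕ)) : U a b (E ++ E') = U a b E ++ U a b E' := by simp [U]

theorem Zw_congr (h : Val N L) (h' : Val N L') (e : ∀ l, Wt L l = Wt L' l) :
    Zw x N L = Zw x N L' :=
  poly_ext (Zw_poly N L) (Zw_poly N L')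
    (fun k _ => by rw [Zw_nat k N L h, Zw_nat k N L' h', funext e]) x

theorem Zw_nil : Zw x N [] = x ^ N :=
  poly_ext (Zw_poly N []) (by fun_prop : IsPoly fun x => x ^ N) (fun k _ => by
    rw [Zw_nat k N _ Val.nil]; exact (SL_const 1).trans (mul_one _)) x

theorem Zw_cons (h : Val N F) (hu : u < N) (hw : w < N) :
    Zw x N ((u, w, a, b) :: F) = a * Zw x N F + b * Zw x N ((u, w, 0, 1) :: F) := by
  refine poly_ext (f := fun x => Zw x N _) (g := fun x => a * Zw x N F + b * Zw x N _)
    (by fun_prop) (by fun_prop) (fun k _ => ?_) x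
  rw [Zw_nat _ _ _ (h.cons hu hw), Zw_nat _ _ _ (h.cons hu hw), Zw_nat _ _ _ h, ← SL_mul, ← SL_mul,
    ← SL_add]
  exact SL_congr fun l _ _ => by simp; ring

theorem dl_map (π : Equiv.Perm ℕ) (l : List ℕ) (u w : ℕ) : dl (l.map π) u w = dl l u w := by
  simp only [dl, List.getElem?_map, (Option.map_injective π.injective).eq_iff]

theorem dl_sq (l : List ℕ) (u w : ℕ) : dl l u w * dl l u w = dl l u w := by
  unfold dl; split_ifs <;> simp

theorem swap_lt {k i j : ℕ} (hi : i < k) (hj : j < k) (c : ℕ) : Equiv.swap i j c < k ↔ c < k := by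
  rw [Equiv.swap_apply_def]; split_ifs <;> omega

theorem gadget_sym (k n : ℕ) (hk : 2 ≤ k) (G : List WE) {c c' : ℕ} (hc : c < k) (hc' : c' < k) :
    (SL k n fun l => Wt G (c :: c' :: l)) = if c = c' then SL k n fun l => Wt G (0 :: 0 :: l)
      else SL k n fun l => Wt G (0 :: 1 :: l) := by
  have key : ∀ i j s t, i < k → j < k → (SL k n fun l => Wt G (s :: t :: l)) =
      SL k n fun l => Wt G (Equiv.swap i j s :: Equiv.swap i j t :: l) := by
    intro i j s t hi hj
    rw [← SL_perm (Equiv.swap i j) (swap_lt hi hj)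
      (w := fun l => Wt G (Equiv.swap i j s :: Equiv.swap i j t :: l))]
    refine SL_congr fun l _ _ => ?_
    simp only [← List.map_cons, Wt, dl_map]
  rw [key 0 c c c' (by omega) hc, Equiv.swap_apply_right]
  split_ifs with h
  · rw [← h, Equiv.swap_apply_right]
  · have h1 : Equiv.swap 0 c c' ≠ 0 := by
      rw [Ne, Equiv.swap_apply_eq_iff, Equiv.swap_apply_left]; exact fun e => h e.symm
    rw [key 1 (Equiv.swap 0 c c') 0 _ (by omega) ((swap_lt (by omega) hc _).2 hc'),
      Equiv.swap_apply_right, Equiv.swap_apply_of_ne_of_ne (by omega) h1.symm]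

theorem sum_two (k : ℕ) (α β : ℝ) :
    ∑ c ∈ range k, ∑ c' ∈ range k, (if c = c' then α else β) = k * α + k * (k - 1) * β := by
  have : ∀ c ∈ range k, ∑ c' ∈ range k, (if c = c' then α else β) = α - β + k * β := by
    intro c hc
    have : ∀ c', (if c = c' then α else β) = (if c = c' then α - β else 0) + β := fun c' => by
      split_ifs <;> ring
    simp only [this, sum_add_distrib, sum_ite_eq, hc, if_true, sum_const, card_range, nsmul_eq_mul]
  rw [sum_congr rfl this]
  simp
  ring

/-- New names of the vertices of a gadget. -/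
def rl (u w N i : ℕ) : ℕ := cond (decide (i = 0)) u (cond (decide (i = 1)) w (N + (i - 2)))

/-- A copy of a gadget between `u` and `w`, with inner vertices from `N` on. -/
def glue (G : List (ℕ × ℕ)) (u w N : ℕ) : List (ℕ × ℕ) :=
  G.map fun e => (rl u w N e.1, rl u w N e.2)

theorem glue_val {G : List (ℕ × ℕ)} (hG : ValU (n + 2) G) (hu : u < N) (hw : w < N) :
    ValU (N + n) (glue G u w N) := by
  have : ∀ i < n + 2, rl u w N i < N + n := fun i hi => by
    match i with
    | 0 => simp [rl]; omega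
    | 1 => simp [rl]; omega
    | i + 2 => simp [rl]; omega
  exact List.forall_mem_map.2 fun e he => ⟨this _ (hG e he).1, this _ (hG e he).2⟩

theorem Wt_left {l l' : List ℕ} (h : Val l.length F) : Wt F (l ++ l') = Wt F l := by
  unfold Wt
  congr 1
  refine List.map_congr_left fun e he => ?_
  simp only [dl, List.getElem?_append_left (h e he).1, List.getElem?_append_left (h e he).2]

theorem subst0 {G : List (ℕ × ℕ)} (hG : ValU (n + 2) G) (hF : Val N F) (hu : u < N) (hw : w < N) :
    x * (x - 1) * Zw x (N + n) (U a b (glue G u w N) ++ F) =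
      (Zw x (n + 2) (U a b G) - Zw x (n + 2) ((0, 1, 0, 1) :: U a b G)) * Zw x N F +
      (x * Zw x (n + 2) ((0, 1, 0, 1) :: U a b G) - Zw x (n + 2) (U a b G)) *
        Zw x N ((u, w, 0, 1) :: F) := by
  refine poly_ext (f := fun x => x * (x - 1) * Zw x _ _)
    (g := fun x => (Zw x _ _ - Zw x _ _) * Zw x N F + (x * Zw x _ _ - Zw x _ _) * Zw x N _)
    (by fun_prop) (by fun_prop) (fun k hk => ?_) x
  rw [Zw_nat _ _ _ ((glue_val hG hu hw).U.append (hF.mono (by omega))), Zw_nat _ _ _ hG.U,
    Zw_nat _ _ _ (hG.U.cons (by omega) (by omega)), Zw_nat _ _ _ hF, Zw_nat _ _ _ (hF.cons hu hw)]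
  set g0 := SL k n fun l => Wt (U a b G) (0 :: 0 :: l)
  set g1 := SL k n fun l => Wt (U a b G) (0 :: 1 :: l)
  have e0 : SL k (n + 2) (Wt (U a b G)) = k * g0 + k * (k - 1) * g1 := by
    rw [← sum_two]
    exact sum_congr rfl fun c hc => sum_congr rfl fun c' hc' =>
      gadget_sym k n hk _ (mem_range.1 hc) (mem_range.1 hc')
  have e1 : SL k (n + 2) (Wt ((0, 1, 0, 1) :: U a b G)) = k * g0 + k * (k - 1) * 0 := by
    rw [← sum_two]
    refine sum_congr rfl fun c hc => sum_congr rfl fun c' hc' => ?_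
    have := gadget_sym k n hk (U a b G) (mem_range.1 hc) (mem_range.1 hc')
    by_cases h : c = c'
    · simpa [dl, h] using this
    · simp [dl, h, SL_const]
  rw [e0, e1, SL_append, ← SL_mul, ← SL_mul (w := Wt F), ← SL_mul (w := Wt (_ :: F)), ← SL_add]
  refine SL_congr fun l h1 h2 => ?_
  subst h1
  have e2 : ∀ l' : List ℕ, Wt (U a b (glue G u w l.length)) (l ++ l') =
      Wt (U a b G) (l[u] :: l[w] :: l') := by
    intro l'
    have : ∀ i, (l ++ l')[rl u w l.length i]? = (l[u] :: l[w] :: l')[i]? := fun i => by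
      match i with
      | 0 => simp [rl, List.getElem?_append_left hu, hu]
      | 1 => simp [rl, List.getElem?_append_left hw, hw]
      | i + 2 => simp [rl, List.getElem?_append_right]
    simp only [Wt, U, glue, List.map_map, Function.comp_def, dl, this]
  simp only [Wt_append, e2, Wt_left hF, mul_comm _ (Wt F l), SL_mul, Wt_cons]
  rw [gadget_sym k n hk _ (h2 _ (List.getElem_mem hu)) (h2 _ (List.getElem_mem hw))]
  simp only [dl, List.getElem?_eq_getElem hu, List.getElem?_eq_getElem hw, Option.some_inj]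
  split_ifs <;> ring

/-- The gadget `G` with `n` inner vertices acts as an edge with weights `a`, `b`. -/
def Gad (q v : ℝ) (n : ℕ) (G : List (ℕ × ℕ)) (a b : ℝ) : Prop :=
  ValU (n + 2) G ∧ Zw q (n + 2) (U 1 v G) = q ^ 2 * a + q * b ∧
    Zw q (n + 2) ((0, 1, 0, 1) :: U 1 v G) = q * (a + b)

theorem Gad.subst {G : List (ℕ × ℕ)} (h : Gad q v n G a b) (hq : 1 < q) (hF : Val N F) (hu : u < N)
    (hw : w < N) : Zw q (N + n) (U 1 v (glue G u w N) ++ F) = Zw q N ((u, w, a, b) :: F) := by
  have : q * (q - 1) ≠ 0 := mul_ne_zero (by linarith) (by linarith)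
  refine mul_left_cancel₀ this ?_
  rw [subst0 h.1 hF hu hw, h.2.1, h.2.2, Zw_cons (a := a) hF hu hw]
  ring

/-- Copies of a gadget for all edges of a list. -/
def build (G : List (ℕ × ℕ)) (n N : ℕ) (E : List (ℕ × ℕ)) : List (ℕ × ℕ) :=
  (List.range E.length).flatMap fun i => glue G (E.getD i (0, 0)).1 (E.getD i (0, 0)).2 (N + i * n)

theorem build_snoc (G : List (ℕ × ℕ)) (e : ℕ × ℕ) :
    build G n N (E ++ [e]) = build G n N E ++ glue G e.1 e.2 (N + E.length * n) := by
  simp only [build, List.length_append, List.length_singleton, List.range_succ,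
    List.flatMap_append, List.flatMap_singleton]
  congr 1
  · exact List.flatMap_congr fun i hi => by rw [List.getD_append _ _ _ _ (List.mem_range.1 hi)]
  · simp

theorem Gad.build {G : List (ℕ × ℕ)} (h : Gad q v n G a b) (hq : 1 < q) (hE : ValU N E) :
    ValU (N + E.length * n) (build G n N E) ∧ ∀ F, Val N F →
      Zw q (N + E.length * n) (U 1 v (build G n N E) ++ F) = Zw q N (U a b E ++ F) := by
  induction E using List.reverseRecOn with
  | nil => exact ⟨fun e he => by simp [R3.build] at he, fun F _ => by simp [R3.build, U]⟩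
  | append_singleton E e ih =>
    obtain ⟨h1, h2⟩ := List.forall_mem_append.1 hE
    obtain ⟨h3, h4⟩ := h2 e (by simp)
    obtain ⟨i1, i2⟩ := ih h1
    have h5 := glue_val (N := N + E.length * n) (u := e.1) (w := e.2) h.1 (by omega) (by omega)
    rw [build_snoc, List.length_append, List.length_singleton, Nat.succ_mul, ← add_assoc]
    refine ⟨List.forall_mem_append.2 ⟨i1.mono (by omega), h5⟩, fun F hF => ?_⟩
    have h6 := (i1.U (a := 1) (b := v)).append (hF.mono (by omega))
    rw [Zw_congr (L' := U 1 v (glue G e.1 e.2 (N + E.length * n)) ++ (U 1 v (R3.build G n N E) ++ F))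
      ((ValU.U (List.forall_mem_append.2 ⟨i1.mono (by omega), h5⟩)).append (hF.mono (by omega)))
      (h5.U.append (h6.mono (by omega))) (fun l => by simp; ring),
      h.subst hq h6 (by omega) (by omega),
      Zw_congr (L' := U 1 v (R3.build G n N E) ++ ((e.1, e.2, a, b) :: F))
        (h6.cons (by omega) (by omega)) (i1.U.append ((hF.cons h3 h4).mono (by omega)))
        (fun l => by simp; ring), i2 _ (hF.cons h3 h4)]
    simp [U]

/-- Weights realised by a gadget. -/
def Impl (q v a b : ℝ) : Prop := ∃ n G, Gad q v n G a b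

theorem realize (hq : 1 < q) (hL : Val N L) (h : ∀ e ∈ L, Impl q v e.2.2.1 e.2.2.2) :
    ∃ n E, ValU (N + n) E ∧ ∀ F, Val N F → Zw q (N + n) (U 1 v E ++ F) = Zw q N (L ++ F) := by
  induction L with
  | nil => exact ⟨0, [], fun e he => by simp at he, fun F _ => by simp [U]⟩
  | cons e L ih =>
    obtain ⟨u, w, a, b⟩ := e
    obtain ⟨⟨h3, h4⟩, h1⟩ := List.forall_mem_cons.1 hL
    obtain ⟨⟨n, G, hG⟩, h2⟩ := List.forall_mem_cons.1 h
    obtain ⟨m, E, i1, i2⟩ := ih h1 h2
    dsimp only at h3 h4 hG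
    have h5 := glue_val (N := N + m) (u := u) (w := w) hG.1 (by omega) (by omega)
    refine ⟨m + n, glue G u w (N + m) ++ E, ?_, fun F hF => ?_⟩
    · rw [← add_assoc]; exact List.forall_mem_append.2 ⟨h5, i1.mono (by omega)⟩
    have h6 := (i1.U (a := 1) (b := v)).append (hF.mono (by omega))
    rw [← add_assoc, U_append, List.append_assoc, hG.subst hq h6 (by omega) (by omega),
      Zw_congr (L' := U 1 v E ++ ((u, w, a, b) :: F)) (h6.cons (by omega) (by omega))
        (i1.U.append ((hF.cons h3 h4).mono (by omega))) (fun l => by simp; ring),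
      i2 _ (hF.cons h3 h4)]
    exact Zw_congr (Val.append h1 (hF.cons h3 h4)) (hL.append hF) fun l => by simp; ring

theorem Impl.of_gadget (hq : 1 < q) (hL : Val (n + 2) L) (h : ∀ e ∈ L, Impl q v e.2.2.1 e.2.2.2)
    (h0 : Zw q (n + 2) L = q ^ 2 * a + q * b)
    (h1 : Zw q (n + 2) ((0, 1, 0, 1) :: L) = q * (a + b)) : Impl q v a b := by
  obtain ⟨m, E, i1, i2⟩ := realize hq hL h
  have h2 : Val (n + 2) [(0, 1, 0, 1)] := Val.nil.cons (by omega) (by omega)
  refine ⟨n + m, E, ?_⟩
  rw [Gad, add_right_comm]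
  refine ⟨i1, by simpa [h0] using i2 [] Val.nil, ?_⟩
  rw [← h1, Zw_congr (hL.cons (by omega) (by omega)) (hL.append h2) (fun l => by simp; ring),
    ← i2 _ h2]
  exact Zw_congr (i1.U.cons (by omega) (by omega)) (i1.U.append (h2.mono (by omega)))
    fun l => by simp; ring

theorem Zw_two (hL : Val 2 L) (h : ∀ l, Wt L l = a + b * dl l 0 1) :
    Zw x 2 L = x ^ 2 * a + x * b := by
  refine poly_ext (f := fun x => Zw x 2 L) (g := fun x => x ^ 2 * a + x * b)
    (by fun_prop) (by fun_prop) (fun k _ => ?_) x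
  rw [Zw_nat _ _ _ hL, show (k : ℝ) ^ 2 * a + k * b = k * (a + b) + k * (k - 1) * a by ring,
    ← sum_two]
  refine sum_congr rfl fun c _ => sum_congr rfl fun c' _ => ?_
  by_cases e : c = c' <;> simp [SL, h, dl, e]

theorem Impl.base : Impl q v 1 v := by
  have h : ValU (0 + 2) [(0, 1)] := by simp [ValU]
  refine ⟨0, _, h, Zw_two h.U fun l => by simp [U], ?_⟩
  rw [Zw_two (a := 0) (b := 1 + v) (h.U.cons (by omega) (by omega)) fun l => by
    simp [U, mul_add, mul_left_comm, dl_sq, add_mul]]
  ring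

theorem Impl.par (hq : 1 < q) {c c' : ℝ} (h : Impl q v a (c - a)) (h' : Impl q v a' (c' - a')) :
    Impl q v (a * a') (c * c' - a * a') := by
  have hL : Val (0 + 2) [(0, 1, a, c - a), (0, 1, a', c' - a')] := by simp [Val]
  refine Impl.of_gadget hq hL (by simp [h, h']) (Zw_two hL fun l => ?_) ?_
  · simp only [Wt_cons, Wt_nil, dl]; split_ifs <;> ring
  · rw [Zw_two (a := 0) (b := c * c') (hL.cons (by omega) (by omega)) fun l => by
      simp only [Wt_cons, Wt_nil, dl]; split_ifs <;> ring]
    ring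

/-- Two pendant edges attached to a graph. -/
theorem Zw_pend (hE : ValU N E) (hu : u < N) (hw : w < N) (α β s t : ℝ) :
    Zw x (N + 2) ((0, 1, α, β) :: (0, u + 2, a, b) :: (w + 2, 1, a', b') ::
      U s t (E.map fun e => (e.1 + 2, e.2 + 2))) =
      (α * ((x * a + b) * (x * a' + b')) + β * (x * a * a' + a * b' + b * a')) * Zw x N (U s t E) +
        β * (b * b') * Zw x N ((u, w, 0, 1) :: U s t E) := by
  have h1 : ValU (N + 2) (E.map fun e => (e.1 + 2, e.2 + 2)) :=
    List.forall_mem_map.2 fun e he => by have := hE e he; dsimp only; omega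
  refine poly_ext (f := fun x => Zw x _ _)
    (g := fun x => (α * ((x * a + b) * (x * a' + b')) + β * (x * a * a' + a * b' + b * a')) *
      Zw x N _ + β * (b * b') * Zw x N _) (by fun_prop) (by fun_prop) (fun k hk => ?_) x
  rw [Zw_nat _ _ _ (((h1.U.cons (by omega) (by omega)).cons (by omega) (by omega)).cons (by omega)
    (by omega)), Zw_nat _ _ _ hE.U, Zw_nat _ _ _ (hE.U.cons hu hw), ← SL_mul, ← SL_mul, ← SL_add]
  simp only [SL, ← SL_sum]
  refine SL_congr fun l h2 h3 => ?_
  subst h2
  have e : ∀ c c', Wt (U s t (E.map fun e => (e.1 + 2, e.2 + 2))) (c :: c' :: l) = Wt (U s t E) l :=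
    fun c c' => by simp [Wt, U, dl, Function.comp_def]
  have i1 := mem_range.2 (h3 _ (List.getElem_mem hu))
  have i2 := mem_range.2 (h3 _ (List.getElem_mem hw))
  simp only [Wt_cons, e, dl, List.getElem?_cons_succ, List.getElem?_cons_zero,
    List.getElem?_eq_getElem hu, List.getElem?_eq_getElem hw, Option.some_inj]
  generalize l[u] = i at *
  generalize l[w] = j at *
  generalize Wt (U s t E) l = W
  have e1 : ∀ c ∈ range k, ∑ c' ∈ range k, (α + β * if c = c' then 1 else 0) *
      ((a + b * if c = i then 1 else 0) * ((a' + b' * if j = c' then 1 else 0) * W)) =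
      (a * W * (α * (k * a' + b') + β * a') + (if c = i then b * W * (α * (k * a' + b') + β * a')
        else 0)) + ((if c = j then a * W * β * b' else 0) +
        if c = i then (if i = j then b * W * β * b' else 0) else 0) := by
    intro c hc
    have : ∀ c', (α + β * if c = c' then 1 else 0) *
        ((a + b * if c = i then 1 else 0) * ((a' + b' * if j = c' then 1 else 0) * W)) =
        (a + b * if c = i then 1 else 0) * W * (α * a' + (if j = c' then α * b' else 0) +
          if c = c' then β * (a' + b' * if j = c then 1 else 0) else 0) := by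
      intro c'
      by_cases h : c = c'
      · subst h; split_ifs <;> ring
      · split_ifs <;> ring
    simp only [this, ← mul_sum, sum_add_distrib, sum_ite_eq, hc, i2, if_true, sum_const,
      card_range, nsmul_eq_mul]
    split_ifs <;> first | ring1 | (exfalso; omega)
  rw [sum_congr rfl e1]
  simp only [sum_add_distrib, sum_ite_eq', i1, i2, if_true, sum_const, card_range, nsmul_eq_mul]
  split_ifs <;> ring

theorem Impl.ser (hq : 1 < q) {d d' : ℝ} (h : Impl q v ((d - b) / q) b)
    (h' : Impl q v ((d' - b') / q) b') : Impl q v ((d * d' - b * b') / q) (b * b') := by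
  have hL : Val (1 + 2) [(0, 2, (d - b) / q, b), (2, 1, (d' - b') / q, b')] := by simp [Val]
  have hE : ValU 1 [] := fun e he => by simp at he
  have h1 : Zw q 1 [(0, 0, 0, 1)] = q := by
    rw [Zw_congr (L' := []) (by simp [Val]) Val.nil fun l => by simp [dl], Zw_nil, pow_one]
  have h2 := fun α β => Zw_pend (x := q) (a := (d - b) / q) (b := b) (a' := (d' - b') / q) (b' := b')
    hE one_pos one_pos α β 0 0
  simp only [U, List.map_nil, h1, Zw_nil, zero_add] at h2
  have hq0 : q ≠ 0 := by linarith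
  refine Impl.of_gadget hq hL (by simp [h, h']) ?_ ?_
  · rw [Zw_congr hL (hL.cons (u := 0) (w := 1) (a := 1) (b := 0) (by omega) (by omega))
      (fun l => by simp), h2]
    field_simp
    ring
  · rw [h2]
    field_simp
    ring

theorem Impl.par_pow (hq : 1 < q) {c : ℝ} (h : Impl q v a (c - a)) (j : ℕ) :
    Impl q v (a ^ (j + 1)) (c ^ (j + 1) - a ^ (j + 1)) := by
  induction j with
  | zero => simpa using h
  | succ j ih => rw [pow_succ a, pow_succ c]; exact ih.par hq h

theorem Impl.ser_pow (hq : 1 < q) {d : ℝ} (h : Impl q v ((d - b) / q) b) (j : ℕ) :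
    Impl q v ((d ^ (j + 1) - b ^ (j + 1)) / q) (b ^ (j + 1)) := by
  induction j with
  | zero => simpa using h
  | succ j ih => rw [pow_succ d, pow_succ b]; exact ih.ser hq h

theorem first_sign (hq : 0 < q) (hE : ValU N E) (h : Zw q N (U a b E) ≤ 0) :
    ∃ E' u w, ValU N E' ∧ u < N ∧ w < N ∧ 0 < Zw q N (U a b E') ∧
      Zw q N ((u, w, a, b) :: U a b E') ≤ 0 := by
  induction E with
  | nil => exact absurd h (not_le.2 (by rw [U, List.map_nil, Zw_nil]; positivity))
  | cons e E ih =>
    obtain ⟨h1, h2⟩ := List.forall_mem_cons.1 hE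
    rcases le_or_gt (Zw q N (U a b E)) 0 with h3 | h3
    · exact ih h2 h3
    · exact ⟨E, e.1, e.2, h2, h1.1, h1.2, h3, h⟩

/-- A graph with negative flow polynomial yields an antiferromagnetic gadget. -/
theorem exists_af (hq : 3 ≤ q) (hv : v ≤ -q) (hE : ValU N E) (h : Zw q N (U (-1) q E) < 0)
    {ε : ℝ} (hε : 0 < ε) : ∃ a c, Impl q v a (c - a) ∧ 0 < a ∧ 0 < c ∧ c ≤ ε * a := by
  have hq1 : 1 < q := by linarith
  have hq0 : 0 < q := by linarith
  have hb : Impl q v 1 (1 + v - 1) := by simpa using Impl.base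
  set y := 1 + v
  have hy : y ≤ -2 := by simp only [y]; linarith
  have hy2 : 4 ≤ y ^ 2 := by nlinarith
  have h3 : Impl q v ((q + (y ^ 3 - 1) - (y ^ 3 - 1)) / q) (y ^ 3 - 1) := by
    simpa [hq0.ne'] using hb.par_pow hq1 2
  have h2 : Impl q v ((q + (y ^ 2 - 1) - (y ^ 2 - 1)) / q) (y ^ 2 - 1) := by
    simpa [hq0.ne'] using hb.par_pow hq1 1
  have d3 : q + (y ^ 3 - 1) < 0 := by
    have : q ≤ 1 - y := by simp only [y]; linarith
    nlinarith
  set b3 := y ^ 3 - 1
  have hb3 : b3 < 0 := by linarith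
  set t := (q + b3) / b3
  have ht0 : 0 < t := div_pos_of_neg_of_neg d3 hb3
  have ht1 : t < 1 := (div_lt_one_of_neg hb3).2 (by linarith)
  have hc : Continuous fun s : ℝ => Zw q N (U (s - 1) q E) := by
    simp only [U, Zw_map]; fun_prop
  have hl : Filter.Tendsto (fun j : ℕ => t ^ (2 * j + 1 + 1)) Filter.atTop (nhds 0) :=
    (tendsto_pow_atTop_nhds_zero_of_lt_one ht0.le ht1).comp
      (Filter.tendsto_atTop_mono (fun j => by dsimp only [id]; omega) Filter.tendsto_id)
  obtain ⟨j, hj⟩ := (((hc.tendsto 0).comp hl).eventually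
    (gt_mem_nhds (by simpa using h))).exists
  have h4 := h3.ser_pow hq1 (2 * j + 1)
  have hB : 0 < b3 ^ (2 * j + 1 + 1) := Even.pow_pos ⟨j + 1, by ring⟩ hb3.ne
  have hT0 : 0 < t ^ (2 * j + 1 + 1) := by positivity
  have e1 : (q + b3) ^ (2 * j + 1 + 1) = t ^ (2 * j + 1 + 1) * b3 ^ (2 * j + 1 + 1) := by
    rw [← mul_pow, div_mul_cancel₀ _ hb3.ne]
  rw [e1] at h4
  simp only [Function.comp] at hj
  generalize t ^ (2 * j + 1 + 1) = T at *
  generalize b3 ^ (2 * j + 1 + 1) = B at *
  have h5 : Zw q N (U ((T * B - B) / q) B E) = (B / q) ^ E.length * Zw q N (U (T - 1) q E) := by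
    simp only [U, Zw_map, mul_sum]
    refine sum_congr rfl fun A hA => ?_
    have : A.card ≤ E.length := by simpa using card_le_card (mem_powerset.1 hA)
    obtain ⟨r, hr⟩ := Nat.exists_eq_add_of_le this
    rw [hr, Nat.add_sub_cancel_left, show (T * B - B) / q = B / q * (T - 1) by ring, pow_add]
    nth_rw 1 [show B = B / q * q by field_simp]
    simp only [mul_pow]
    ring
  obtain ⟨E', u, w, g1, g2, g3, g4, g5⟩ := first_sign (a := (T * B - B) / q) (b := B) hq0 hE
    (by rw [h5]; exact (mul_neg_of_pos_of_neg (by positivity) hj).le)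
  rw [Zw_cons g1.U g2 g3] at g5
  have h6 := fun α β => Zw_pend (x := q) (a := (T * B - B) / q) (b := B) (a' := (T * B - B) / q)
    (b' := B) g1 g2 g3 α β ((T * B - B) / q) B
  have g6 : ValU (N + 2) (E'.map fun e => (e.1 + 2, e.2 + 2)) :=
    List.forall_mem_map.2 fun e he => by have := g1 e he; dsimp only; omega
  generalize Zw q N (U ((T * B - B) / q) B E') = Z at *
  generalize Zw q N ((u, w, 0, 1) :: U ((T * B - B) / q) B E') = Z' at *
  have hq2 : 0 < q - 1 := by linarith
  have hL : Val (N + 2) ((0, u + 2, (T * B - B) / q, B) :: (w + 2, 1, (T * B - B) / q, B) ::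
      U ((T * B - B) / q) B (E'.map fun e => (e.1 + 2, e.2 + 2))) :=
    (g6.U.cons (by omega) (by omega)).cons (by omega) (by omega)
  have h7 : Impl q v (((T * B) ^ 2 * Z / q - B ^ 2 * (q * Z' - Z) / (q * (q - 1))) / q)
      (B ^ 2 * (q * Z' - Z) / (q * (q - 1))) := by
    refine Impl.of_gadget hq1 hL ?_ ?_ ?_
    · simp only [List.forall_mem_cons, U, List.forall_mem_map]
      exact ⟨h4, h4, fun _ _ => h4⟩
    · rw [Zw_congr hL (hL.cons (u := 0) (w := 1) (a := 1) (b := 0) (by omega) (by omega))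
        (fun l => by simp), h6]
      field_simp
      ring
    · rw [h6]
      field_simp
      ring
  have hD : 0 < (T * B) ^ 2 * Z / q := by positivity
  have hB' : B ^ 2 * (q * Z' - Z) / (q * (q - 1)) < 0 := by
    refine div_neg_of_neg_of_pos (mul_neg_of_pos_of_neg (by positivity) ?_) (by positivity)
    have : B / q * ((T - 1) * Z + q * Z') ≤ 0 := by
      convert g5 using 1
      field_simp
    have := nonpos_of_mul_nonpos_right this (by positivity) |> fun h => h
    nlinarith [mul_pos hT0 g4]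
  generalize (T * B) ^ 2 * Z / q = D at *
  generalize B ^ 2 * (q * Z' - Z) / (q * (q - 1)) = B' at *
  set b2 := y ^ 2 - 1
  have hb2 : 0 < b2 := by simp only [b2]; linarith
  obtain ⟨i, hi⟩ := pow_unbounded_of_one_lt ((q - 1) * -B' / D)
    ((one_lt_div hb2).2 (by linarith : b2 < q + b2))
  have h8 := h7.ser hq1 (h2.ser_pow hq1 i)
  have h9 : (q - 1) * -B' * b2 ^ (i + 1) < D * (q + b2) ^ (i + 1) := by
    rw [div_pow, div_lt_div_iff₀ hD (by positivity)] at hi
    have : 0 < (q - 1) * -B' * b2 ^ i := mul_pos (mul_pos hq2 (by linarith)) (by positivity)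
    rw [pow_succ, pow_succ]
    nlinarith [mul_pos hD (pow_pos (by linarith : 0 < q + b2) i)]
  have hp : 0 < -B' * b2 ^ (i + 1) := mul_pos (by linarith) (by positivity)
  generalize (q + b2) ^ (i + 1) = X at *
  generalize b2 ^ (i + 1) = Y at *
  set a0 := (D * X - B' * Y) / q
  have ha : 0 < a0 := div_pos (by nlinarith) hq0
  have hc0 : 0 < a0 + B' * Y := by
    rw [show a0 + B' * Y = (D * X - (q - 1) * -B' * Y) / q by simp only [a0]; field_simp; ring]
    exact div_pos (by linarith) hq0
  obtain ⟨m, hm⟩ := exists_pow_lt_of_lt_one hε ((div_lt_one ha).2 (by linarith : a0 + B' * Y < a0))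
  refine ⟨a0 ^ (m + 1), (a0 + B' * Y) ^ (m + 1), Impl.par_pow hq1 (by simpa using h8) m,
    by positivity, by positivity, ?_⟩
  rw [div_pow, div_lt_iff₀ (by positivity)] at hm
  rw [pow_succ, pow_succ, ← mul_assoc]
  exact mul_le_mul hm.le (by linarith) hc0.le (by positivity)

end Pool.Agent.P.MP_e0c037_lc.R3
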